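import Mathlib
import Pool.Agent.H204R3.SP.FFT
import Pool.Agent.H204R3.GP.Anti

/-!
# The first fundamental theorem for the special orthogonal group in four variables

The invariants of `sl(2) × sl(2)` on the tensor powers of the tensor product of the two standard
representations are generated by the quadratic form and the determinant.
-/

set_option linter.unusedSectionVars false

namespace Pool.Agent.L5helper19.TT

open Equiv Pool.Agent.H204R3.SP Pool.Agent.H204R3.GP

noncomputable section

/-- The involution of the indices. -/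
def rv (x : Fin 2) : Fin 2 := if x = 0 then 1 else 0

/-- The coefficients of the symplectic form. -/
def j2 (x : Fin 2) : ℂ := if x = 0 then 1 else -1

theorem rv_rv : ∀ x, rv (rv x) = x := by decide

theorem j2_rv (x : Fin 2) : j2 (rv x) = -j2 x := by
  fin_cases x <;> simp [j2, rv]

theorem j2_ne (x : Fin 2) : j2 x ≠ 0 := by
  fin_cases x <;> simp [j2]

/-- The indices of the tensor product. -/
abbrev R4 : Type := Fin 2 × Fin 2

section pl

variable {κ : Type} [Fintype κ] [DecidableEq κ]

/-- The relation of Plücker. -/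
theorem pluecker (f : (κ → Fin 2) → ℂ) {p k : κ} (hpk : p ≠ k) (I : κ → Fin 2) :
    f I - f (fun l => I (swap p k l)) = -(JJ rv j2 (I p) (I k) *
      ∑ x, (j2 x)⁻¹ * f (Function.update (Function.update I p (rv x)) k x)) := by
  have h0 : ∀ a b : Fin 2, (fun l => Function.update (Function.update I p a) k b (swap p k l)) =
      Function.update (Function.update I p b) k a := by
    intro a b
    funext l
    by_cases h1 : l = p
    · subst h1
      rw [swap_apply_left, Function.update_self, Function.update_of_ne hpk,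
        Function.update_self]
    · by_cases h2 : l = k
      · subst h2
        rw [swap_apply_right, Function.update_of_ne hpk, Function.update_self,
          Function.update_self]
      · rw [swap_apply_of_ne_of_ne h1 h2, Function.update_of_ne h2, Function.update_of_ne h1,
          Function.update_of_ne h2, Function.update_of_ne h1]
  have h1 : I = Function.update (Function.update I p (I p)) k (I k) := by
    rw [Function.update_eq_self, Function.update_eq_self]
  have h2 : (fun l => I (swap p k l)) = Function.update (Function.update I p (I k)) k (I p) := by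
    rw [← h0 (I p) (I k), ← h1]
  rw [h2]
  nth_rewrite 1 [h1]
  rw [Fin.sum_univ_two]
  generalize I p = a
  generalize I k = b
  fin_cases a <;> fin_cases b <;> simp [JJ, j2, rv] <;> ring

/-- The sum of the transpositions. -/
theorem sum_swap (f : (κ → Fin 2) → ℂ) (hf : f ∈ InvF rv j2 κ) (p : κ) (I : κ → Fin 2) :
    ∑ k ∈ Finset.univ.erase p, f (fun l => I (swap p k l)) =
      ((Fintype.card κ : ℂ) / 2 - 2) * f I := by
  have h1 := contraction rv_rv j2_ne f hf p I
  have h2 : ∀ k ∈ Finset.univ.erase p, JJ rv j2 (I p) (I k) *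
      ∑ x, (j2 x)⁻¹ * f (Function.update (Function.update I p (rv x)) k x) =
      f (fun l => I (swap p k l)) - f I := by
    intro k hk
    have h3 := pluecker f (Finset.ne_of_mem_erase hk).symm I
    linear_combination h3
  rw [Finset.sum_congr rfl h2, Finset.sum_sub_distrib, Finset.sum_const,
    Finset.card_erase_of_mem (Finset.mem_univ p), Finset.card_univ, nsmul_eq_mul,
    Nat.cast_sub (Fintype.card_pos_iff.2 ⟨p⟩), Fintype.card_fin] at h1
  push_cast at h1
  linear_combination (1 / 2 : ℂ) * h1

end pl

section inv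

variable (κ : Type) [Fintype κ] [DecidableEq κ]

/-- The invariants of the product of two copies of `sl(2)`. -/
def Inv2 : Submodule ℂ ((κ → R4) → ℂ) where
  carrier := {F | (∀ J : κ → Fin 2, (fun I : κ → Fin 2 => F (fun k => (I k, J k))) ∈ InvF rv j2 κ) ∧
    ∀ I : κ → Fin 2, (fun J : κ → Fin 2 => F (fun k => (I k, J k))) ∈ InvF rv j2 κ}
  zero_mem' := ⟨fun _ => Submodule.zero_mem _, fun _ => Submodule.zero_mem _⟩
  add_mem' := fun ha hb => ⟨fun J => Submodule.add_mem _ (ha.1 J) (hb.1 J),
    fun J => Submodule.add_mem _ (ha.2 J) (hb.2 J)⟩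
  smul_mem' := fun c _ ha => ⟨fun J => Submodule.smul_mem _ c (ha.1 J),
    fun J => Submodule.smul_mem _ c (ha.2 J)⟩

variable {κ}

theorem Inv2_stable (σ : Perm κ) (F : (κ → R4) → ℂ) (hF : F ∈ Inv2 κ) : pact κ σ F ∈ Inv2 κ := by
  refine ⟨fun J => ?_, fun J => ?_⟩
  · have h1 := InvF_stable rv j2 σ _ (hF.1 (fun k => J (σ k)))
    exact h1
  · have h1 := InvF_stable rv j2 σ _ (hF.2 (fun k => J (σ k)))
    exact h1

/-- The contraction of two variables. -/
def con (p k : κ) (F : (κ → R4) → ℂ) (K : {l // l ≠ p ∧ l ≠ k} → R4) : ℂ :=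
  ∑ x : Fin 2, (j2 x)⁻¹ * ∑ y : Fin 2, (j2 y)⁻¹ * F (fill p k (rv x, rv y) (x, y) K)

theorem fill_pair (p k : κ) (a b : R4) (I J : {l // l ≠ p ∧ l ≠ k} → Fin 2) :
    fill p k a b (fun l => (I l, J l)) =
      fun l => (fill p k a.1 b.1 I l, fill p k a.2 b.2 J l) := by
  funext l
  unfold fill
  split_ifs <;> rfl

theorem con_mem {p k : κ} (hpk : p ≠ k) (F : (κ → R4) → ℂ) (hF : F ∈ Inv2 κ) :
    con p k F ∈ Inv2 {l // l ≠ p ∧ l ≠ k} := by
  refine ⟨fun J => ?_, fun I => ?_⟩
  · have h1 : (fun I => con p k F (fun l => (I l, J l))) = ∑ y : Fin 2, (j2 y)⁻¹ •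
        contr rv j2 p k (fun I' => F (fun l => (I' l, fill p k (rv y) y J l))) := by
      funext I
      rw [Finset.sum_apply]
      unfold con contr
      simp only [Pi.smul_apply, smul_eq_mul, Finset.mul_sum]
      rw [Finset.sum_comm]
      refine Finset.sum_congr rfl fun y _ => Finset.sum_congr rfl fun x _ => ?_
      rw [fill_pair]
      ring
    rw [h1]
    exact Submodule.sum_mem _ fun y _ => Submodule.smul_mem _ _
      (contr_mem rv_rv j2_rv j2_ne hpk _ (hF.1 _))
  · have h1 : (fun J => con p k F (fun l => (I l, J l))) = ∑ x : Fin 2, (j2 x)⁻¹ •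
        contr rv j2 p k (fun J' => F (fun l => (fill p k (rv x) x I l, J' l))) := by
      funext J
      rw [Finset.sum_apply]
      unfold con contr
      simp only [Pi.smul_apply, smul_eq_mul, Finset.mul_sum]
      refine Finset.sum_congr rfl fun y _ => Finset.sum_congr rfl fun x _ => ?_
      rw [fill_pair]
    rw [h1]
    exact Submodule.sum_mem _ fun y _ => Submodule.smul_mem _ _
      (contr_mem rv_rv j2_rv j2_ne hpk _ (hF.2 _))

/-- The two antisymmetrizations. -/
theorem con_eq {p k : κ} (hpk : p ≠ k) (F : (κ → R4) → ℂ) (I J : κ → Fin 2) :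
    F (fun l => (I l, J l)) - F (fun l => (I (swap p k l), J l)) -
      F (fun l => (I l, J (swap p k l))) + F (fun l => (I (swap p k l), J (swap p k l))) =
      JJ rv j2 (I p) (I k) * JJ rv j2 (J p) (J k) * con p k F (fun l => (I l, J l)) := by
  have h1 := pluecker (fun I' => F (fun l => (I' l, J l)) -
    F (fun l => (I' l, J (swap p k l)))) hpk I
  have h2 : ∀ I' : κ → Fin 2, F (fun l => (I' l, J l)) - F (fun l => (I' l, J (swap p k l))) =
      -(JJ rv j2 (J p) (J k) * ∑ y, (j2 y)⁻¹ * F (fun l => (I' l,
        Function.update (Function.update J p (rv y)) k y l))) := fun I' =>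
    pluecker (fun J' => F (fun l => (I' l, J' l))) hpk J
  simp only [h2] at h1
  have h3 : con p k F (fun l => (I l, J l)) = ∑ x : Fin 2, (j2 x)⁻¹ * ∑ y : Fin 2, (j2 y)⁻¹ *
      F (fun l => (Function.update (Function.update I p (rv x)) k x l,
        Function.update (Function.update J p (rv y)) k y l)) := by
    unfold con
    refine Finset.sum_congr rfl fun x _ => ?_
    congr 1
    refine Finset.sum_congr rfl fun y _ => ?_
    rw [fill_pair, fill_restrict hpk, fill_restrict hpk]
  have h4 := h2 I
  have h5 := h2 (fun l => I (swap p k l))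
  rw [h3]
  simp only [Fin.sum_univ_two] at h1 h4 h5 ⊢
  linear_combination h1 + h4 - h5

/-- The relation for a sum of transpositions. -/
theorem rel_swap (F : (κ → R4) → ℂ) (hF : F ∈ Inv2 κ) (p : κ) (I : κ → R4) :
    ∑ k ∈ Finset.univ.erase p, F (fun l => I (swap p k l)) + 3 * F I =
      ∑ k ∈ Finset.univ.erase p, JJ rv j2 (I p).1 (I k).1 * JJ rv j2 (I p).2 (I k).2 *
        con p k F (fun l => I l) := by
  obtain ⟨a, b, hI⟩ : ∃ a b : κ → Fin 2, I = fun l => (a l, b l) :=
    ⟨fun l => (I l).1, fun l => (I l).2, rfl⟩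
  subst hI
  have h1 := sum_swap _ (hF.1 b) p a
  have h2 := sum_swap _ (hF.2 a) p b
  have h3 : ∀ k ∈ Finset.univ.erase p, JJ rv j2 (a p) (a k) * JJ rv j2 (b p) (b k) *
      con p k F (fun l => (a l, b l)) = F (fun l => (a l, b l)) -
      F (fun l => (a (swap p k l), b l)) - F (fun l => (a l, b (swap p k l))) +
      F (fun l => (a (swap p k l), b (swap p k l))) := fun k hk =>
    (con_eq (Finset.ne_of_mem_erase hk).symm F a b).symm
  rw [Finset.sum_congr rfl h3, Finset.sum_add_distrib, Finset.sum_sub_distrib,
    Finset.sum_sub_distrib, h1, h2, Finset.sum_const, Finset.card_erase_of_mem (Finset.mem_univ p),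
    Finset.card_univ, nsmul_eq_mul, Nat.cast_sub (Fintype.card_pos_iff.2 ⟨p⟩)]
  push_cast
  ring

end inv

section alt

/-- The enumeration of the indices. -/
def r4 (i : Fin 4) : R4 := ![(0, 0), (0, 1), (1, 0), (1, 1)] i

theorem r4_inj : Function.Injective r4 := by decide

/-- The determinant. -/
def D4 (I : Fin 4 → R4) : ℂ := Matrix.det (Matrix.of fun k j => if I k = r4 j then (1 : ℂ) else 0)

theorem D4_perm (σ : Perm (Fin 4)) (I : Fin 4 → R4) :
    D4 (fun k => I (σ k)) = ((Perm.sign σ : ℤ) : ℂ) * D4 I :=
  Matrix.det_permute σ (Matrix.of fun k j => if I k = r4 j then (1 : ℂ) else 0)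

theorem D4_r4 : D4 r4 = 1 := by
  have h1 : (Matrix.of fun k j => if r4 k = r4 j then (1 : ℂ) else 0) =
      (1 : Matrix (Fin 4) (Fin 4) ℂ) := by
    ext k j
    rw [Matrix.of_apply, Matrix.one_apply]
    by_cases h : k = j
    · rw [if_pos h, if_pos (congrArg r4 h)]
    · rw [if_neg h, if_neg (fun h2 => h (r4_inj h2))]
  unfold D4
  rw [h1, Matrix.det_one]

variable {n : Type} [Fintype n] [DecidableEq n]

theorem alt_perm {R : Type} (g : (n → R) → ℂ) (hg : ∀ I p q, p ≠ q → g (fun l => I (swap p q l)) = -g I)
    (σ : Perm n) : ∀ I, g (fun k => I (σ k)) = ((Perm.sign σ : ℤ) : ℂ) * g I := by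
  induction σ using Perm.swap_induction_on with
  | one =>
    intro I
    simp
  | swap_mul f x y hxy ih =>
    intro I
    have h1 := ih (fun l => I (swap x y l))
    have h2 : (fun k => I ((swap x y * f) k)) = fun k => (fun l => I (swap x y l)) (f k) := rfl
    rw [h2, h1, hg I x y hxy, Perm.sign_mul, Perm.sign_swap hxy]
    push_cast
    ring

theorem alt_zero {R : Type} (g : (n → R) → ℂ)
    (hg : ∀ I p q, p ≠ q → g (fun l => I (swap p q l)) = -g I) (I : n → R)
    (hI : ¬ Function.Injective I) : g I = 0 := by
  simp only [Function.Injective, not_forall] at hI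
  obtain ⟨p, q, hpq, hne⟩ := hI
  have h1 := hg I p q hne
  have h2 : (fun l => I (swap p q l)) = I := by
    funext l
    by_cases h3 : l = p
    · rw [h3, swap_apply_left, hpq]
    · by_cases h4 : l = q
      · rw [h4, swap_apply_right, hpq]
      · rw [swap_apply_of_ne_of_ne h3 h4]
  rw [h2] at h1
  linear_combination (1 / 2 : ℂ) * h1

theorem D4_swap (I : Fin 4 → R4) (p q : Fin 4) (h : p ≠ q) :
    D4 (fun l => I (swap p q l)) = -D4 I := by
  rw [D4_perm, Perm.sign_swap h]
  push_cast
  ring

/-- Alternating functions of four indices. -/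
theorem alt_eq (g : (Fin 4 → R4) → ℂ)
    (hg : ∀ I p q, p ≠ q → g (fun l => I (swap p q l)) = -g I) (I : Fin 4 → R4) :
    g I = D4 I * g r4 := by
  by_cases hI : Function.Injective I
  · have h4 : Function.Bijective r4 := by
      rw [Fintype.bijective_iff_injective_and_card]
      exact ⟨r4_inj, by simp⟩
    have h5 : Function.Bijective I := by
      rw [Fintype.bijective_iff_injective_and_card]
      exact ⟨hI, by simp⟩
    let σ : Perm (Fin 4) := (Equiv.ofBijective I h5).trans (Equiv.ofBijective r4 h4).symm
    have h6 : I = fun k => r4 (σ k) := by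
      funext k
      exact ((Equiv.ofBijective r4 h4).apply_symm_apply (I k)).symm
    rw [h6, alt_perm g hg σ, D4_perm, D4_r4, mul_one]
  · rw [alt_zero g hg I hI, alt_zero D4 D4_swap I hI, zero_mul]

theorem D4_update (i : Fin 4) (r : R4) :
    D4 (Function.update r4 i r) = if r = r4 i then 1 else 0 := by
  by_cases h : r = r4 i
  · rw [if_pos h, h, Function.update_eq_self, D4_r4]
  · rw [if_neg h]
    have h4 : Function.Surjective r4 := by decide
    obtain ⟨i', hi'⟩ := h4 r
    have hne : i' ≠ i := by
      rintro rfl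
      exact h hi'.symm
    refine alt_zero D4 D4_swap _ fun hinj => hne (hinj ?_)
    rw [Function.update_self, Function.update_of_ne hne, hi']

end alt

section main

/-- The quadratic form. -/
def Q2 (I : Fin 2 → R4) : ℂ := JJ rv j2 (I 0).1 (I 1).1 * JJ rv j2 (I 0).2 (I 1).2

theorem Q2_mem : Q2 ∈ Inv2 (Fin 2) := by
  refine ⟨fun J b c I => ?_, fun J b c I => ?_⟩
  · rw [Fin.sum_univ_two]
    simp only [Q2, Function.update_self]
    rw [Function.update_of_ne (by decide), Function.update_of_ne (by decide),
      Function.update_of_ne (by decide), Function.update_of_ne (by decide)]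
    generalize I 0 = x
    generalize I 1 = y
    generalize J 0 = z
    generalize J 1 = w
    fin_cases b <;> fin_cases c <;> fin_cases x <;> fin_cases y <;> simp [JJ, j2, rv] <;>
      (split_ifs <;> ring)
  · rw [Fin.sum_univ_two]
    simp only [Q2, Function.update_self]
    rw [Function.update_of_ne (by decide), Function.update_of_ne (by decide),
      Function.update_of_ne (by decide), Function.update_of_ne (by decide)]
    generalize I 0 = x
    generalize I 1 = y
    generalize J 0 = z
    generalize J 1 = w
    fin_cases b <;> fin_cases c <;> fin_cases x <;> fin_cases y <;> simp [JJ, j2, rv] <;>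
      (split_ifs <;> ring)

theorem D4_sum1 (b c : Fin 2) : ∑ i, (JJ rv j2 b (r4 i).1 * D4 (Function.update r4 i (c, (r4 i).2)) +
    JJ rv j2 c (r4 i).1 * D4 (Function.update r4 i (b, (r4 i).2))) = 0 := by
  simp only [D4_update, Fin.sum_univ_four]
  fin_cases b <;> fin_cases c <;> simp [JJ, j2, rv, r4]

theorem D4_sum2 (b c : Fin 2) : ∑ i, (JJ rv j2 b (r4 i).2 * D4 (Function.update r4 i ((r4 i).1, c)) +
    JJ rv j2 c (r4 i).2 * D4 (Function.update r4 i ((r4 i).1, b))) = 0 := by
  simp only [D4_update, Fin.sum_univ_four]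
  fin_cases b <;> fin_cases c <;> simp [JJ, j2, rv, r4]

variable {κ : Type} [Fintype κ] [DecidableEq κ] {rest : Type} [Fintype rest] [DecidableEq rest]

/-- Alternating invariants of four variables split off the determinant. -/
theorem split4 (e : Fin 4 ⊕ rest ≃ κ) (y : (κ → R4) → ℂ) (hy : y ∈ Inv2 κ)
    (ha : ∀ I (p q : Fin 4), p ≠ q →
      y (fun l => I (swap (e (Sum.inl p)) (e (Sum.inl q)) l)) = -y I) :
    ∃ y' ∈ Inv2 rest, ∀ I, y I = D4 (fun k => I (e (Sum.inl k))) * y' (fun k => I (e (Sum.inr k))) := by
  let cb : (Fin 4 → R4) → (rest → R4) → κ → R4 := fun a K k => Sum.elim a K (e.symm k)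
  have hcb : ∀ I : κ → R4, I = cb (fun k => I (e (Sum.inl k))) (fun k => I (e (Sum.inr k))) := by
    intro I
    funext k
    obtain ⟨x, rfl⟩ := e.surjective k
    change _ = Sum.elim _ _ (e.symm (e x))
    rw [e.symm_apply_apply]
    rcases x with x | x <;> rfl
  have hl : ∀ a K i, cb a K (e (Sum.inl i)) = a i := by
    intro a K i
    change Sum.elim _ _ (e.symm (e _)) = _
    rw [e.symm_apply_apply]
    rfl
  have hr : ∀ a K i, cb a K (e (Sum.inr i)) = K i := by
    intro a K i
    change Sum.elim _ _ (e.symm (e _)) = _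
    rw [e.symm_apply_apply]
    rfl
  have key : ∀ a K, y (cb a K) = D4 a * y (cb r4 K) := by
    intro a K
    refine alt_eq (fun a => y (cb a K)) (fun a p q hpq => ?_) a
    rw [← ha _ p q hpq]
    congr 1
    funext k
    obtain ⟨x, rfl⟩ := e.surjective k
    rcases x with x | x
    · rw [hl]
      by_cases h1 : x = p
      · rw [h1, swap_apply_left, swap_apply_left, hl]
      · by_cases h2 : x = q
        · rw [h2, swap_apply_right, swap_apply_right, hl]
        · rw [swap_apply_of_ne_of_ne h1 h2, swap_apply_of_ne_of_ne, hl]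
          · exact fun h => h1 (Sum.inl_injective (e.injective h))
          · exact fun h => h2 (Sum.inl_injective (e.injective h))
    · rw [hr, swap_apply_of_ne_of_ne, hr]
      · exact fun h => Sum.inr_ne_inl (e.injective h)
      · exact fun h => Sum.inr_ne_inl (e.injective h)
  refine ⟨fun K => y (cb r4 K), ⟨fun J b c I => ?_, fun I b c J => ?_⟩, fun I => ?_⟩
  · have h1 := hy.1 (fun k => (cb r4 (fun l => (I l, J l)) k).2) b c
      (fun k => (cb r4 (fun l => (I l, J l)) k).1)
    rw [← Equiv.sum_comp e, Fintype.sum_sum_type] at h1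
    have h2 : ∀ (i : Fin 4) (c : Fin 2), y (fun k => (Function.update (fun k =>
        (cb r4 (fun l => (I l, J l)) k).1) (e (Sum.inl i)) c k,
          (cb r4 (fun l => (I l, J l)) k).2)) = D4 (Function.update r4 i (c, (r4 i).2)) *
        y (cb r4 (fun l => (I l, J l))) := by
      intro i c
      rw [← key]
      congr 1
      funext k
      obtain ⟨x, rfl⟩ := e.surjective k
      rcases x with x | x
      · rw [hl, hl]
        by_cases hx : x = i
        · subst hx
          rw [Function.update_self, Function.update_self]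
        · rw [Function.update_of_ne hx, Function.update_of_ne, hl]
          exact fun h => hx (Sum.inl_injective (e.injective h))
      · rw [hr, hr, Function.update_of_ne, hr]
        exact fun h => Sum.inr_ne_inl (e.injective h)
    have h3 : ∀ (i : rest) (c : Fin 2), y (fun k => (Function.update (fun k =>
        (cb r4 (fun l => (I l, J l)) k).1) (e (Sum.inr i)) c k,
          (cb r4 (fun l => (I l, J l)) k).2)) =
        y (cb r4 (fun l => (Function.update I i c l, J l))) := by
      intro i c
      congr 1
      funext k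
      obtain ⟨x, rfl⟩ := e.surjective k
      rcases x with x | x
      · rw [hl, hl, Function.update_of_ne, hl]
        exact fun h => Sum.inl_ne_inr (e.injective h)
      · rw [hr, hr]
        by_cases hx : x = i
        · subst hx
          rw [Function.update_self, Function.update_self]
        · rw [Function.update_of_ne hx, Function.update_of_ne, hr]
          exact fun h => hx (Sum.inr_injective (e.injective h))
    simp only [h2, h3, hl, hr] at h1
    have h4 : ∑ i, (JJ rv j2 b (r4 i).1 * (D4 (Function.update r4 i (c, (r4 i).2)) *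
        y (cb r4 (fun l => (I l, J l)))) + JJ rv j2 c (r4 i).1 *
        (D4 (Function.update r4 i (b, (r4 i).2)) * y (cb r4 (fun l => (I l, J l))))) = 0 := by
      have h5 := congrArg (fun z => z * y (cb r4 (fun l => (I l, J l)))) (D4_sum1 b c)
      simp only [zero_mul, Finset.sum_mul] at h5
      rw [← h5]
      refine Finset.sum_congr rfl fun i _ => by ring
    rw [h4, zero_add] at h1
    exact h1
  · have h1 := hy.2 (fun k => (cb r4 (fun l => (I l, J l)) k).1) b c
      (fun k => (cb r4 (fun l => (I l, J l)) k).2)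
    rw [← Equiv.sum_comp e, Fintype.sum_sum_type] at h1
    have h2 : ∀ (i : Fin 4) (c : Fin 2), y (fun k => ((cb r4 (fun l => (I l, J l)) k).1,
        Function.update (fun k => (cb r4 (fun l => (I l, J l)) k).2) (e (Sum.inl i)) c k)) =
        D4 (Function.update r4 i ((r4 i).1, c)) * y (cb r4 (fun l => (I l, J l))) := by
      intro i c
      rw [← key]
      congr 1
      funext k
      obtain ⟨x, rfl⟩ := e.surjective k
      rcases x with x | x
      · rw [hl, hl]
        by_cases hx : x = i
        · subst hx
          rw [Function.update_self, Function.update_self]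
        · rw [Function.update_of_ne hx, Function.update_of_ne, hl]
          exact fun h => hx (Sum.inl_injective (e.injective h))
      · rw [hr, hr, Function.update_of_ne, hr]
        exact fun h => Sum.inr_ne_inl (e.injective h)
    have h3 : ∀ (i : rest) (c : Fin 2), y (fun k => ((cb r4 (fun l => (I l, J l)) k).1,
        Function.update (fun k => (cb r4 (fun l => (I l, J l)) k).2) (e (Sum.inr i)) c k)) =
        y (cb r4 (fun l => (I l, Function.update J i c l))) := by
      intro i c
      congr 1
      funext k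
      obtain ⟨x, rfl⟩ := e.surjective k
      rcases x with x | x
      · rw [hl, hl, Function.update_of_ne, hl]
        exact fun h => Sum.inl_ne_inr (e.injective h)
      · rw [hr, hr]
        by_cases hx : x = i
        · subst hx
          rw [Function.update_self, Function.update_self]
        · rw [Function.update_of_ne hx, Function.update_of_ne, hr]
          exact fun h => hx (Sum.inr_injective (e.injective h))
    simp only [h2, h3, hl, hr] at h1
    have h4 : ∑ i, (JJ rv j2 b (r4 i).2 * (D4 (Function.update r4 i ((r4 i).1, c)) *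
        y (cb r4 (fun l => (I l, J l)))) + JJ rv j2 c (r4 i).2 *
        (D4 (Function.update r4 i ((r4 i).1, b)) * y (cb r4 (fun l => (I l, J l))))) = 0 := by
      have h5 := congrArg (fun z => z * y (cb r4 (fun l => (I l, J l)))) (D4_sum2 b c)
      simp only [zero_mul, Finset.sum_mul] at h5
      rw [← h5]
      refine Finset.sum_congr rfl fun i _ => by ring
    rw [h4, zero_add] at h1
    exact h1
  · conv_lhs => rw [hcb I]
    exact key _ _

variable (N : ∀ (κ : Type) [Finite κ], Submodule ℂ ((κ → R4) → ℂ))
  (hu : ∀ (κ : Type) [Finite κ] [IsEmpty κ] (F : (κ → R4) → ℂ), F ∈ N κ)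
  (hm : ∀ (κ κ' κ'' : Type) [Finite κ] [Finite κ'] [Finite κ''] (e : κ ⊕ κ' ≃ κ'')
    (φ : (κ → R4) → ℂ) (φ' : (κ' → R4) → ℂ) (ψ : (κ'' → R4) → ℂ), φ ∈ N κ → φ' ∈ N κ' →
    (∀ I, ψ I = φ (fun k => I (e (Sum.inl k))) * φ' (fun k => I (e (Sum.inr k)))) → ψ ∈ N κ'')
  (hq : Q2 ∈ N (Fin 2)) (hd : D4 ∈ N (Fin 4))

include hu hm hq hd in
/-- **First fundamental theorem**: the invariants are generated by the quadratic form and the
determinant. -/
theorem inv2_le (n : ℕ) : ∀ (κ : Type) [Fintype κ] [DecidableEq κ], Fintype.card κ = n →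
    Inv2 κ ≤ N κ := by
  induction n using Nat.strong_induction_on with
  | _ n ih =>
  intro κ _ _ hn
  rcases isEmpty_or_nonempty κ with h0 | ⟨⟨p₀⟩⟩
  · exact fun F _ => hu κ F
  have hst : ∀ (σ : Perm κ), ∀ F ∈ Inv2 κ, (pact κ : Representation ℂ (Perm κ) ((κ → R4) → ℂ)) σ F ∈
      Inv2 κ := fun σ F hF => Inv2_stable σ F hF
  refine le_of_anti' (Ω := ℂ) (X := (κ → R4) → ℂ) (pact κ) (Inv2 κ) (N κ) hst 3 3 le_rfl ?_ ?_ p₀
  · intro F hF p
    have h1 : ∑ k ∈ Finset.univ.erase p, pact κ (swap p k) F + ((3 : ℕ) : ℂ) • F =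
        ∑ k ∈ Finset.univ.erase p, fun I : κ → R4 => JJ rv j2 (I p).1 (I k).1 *
          JJ rv j2 (I p).2 (I k).2 * con p k F (fun l => I l) := by
      funext I
      rw [Pi.add_apply, Finset.sum_apply, Finset.sum_apply, Pi.smul_apply, smul_eq_mul,
        ← rel_swap F hF p I]
      rfl
    rw [h1]
    refine Submodule.sum_mem _ fun k hk => ?_
    have hpk := (Finset.ne_of_mem_erase hk).symm
    have hcard : Fintype.card {l // l ≠ p ∧ l ≠ k} = n - 2 := by
      have h3 : Fintype.card {l // l ≠ p ∧ l ≠ k} = ((Finset.univ.erase p).erase k).card := by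
        rw [Fintype.card_subtype]
        congr 1
        ext l
        simp [and_comm]
      rw [h3, Finset.card_erase_of_mem (by simp [hpk.symm]), Finset.card_erase_of_mem
        (Finset.mem_univ _), Finset.card_univ, hn]
      omega
    have h2 : 2 ≤ Fintype.card κ := Fintype.one_lt_card_iff.2 ⟨p, k, hpk⟩
    have h3 := ih (n - 2) (by omega) {l // l ≠ p ∧ l ≠ k} hcard (con_mem hpk F hF)
    let f : Fin 2 ⊕ {l // l ≠ p ∧ l ≠ k} → κ := Sum.elim ![p, k] Subtype.val
    have hf : Function.Bijective f := by
      constructor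
      · rintro (x | x) (y | y) h
        · congr 1
          fin_cases x <;> fin_cases y
          · rfl
          · exact absurd h hpk
          · exact absurd h.symm hpk
          · rfl
        · exfalso
          fin_cases x
          · exact y.2.1 h.symm
          · exact y.2.2 h.symm
        · exfalso
          fin_cases y
          · exact x.2.1 h
          · exact x.2.2 h
        · exact congrArg Sum.inr (Subtype.ext h)
      · intro l
        by_cases h4 : l = p
        · exact ⟨Sum.inl 0, h4.symm⟩
        · by_cases h5 : l = k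
          · exact ⟨Sum.inl 1, h5.symm⟩
          · exact ⟨Sum.inr ⟨l, h4, h5⟩, rfl⟩
    refine hm (Fin 2) {l // l ≠ p ∧ l ≠ k} κ (Equiv.ofBijective f hf) Q2 (con p k F)
      (fun I : κ → R4 => JJ rv j2 (I p).1 (I k).1 *
          JJ rv j2 (I p).2 (I k).2 * con p k F (fun l => I l)) hq h3 fun I => ?_
    have e0 : (Equiv.ofBijective f hf) (Sum.inl 0) = p := rfl
    have e1 : (Equiv.ofBijective f hf) (Sum.inl 1) = k := rfl
    have e2 : ∀ l, (Equiv.ofBijective f hf) (Sum.inr l) = l.1 := fun l => rfl
    unfold Q2
    simp only [e0, e1, e2]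
  · intro A hA F hF
    have hy : anti (pact κ) A F ∈ Inv2 κ :=
      Submodule.sum_mem _ fun σ _ => Submodule.smul_mem _ _ (Inv2_stable σ F hF)
    let e0 : Fin 4 ≃ {k // k ∈ A} := (A.equivFinOfCardEq hA).symm
    let e : Fin 4 ⊕ {k // k ∉ A} ≃ κ :=
      (Equiv.sumCongr e0 (Equiv.refl _)).trans (Equiv.sumCompl (· ∈ A))
    have he : ∀ p, e (Sum.inl p) = (e0 p : κ) := fun p => rfl
    obtain ⟨y', hy', h1⟩ := split4 e _ hy fun I p q hpq => by
      have h2 := congrFun (anti_swap (pact κ) A F (e0 p).2 (e0 q).2 (fun h =>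
        hpq (e0.injective (Subtype.ext h)))) I
      exact h2
    have hcard : Fintype.card {k // k ∉ A} = n - 4 := by
      rw [Fintype.card_subtype_compl, Fintype.card_coe, hA, hn]
    have h4 : 4 ≤ n := by
      have h5 := Finset.card_le_univ A
      omega
    have h3 := ih (n - 4) (by omega) {k // k ∉ A} hcard hy'
    exact hm _ _ _ e D4 y' _ hd h3 h1

end main

end

end Pool.Agent.L5helper19.TT
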