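import Mathlib
import Pool.Agent.Y90.Ppav

/-!
# Tensor products of two representations of dimension two
-/

set_option linter.unusedSectionVars false

namespace Pool.Agent.L5helper19.TT

open Matrix Module Pool.Agent.Y90

noncomputable section

variable {B : Type} [Fintype B] [DecidableEq B]

/-- The operator `X` acts as `a ⊗ 1 + 1 ⊗ c` on the span of the vectors `bb i j`. -/
def Ten (bb : Fin 2 → Fin 2 → B → ℂ) (X : Matrix B B ℂ) (a c : Matrix (Fin 2) (Fin 2) ℂ) : Prop :=
  ∀ i j, X *ᵥ bb i j = ∑ k, a k i • bb k j + ∑ l, c l j • bb i l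

/-- Traceless matrices. -/
def Tl (a : Matrix (Fin 2) (Fin 2) ℂ) : Prop := a 1 1 = -a 0 0

variable {bb : Fin 2 → Fin 2 → B → ℂ} {X Y : Matrix B B ℂ} {a c a' c' : Matrix (Fin 2) (Fin 2) ℂ}

theorem Ten.add (h : Ten bb X a c) (h' : Ten bb Y a' c') : Ten bb (X + Y) (a + a') (c + c') := by
  intro i j
  rw [add_mulVec, h, h']
  simp only [Fin.sum_univ_two, Matrix.add_apply]
  module

theorem Ten.smul (z : ℂ) (h : Ten bb X a c) : Ten bb (z • X) (z • a) (z • c) := by
  intro i j
  rw [smul_mulVec, h]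
  simp only [Fin.sum_univ_two, Matrix.smul_apply, smul_eq_mul]
  module

theorem Ten.zero : Ten bb 0 0 0 := by
  intro i j
  simp

theorem Ten.br (h : Ten bb X a c) (h' : Ten bb Y a' c') :
    Ten bb (X * Y - Y * X) (a * a' - a' * a) (c * c' - c' * c) := by
  intro i j
  rw [sub_mulVec, ← mulVec_mulVec, ← mulVec_mulVec, h', h]
  simp only [Fin.sum_univ_two, Matrix.sub_apply, Matrix.mul_apply, mulVec_add, mulVec_smul]
  rw [h, h, h, h, h', h', h', h']
  simp only [Fin.sum_univ_two]
  module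

theorem Ten.flip (h : Ten bb X a c) : Ten (fun i j => bb j i) X c a := by
  intro i j
  rw [h]
  exact add_comm _ _

/-- The vectors are a basis of the submodule. -/
structure Bs (W : Submodule ℂ (B → ℂ)) (bb : Fin 2 → Fin 2 → B → ℂ) : Prop where
  mem : ∀ i j, bb i j ∈ W
  spn : ∀ w ∈ W, ∃ c : Fin 2 → Fin 2 → ℂ, w = ∑ i, ∑ j, c i j • bb i j
  ind : ∀ c : Fin 2 → Fin 2 → ℂ, ∑ i, ∑ j, c i j • bb i j = 0 → ∀ i j, c i j = 0

theorem Bs.flip {W : Submodule ℂ (B → ℂ)} (h : Bs W bb) : Bs W (fun i j => bb j i) where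
  mem i j := h.mem j i
  spn w hw := by
    obtain ⟨c, hc⟩ := h.spn w hw
    exact ⟨fun i j => c j i, by rw [hc, Finset.sum_comm]⟩
  ind c hc i j := by
    rw [Finset.sum_comm] at hc
    exact h.ind (fun i j => c j i) hc j i

variable {W : Submodule ℂ (B → ℂ)} (hb : Bs W bb)
include hb

/-- The coefficients are determined. -/
theorem Bs.coef (h : Ten bb X a c) (i j : Fin 2) {w : Fin 2 → Fin 2 → ℂ}
    (hw : X *ᵥ bb i j = ∑ k, ∑ l, w k l • bb k l) (k l : Fin 2) :
    (if l = j then a k i else 0) + (if k = i then c l j else 0) = w k l := by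
  rw [h] at hw
  have h1 := hb.ind (fun k l => (if l = j then a k i else 0) + (if k = i then c l j else 0) -
    w k l) (by
      rw [← sub_eq_zero] at hw
      rw [← hw]
      simp only [Fin.sum_univ_two]
      fin_cases i <;> fin_cases j <;>
      simp only [Fin.zero_eta, Fin.mk_one, Fin.isValue, if_true, zero_ne_one, one_ne_zero,
        if_false] <;> module) k l
  exact sub_eq_zero.1 h1

/-- The action determines the two factors. -/
theorem Bs.unique (h : Ten bb X a c) (h' : Ten bb X a' c') (ha : Tl a) (hc : Tl c) (ha' : Tl a')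
    (hc' : Tl c') : a = a' ∧ c = c' := by
  have key : ∀ i j k l, (if l = j then a k i else 0) + (if k = i then c l j else 0) =
      (if l = j then a' k i else 0) + (if k = i then c' l j else 0) := by
    intro i j k l
    obtain ⟨w, hw⟩ : ∃ w : Fin 2 → Fin 2 → ℂ, X *ᵥ bb i j = ∑ k, ∑ l, w k l • bb k l := by
      apply hb.spn
      rw [h]
      exact W.add_mem (W.sum_mem fun k _ => W.smul_mem _ (hb.mem _ _))
        (W.sum_mem fun l _ => W.smul_mem _ (hb.mem _ _))
    rw [hb.coef h i j hw k l, hb.coef h' i j hw k l]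
  have e1 := key 0 0 0 0
  have e2 := key 0 0 1 0
  have e3 := key 0 0 0 1
  have e4 := key 1 0 0 0
  have e5 := key 0 1 0 0
  have e6 := key 0 1 0 1
  simp only [Fin.isValue, if_true, zero_ne_one, one_ne_zero, if_false] at e1 e2 e3 e4 e5 e6
  unfold Tl at ha hc ha' hc'
  constructor
  · ext i j
    fin_cases i <;> fin_cases j
    · change a 0 0 = a' 0 0
      linear_combination (1 / 2 : ℂ) * e1 + (1 / 2 : ℂ) * e6 - (1 / 2 : ℂ) * hc + (1 / 2 : ℂ) * hc'
    · change a 0 1 = a' 0 1
      linear_combination e4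
    · change a 1 0 = a' 1 0
      linear_combination e2
    · change a 1 1 = a' 1 1
      linear_combination ha - ha' - (1 / 2 : ℂ) * e1 - (1 / 2 : ℂ) * e6 + (1 / 2 : ℂ) * hc -
        (1 / 2 : ℂ) * hc'
  · ext i j
    fin_cases i <;> fin_cases j
    · change c 0 0 = c' 0 0
      linear_combination (1 / 2 : ℂ) * e1 - (1 / 2 : ℂ) * e6 + (1 / 2 : ℂ) * hc - (1 / 2 : ℂ) * hc'
    · change c 0 1 = c' 0 1
      linear_combination e5
    · change c 1 0 = c' 1 0
      linear_combination e3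
    · change c 1 1 = c' 1 1
      linear_combination (1 / 2 : ℂ) * e6 - (1 / 2 : ℂ) * e1 + (1 / 2 : ℂ) * hc - (1 / 2 : ℂ) * hc'

/-- Involutions. -/
theorem Bs.invol (h : Ten bb X a c) (ha : Tl a) (hc : Tl c) (hX : X * X = 1) : a = 0 ∨ c = 0 := by
  have h1 : ∀ i j, X *ᵥ (X *ᵥ bb i j) = bb i j := fun i j => by
    rw [mulVec_mulVec, hX, one_mulVec]
  unfold Tl at ha hc
  have key : ∀ i j k l, (if l = j then (a * a) k i else 0) + (if k = i then (c * c) l j else 0) +
      2 * (a k i * c l j) - (if k = i then (if l = j then 1 else 0) else 0) = 0 := by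
    intro i j
    refine hb.ind (fun k l => (if l = j then (a * a) k i else 0) +
      (if k = i then (c * c) l j else 0) +
      2 * (a k i * c l j) - (if k = i then (if l = j then 1 else 0) else 0)) ?_
    have h2 := h1 i j
    rw [h] at h2
    simp only [Fin.sum_univ_two, mulVec_add, mulVec_smul] at h2
    rw [h, h, h, h] at h2
    rw [← sub_eq_zero] at h2
    rw [← h2]
    simp only [Fin.sum_univ_two, Matrix.mul_apply]
    fin_cases i <;> fin_cases j <;>
      simp only [Fin.zero_eta, Fin.mk_one, Fin.isValue, if_true, zero_ne_one, one_ne_zero,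
        if_false] <;> module
  have hz : ∀ k i l j, a k i * c l j = 0 := by
    have e1 := key 0 0 0 0
    have e2 := key 1 0 1 0
    have e3 := key 0 0 0 1
    have e4 := key 0 0 1 0
    have e5 := key 0 0 1 1
    have e6 := key 0 1 0 0
    have e7 := key 0 1 1 0
    have e8 := key 0 1 1 1
    have e9 := key 1 0 0 0
    have e10 := key 1 0 0 1
    have e11 := key 1 1 0 0
    have e12 := key 1 1 0 1
    simp only [Fin.isValue, if_true, zero_ne_one, one_ne_zero, if_false, Matrix.mul_apply,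
      Fin.sum_univ_two, ha, hc] at e1 e2 e3 e4 e5 e6 e7 e8 e9 e10 e11 e12
    have g00 : a 0 0 * c 0 0 = 0 := by linear_combination (1 / 4 : ℂ) * e1 - (1 / 4 : ℂ) * e2
    have g1 : a 0 0 * c 1 0 = 0 := by linear_combination (1 / 2 : ℂ) * e3
    have g2 : a 1 0 * c 0 0 = 0 := by linear_combination (1 / 2 : ℂ) * e4
    have g3 : a 1 0 * c 1 0 = 0 := by linear_combination (1 / 2 : ℂ) * e5
    have g4 : a 0 0 * c 0 1 = 0 := by linear_combination (1 / 2 : ℂ) * e6
    have g5 : a 1 0 * c 0 1 = 0 := by linear_combination (1 / 2 : ℂ) * e7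
    have g6 : a 0 1 * c 0 0 = 0 := by linear_combination (1 / 2 : ℂ) * e9
    have g7 : a 0 1 * c 1 0 = 0 := by linear_combination (1 / 2 : ℂ) * e10
    have g8 : a 0 1 * c 0 1 = 0 := by linear_combination (1 / 2 : ℂ) * e11
    intro k i l j
    fin_cases k <;> fin_cases i <;> fin_cases l <;> fin_cases j <;>
      simp only [Fin.zero_eta, Fin.mk_one, Fin.isValue, ha, hc, g00, g1, g2, g3, g4, g5, g6, g7,
        g8, neg_mul, mul_neg, neg_zero, neg_neg]
  by_cases hc0 : c = 0
  · exact Or.inr hc0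
  · left
    obtain ⟨l, j, hlj⟩ : ∃ l j, c l j ≠ 0 := by
      by_contra hcon
      push Not at hcon
      exact hc0 (Matrix.ext hcon)
    ext k i
    exact (mul_eq_zero.1 (hz k i l j)).resolve_right hlj


/-- The span of a slice. -/
theorem Bs.slice (j : Fin 2) : (∀ i, bb i j ∈ Submodule.span ℂ (Set.range fun i => bb i j)) ∧
    Submodule.span ℂ (Set.range fun i => bb i j) ≤ W ∧
    ∀ i l, l ≠ j → bb i l ∉ Submodule.span ℂ (Set.range fun i => bb i j) := by
  refine ⟨fun i => Submodule.subset_span ⟨i, rfl⟩, ?_, ?_⟩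
  · rw [Submodule.span_le]
    rintro _ ⟨i, rfl⟩
    exact hb.mem i j
  · intro i l hl hmem
    rw [Submodule.mem_span_range_iff_exists_fun] at hmem
    obtain ⟨c, hc⟩ := hmem
    have h1 := hb.ind (fun k m => (if m = j then c k else 0) - (if k = i ∧ m = l then 1 else 0)) (by
      have h2 : ∀ k, ∑ m, ((if m = j then c k else 0) - (if k = i ∧ m = l then 1 else 0) : ℂ) •
          bb k m = c k • bb k j - if k = i then bb k l else 0 := by
        intro k
        simp only [sub_smul, Finset.sum_sub_distrib, ite_smul, zero_smul, one_smul, ite_and]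
        rw [Finset.sum_ite_eq' Finset.univ j, if_pos (Finset.mem_univ _)]
        congr 1
        by_cases hk : k = i
        · simp [hk]
        · simp [hk]
      rw [Finset.sum_congr rfl fun k _ => h2 k, Finset.sum_sub_distrib, hc, Finset.sum_ite_eq',
        if_pos (Finset.mem_univ _), sub_self]) i l
    simp [hl] at h1

omit [Fintype B] [DecidableEq B] hb in
theorem hdec : ∀ j l : Fin 2, l ≠ j → ∀ m : Fin 2, m = j ∨ m = l := by decide

/-- Irreducibility prevents triangular actions. -/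
theorem Bs.exists_ne {L : Submodule ℂ (Matrix B B ℂ)} (hirr : IrS L W)
    (hT : ∀ X ∈ L, ∃ a c, Tl a ∧ Tl c ∧ Ten bb X a c) {j l : Fin 2} (hlj : l ≠ j) :
    ∃ X ∈ L, ∃ a c, Tl a ∧ Tl c ∧ Ten bb X a c ∧ c l j ≠ 0 := by
  by_contra hcon
  push Not at hcon
  obtain ⟨h1, h2, h3⟩ := hb.slice j
  have hl : ∀ m : Fin 2, m = j ∨ m = l := hdec j l hlj
  have hs : Stab L (Submodule.span ℂ (Set.range fun i => bb i j)) := by
    intro X hX v hv
    obtain ⟨a, c, ha, hc, hTX⟩ := hT X hX
    have h0 := hcon X hX a c ha hc hTX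
    induction hv using Submodule.span_induction with
    | mem v hv =>
      obtain ⟨i, rfl⟩ := hv
      change X *ᵥ bb i j ∈ _
      rw [hTX]
      refine Submodule.add_mem _ (Submodule.sum_mem _ fun k _ => Submodule.smul_mem _ _ (h1 k))
        (Submodule.sum_mem _ fun m _ => ?_)
      rcases hl m with rfl | rfl
      · exact Submodule.smul_mem _ _ (h1 i)
      · rw [h0, zero_smul]
        exact Submodule.zero_mem _
    | zero => rw [mulVec_zero]; exact Submodule.zero_mem _
    | add x y _ _ hx hy => rw [mulVec_add]; exact Submodule.add_mem _ hx hy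
    | smul z x _ hx => rw [mulVec_smul]; exact Submodule.smul_mem _ _ hx
  rcases hirr.2.2 _ h2 hs with h4 | h4
  · have h5 : bb 0 j ∈ (⊥ : Submodule ℂ (B → ℂ)) := by
      rw [← h4]
      exact h1 0
    rw [Submodule.mem_bot] at h5
    have h6 := hb.ind (fun k m => if k = 0 ∧ m = j then 1 else 0) (by
      have h7 : ∀ k, ∑ m, ((if k = 0 ∧ m = j then 1 else 0 : ℂ)) • bb k m =
          if k = 0 then bb k j else 0 := by
        intro k
        by_cases hk : k = 0
        · simp [hk]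
        · simp [hk]
      rw [Finset.sum_congr rfl fun k _ => h7 k, Finset.sum_ite_eq', if_pos (Finset.mem_univ _),
        h5]) 0 j
    simp at h6
  · apply h3 0 l hlj
    rw [h4]
    exact hb.mem 0 l

/-- Fullness. -/
theorem Bs.full {L : Submodule ℂ (Matrix B B ℂ)} (hbr : ∀ X ∈ L, ∀ Y ∈ L, X * Y - Y * X ∈ L)
    (hirr : IrS L W) (hT : ∀ X ∈ L, ∃ a c, Tl a ∧ Tl c ∧ Ten bb X a c) {D : Matrix B B ℂ}
    (hD : D ∈ L) (hD' : Ten bb D 0 !![1, 0; 0, -1]) (c : Matrix (Fin 2) (Fin 2) ℂ) (hc : Tl c) :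
    ∃ X ∈ L, Ten bb X 0 c := by
  have key : ∀ X ∈ L, ∀ a c, Ten bb X a c → (∃ Y ∈ L, Ten bb Y 0 !![0, 8 * c 0 1; 0, 0]) ∧
      (∃ Y ∈ L, Ten bb Y 0 !![0, 0; 8 * c 1 0, 0]) := by
    intro X hX a c hXa
    have h1 := hD'.br hXa
    have h2 := hD'.br h1
    have m1 := hbr D hD X hX
    have m2 := hbr D hD _ m1
    have e00 : (!![1, 0; 0, -1] : Matrix (Fin 2) (Fin 2) ℂ) 0 0 = 1 := rfl
    have e01 : (!![1, 0; 0, -1] : Matrix (Fin 2) (Fin 2) ℂ) 0 1 = 0 := rfl
    have e10 : (!![1, 0; 0, -1] : Matrix (Fin 2) (Fin 2) ℂ) 1 0 = 0 := rfl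
    have e11 : (!![1, 0; 0, -1] : Matrix (Fin 2) (Fin 2) ℂ) 1 1 = -1 := rfl
    generalize (!![1, 0; 0, -1] : Matrix (Fin 2) (Fin 2) ℂ) = H at *
    refine ⟨⟨_, L.add_mem m2 (L.smul_mem 2 m1), ?_⟩, ⟨_, L.add_mem m2 (L.smul_mem (-2) m1), ?_⟩⟩
    · have h3 := h2.add (h1.smul 2)
      convert h3 using 1
      · simp
      · ext i j
        fin_cases i <;> fin_cases j <;>
          simp [Matrix.mul_apply, Fin.sum_univ_two, e00, e01, e10, e11] <;> ring
    · have h3 := h2.add (h1.smul (-2))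
      convert h3 using 1
      · simp
      · ext i j
        fin_cases i <;> fin_cases j <;>
          simp [Matrix.mul_apply, Fin.sum_univ_two, e00, e01, e10, e11] <;> ring
  obtain ⟨X, hX, a, d, -, -, hXd, hd0⟩ := hb.exists_ne hirr hT (j := 1) (l := 0) (by decide)
  obtain ⟨X', hX', a', d', -, -, hXd', hd0'⟩ := hb.exists_ne hirr hT (j := 0) (l := 1) (by decide)
  obtain ⟨E, hE, hE'⟩ := (key X hX a d hXd).1
  obtain ⟨F, hF, hF'⟩ := (key X' hX' a' d' hXd').2
  refine ⟨_, L.add_mem (L.add_mem (L.smul_mem (c 0 0) hD)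
    (L.smul_mem (c 0 1 / (8 * d 0 1)) hE)) (L.smul_mem (c 1 0 / (8 * d' 1 0)) hF), ?_⟩
  have h3 := ((hD'.smul (c 0 0)).add (hE'.smul (c 0 1 / (8 * d 0 1)))).add
    (hF'.smul (c 1 0 / (8 * d' 1 0)))
  convert h3 using 1
  · simp
  · unfold Tl at hc
    ext i j
    fin_cases i <;> fin_cases j
    · simp
    · simp
      field_simp
    · simp
      field_simp
    · simp [hc]

end

end Pool.Agent.L5helper19.TT
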