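import Mathlib
import Pool.Agent.L5helper19.TT.Ten

/-!
# The tensor structure of a quadratic space of dimension four
-/

set_option linter.unusedSectionVars false

namespace Pool.Agent.L5helper19.TT

open Matrix Module Pool.Agent.Y90

noncomputable section

variable {B : Type} [Fintype B] [DecidableEq B] {W : Submodule ℂ (B → ℂ)}
  {q : (B → ℂ) →ₗ[ℂ] (B → ℂ) →ₗ[ℂ] ℂ} {e f : Fin 2 → B → ℂ}

/-- A hyperbolic basis. -/
structure Dual (W : Submodule ℂ (B → ℂ)) (q : (B → ℂ) →ₗ[ℂ] (B → ℂ) →ₗ[ℂ] ℂ)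
    (e f : Fin 2 → B → ℂ) : Prop where
  me : ∀ i, e i ∈ W
  mf : ∀ i, f i ∈ W
  sy : ∀ u v, q u v = q v u
  ee : ∀ i j, q (e i) (e j) = 0
  ff : ∀ i j, q (f i) (f j) = 0
  ef : ∀ i j, q (e i) (f j) = if i = j then 1 else 0
  ex : ∀ w ∈ W, w = ∑ i, q w (f i) • e i + ∑ i, q w (e i) • f i

/-- The tensor basis. -/
def bbx (e f : Fin 2 → B → ℂ) : Fin 2 → Fin 2 → B → ℂ :=
  ![![e 0, f 1], ![e 1, -f 0]]

variable (d : Dual W q e f)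
include d

theorem Dual.bs : Bs W (bbx e f) where
  mem i j := by
    fin_cases i <;> fin_cases j
    · exact d.me 0
    · exact d.mf 1
    · exact d.me 1
    · exact W.neg_mem (d.mf 0)
  spn w hw := by
    refine ⟨![![q w (f 0), q w (e 1)], ![q w (f 1), -q w (e 0)]], ?_⟩
    have h1 := d.ex w hw
    rw [Fin.sum_univ_two, Fin.sum_univ_two] at h1
    nth_rewrite 1 [h1]
    rw [Fin.sum_univ_two, Fin.sum_univ_two, Fin.sum_univ_two]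
    change _ = (q w (f 0) • e 0 + q w (e 1) • f 1) + (q w (f 1) • e 1 + (-q w (e 0)) • (-f 0))
    module
  ind c hc := by
    have h1 : c 0 0 • e 0 + c 0 1 • f 1 + (c 1 0 • e 1 + c 1 1 • (-f 0)) = 0 := by
      rw [← hc, Fin.sum_univ_two, Fin.sum_univ_two, Fin.sum_univ_two]
      rfl
    have h2 : ∀ v, q v (c 0 0 • e 0 + c 0 1 • f 1 + (c 1 0 • e 1 + c 1 1 • (-f 0))) = 0 := by
      intro v
      rw [h1, map_zero]
    have f0 := h2 (f 0)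
    have f1 := h2 (f 1)
    have e0 := h2 (e 0)
    have e1 := h2 (e 1)
    simp only [map_add, map_smul, map_neg, smul_eq_mul, d.sy (f _) (e _), d.ee, d.ff, d.ef,
      if_true, zero_ne_one, one_ne_zero, if_false, Fin.isValue] at f0 f1 e0 e1
    intro i j
    fin_cases i <;> fin_cases j
    · change c 0 0 = 0
      linear_combination f0
    · change c 0 1 = 0
      linear_combination e1
    · change c 1 0 = 0
      linear_combination f1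
    · change c 1 1 = 0
      linear_combination -e0

theorem Dual.act {X : Matrix B B ℂ} (hX : ∀ w ∈ W, X *ᵥ w ∈ W)
    (hq : ∀ u v, q (X *ᵥ u) v = -q u (X *ᵥ v)) : ∃ a c, Tl a ∧ Tl c ∧ Ten (bbx e f) X a c := by
  have hE0 := d.ex _ (hX _ (d.me 0))
  have hE1 := d.ex _ (hX _ (d.me 1))
  have hF0 := d.ex _ (hX _ (d.mf 0))
  have hF1 := d.ex _ (hX _ (d.mf 1))
  have q1 : q (X *ᵥ e 0) (e 0) = 0 := by
    have h1 := hq (e 0) (e 0)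
    rw [d.sy (e 0)] at h1
    linear_combination (1 / 2 : ℂ) * h1
  have q2 : q (X *ᵥ e 1) (e 1) = 0 := by
    have h1 := hq (e 1) (e 1)
    rw [d.sy (e 1)] at h1
    linear_combination (1 / 2 : ℂ) * h1
  have q3 : q (X *ᵥ f 0) (f 0) = 0 := by
    have h1 := hq (f 0) (f 0)
    rw [d.sy (f 0)] at h1
    linear_combination (1 / 2 : ℂ) * h1
  have q4 : q (X *ᵥ f 1) (f 1) = 0 := by
    have h1 := hq (f 1) (f 1)
    rw [d.sy (f 1)] at h1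
    linear_combination (1 / 2 : ℂ) * h1
  have q5 : q (X *ᵥ e 1) (e 0) = -q (X *ᵥ e 0) (e 1) := by
    rw [hq, d.sy]
  have q6 : q (X *ᵥ f 1) (f 0) = -q (X *ᵥ f 0) (f 1) := by
    rw [hq, d.sy]
  have q7 : ∀ i j, q (X *ᵥ f i) (e j) = -q (X *ᵥ e j) (f i) := by
    intro i j
    rw [hq, d.sy]
  simp only [Fin.sum_univ_two, q1, q2, q3, q4, q5, q6, q7] at hE0 hE1 hF0 hF1
  refine ⟨!![(q (X *ᵥ e 0) (f 0) - q (X *ᵥ e 1) (f 1)) / 2, q (X *ᵥ e 1) (f 0);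
    q (X *ᵥ e 0) (f 1), -((q (X *ᵥ e 0) (f 0) - q (X *ᵥ e 1) (f 1)) / 2)],
    !![(q (X *ᵥ e 0) (f 0) + q (X *ᵥ e 1) (f 1)) / 2, -q (X *ᵥ f 0) (f 1);
    q (X *ᵥ e 0) (e 1), -((q (X *ᵥ e 0) (f 0) + q (X *ᵥ e 1) (f 1)) / 2)], rfl, rfl, ?_⟩
  intro i j
  rw [Fin.sum_univ_two, Fin.sum_univ_two]
  fin_cases i <;> fin_cases j
  · change X *ᵥ e 0 = (((q (X *ᵥ e 0) (f 0) - q (X *ᵥ e 1) (f 1)) / 2) • e 0 +
      q (X *ᵥ e 0) (f 1) • e 1) + (((q (X *ᵥ e 0) (f 0) + q (X *ᵥ e 1) (f 1)) / 2) • e 0 +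
      q (X *ᵥ e 0) (e 1) • f 1)
    nth_rewrite 1 [hE0]
    module
  · change X *ᵥ f 1 = (((q (X *ᵥ e 0) (f 0) - q (X *ᵥ e 1) (f 1)) / 2) • f 1 +
      q (X *ᵥ e 0) (f 1) • (-f 0)) + ((-q (X *ᵥ f 0) (f 1)) • e 0 +
      (-((q (X *ᵥ e 0) (f 0) + q (X *ᵥ e 1) (f 1)) / 2)) • f 1)
    nth_rewrite 1 [hF1]
    module
  · change X *ᵥ e 1 = (q (X *ᵥ e 1) (f 0) • e 0 +
      (-((q (X *ᵥ e 0) (f 0) - q (X *ᵥ e 1) (f 1)) / 2)) • e 1) +
      (((q (X *ᵥ e 0) (f 0) + q (X *ᵥ e 1) (f 1)) / 2) • e 1 +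
      q (X *ᵥ e 0) (e 1) • (-f 0))
    nth_rewrite 1 [hE1]
    module
  · change X *ᵥ (-f 0) = (q (X *ᵥ e 1) (f 0) • f 1 +
      (-((q (X *ᵥ e 0) (f 0) - q (X *ᵥ e 1) (f 1)) / 2)) • (-f 0)) +
      ((-q (X *ᵥ f 0) (f 1)) • e 1 +
      (-((q (X *ᵥ e 0) (f 0) + q (X *ᵥ e 1) (f 1)) / 2)) • (-f 0))
    rw [mulVec_neg]
    nth_rewrite 1 [hF0]
    module

end

end Pool.Agent.L5helper19.TT
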