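import Mathlib
import Pool.Agent.L5helper19.TT.Comb
import Pool.Agent.L5helper19.TT.Ten

/-!
# Forms with given coefficients
-/

set_option linter.unusedSectionVars false

namespace Pool.Agent.L5helper19.TT

open Matrix Module Pool.Agent.H204R3.SP

noncomputable section

section lin

variable {κ : Type} [Fintype κ] [DecidableEq κ]

theorem JJ_apply (x y : Fin 2) : JJ rv j2 x y = if y = rv x then j2 x else 0 := rfl

/-- The relations for traceless matrices. -/
theorem inv_tl {f : (κ → Fin 2) → ℂ} (hf : f ∈ InvF rv j2 κ) {a : Matrix (Fin 2) (Fin 2) ℂ}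
    (ha : Tl a) (I : κ → Fin 2) :
    ∑ k, ∑ t, a t (I k) * f (Function.update I k t) = 0 := by
  have h00 := hf 0 0 I
  have h11 := hf 1 1 I
  have h01 := hf 0 1 I
  have h1 : ∑ k, ∑ t, a t (I k) * f (Function.update I k t) =
      (a 0 1 / 2) * (∑ k, (JJ rv j2 0 (I k) * f (Function.update I k 0) +
        JJ rv j2 0 (I k) * f (Function.update I k 0))) -
      (a 1 0 / 2) * (∑ k, (JJ rv j2 1 (I k) * f (Function.update I k 1) +
        JJ rv j2 1 (I k) * f (Function.update I k 1))) -
      a 0 0 * (∑ k, (JJ rv j2 0 (I k) * f (Function.update I k 1) +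
        JJ rv j2 1 (I k) * f (Function.update I k 0))) := by
    rw [Finset.mul_sum, Finset.mul_sum, Finset.mul_sum, ← Finset.sum_sub_distrib,
      ← Finset.sum_sub_distrib]
    refine Finset.sum_congr rfl fun k _ => ?_
    unfold Tl at ha
    rw [Fin.sum_univ_two]
    generalize hx : I k = x
    fin_cases x
    · simp [JJ, j2, rv]
      ring
    · simp [JJ, j2, rv, ha]
      ring
  rw [h1, h00, h11, h01]
  ring

/-- Conversely. -/
theorem mem_inv {f : (κ → Fin 2) → ℂ} (hf : ∀ a : Matrix (Fin 2) (Fin 2) ℂ, Tl a →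
    ∀ I : κ → Fin 2, ∑ k, ∑ t, a t (I k) * f (Function.update I k t) = 0) :
    f ∈ InvF rv j2 κ := by
  intro b c I
  have h1 := hf (Matrix.of fun t s => JJ rv j2 b s * (if t = c then 1 else 0) +
    JJ rv j2 c s * (if t = b then 1 else 0)) (by
      unfold Tl
      fin_cases b <;> fin_cases c <;> simp [JJ, j2, rv]) I
  rw [← h1]
  refine Finset.sum_congr rfl fun k _ => ?_
  rw [Fin.sum_univ_two]
  simp only [Matrix.of_apply]
  fin_cases b <;> fin_cases c <;> simp <;> ring

/-- The matrix of the action on the tensor product. -/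
def mm (a c : Matrix (Fin 2) (Fin 2) ℂ) (t r : R4) : ℂ :=
  (if t.2 = r.2 then a t.1 r.1 else 0) + (if t.1 = r.1 then c t.2 r.2 else 0)

theorem mm_sum (a c : Matrix (Fin 2) (Fin 2) ℂ) (r : R4) (f : R4 → ℂ) :
    ∑ t, mm a c t r * f t = ∑ t, a t r.1 * f (t, r.2) + ∑ t, c t r.2 * f (r.1, t) := by
  rw [Fintype.sum_prod_type]
  unfold mm
  simp only [add_mul, ite_mul, zero_mul, Finset.sum_add_distrib]
  congr 1
  · refine Finset.sum_congr rfl fun t _ => ?_
    rw [Finset.sum_ite_eq' Finset.univ r.2, if_pos (Finset.mem_univ _)]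
  · rw [Finset.sum_comm]
    refine Finset.sum_congr rfl fun t _ => ?_
    rw [Finset.sum_ite_eq' Finset.univ r.1, if_pos (Finset.mem_univ _)]

theorem upd_fst (I : κ → R4) (k : κ) (t : Fin 2) : Function.update I k (t, (I k).2) =
    fun l => (Function.update (fun l => (I l).1) k t l, (I l).2) := by
  funext l
  by_cases h : l = k
  · subst h
    rw [Function.update_self, Function.update_self]
  · rw [Function.update_of_ne h, Function.update_of_ne h]

theorem upd_snd (I : κ → R4) (k : κ) (t : Fin 2) : Function.update I k ((I k).1, t) =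
    fun l => ((I l).1, Function.update (fun l => (I l).2) k t l) := by
  funext l
  by_cases h : l = k
  · subst h
    rw [Function.update_self, Function.update_self]
  · rw [Function.update_of_ne h, Function.update_of_ne h]

/-- The relations for the invariants. -/
theorem inv_mm {C : (κ → R4) → ℂ} (hC : C ∈ Inv2 κ) {a c : Matrix (Fin 2) (Fin 2) ℂ}
    (ha : Tl a) (hc : Tl c) (I : κ → R4) :
    ∑ k, ∑ t, mm a c t (I k) * C (Function.update I k t) = 0 := by
  have h1 := inv_tl (hC.1 fun k => (I k).2) ha fun k => (I k).1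
  have h2 := inv_tl (hC.2 fun k => (I k).1) hc fun k => (I k).2
  rw [Finset.sum_congr rfl fun k _ => mm_sum a c (I k) fun t => C (Function.update I k t),
    Finset.sum_add_distrib]
  simp only [upd_fst, upd_snd]
  rw [h1, h2, add_zero]

theorem mem_inv2 {C : (κ → R4) → ℂ}
    (h1 : ∀ a : Matrix (Fin 2) (Fin 2) ℂ, Tl a → ∀ I : κ → R4,
      ∑ k, ∑ t, mm a 0 t (I k) * C (Function.update I k t) = 0)
    (h2 : ∀ c : Matrix (Fin 2) (Fin 2) ℂ, Tl c → ∀ I : κ → R4,
      ∑ k, ∑ t, mm 0 c t (I k) * C (Function.update I k t) = 0) : C ∈ Inv2 κ := by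
  refine ⟨fun J => mem_inv fun a ha I => ?_, fun I => mem_inv fun c hc J => ?_⟩
  · have h3 := h1 a ha fun k => (I k, J k)
    rw [Finset.sum_congr rfl fun k _ => mm_sum a 0 _ fun t => C (Function.update _ k t)] at h3
    simp only [Matrix.zero_apply, zero_mul, Finset.sum_const_zero, add_zero] at h3
    rw [← h3]
    refine Finset.sum_congr rfl fun k _ => Finset.sum_congr rfl fun t _ => ?_
    congr 2
    exact (upd_fst (fun k => (I k, J k)) k t).symm
  · have h3 := h2 c hc fun k => (I k, J k)
    rw [Finset.sum_congr rfl fun k _ => mm_sum 0 c _ fun t => C (Function.update _ k t)] at h3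
    simp only [Matrix.zero_apply, zero_mul, Finset.sum_const_zero, zero_add] at h3
    rw [← h3]
    refine Finset.sum_congr rfl fun k _ => Finset.sum_congr rfl fun t _ => ?_
    congr 2
    exact (upd_snd (fun k => (I k, J k)) k t).symm

end lin

section form

variable {κ R : Type} [Fintype κ] [DecidableEq κ] [Fintype R] {V : Type} [AddCommGroup V]
  [Module ℂ V]

/-- The form with given coefficients. -/
def cform (C : (κ → R) → ℂ) (β : κ → R → (V →ₗ[ℂ] ℂ)) : MultilinearMap ℂ (fun _ : κ => V) ℂ :=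
  ∑ I : κ → R, C I • (MultilinearMap.mkPiAlgebra ℂ κ ℂ).compLinearMap fun k => β k (I k)

theorem cform_apply (C : (κ → R) → ℂ) (β : κ → R → (V →ₗ[ℂ] ℂ)) (v : κ → V) :
    cform C β v = ∑ I : κ → R, C I * ∏ k, β k (I k) (v k) := by
  unfold cform
  rw [_root_.sum_apply]
  rfl

theorem cform_add (C C' : (κ → R) → ℂ) (β : κ → R → (V →ₗ[ℂ] ℂ)) :
    cform (C + C') β = cform C β + cform C' β := by
  unfold cform
  rw [← Finset.sum_add_distrib]
  refine Finset.sum_congr rfl fun I _ => ?_
  rw [Pi.add_apply, add_smul]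

theorem cform_smul (z : ℂ) (C : (κ → R) → ℂ) (β : κ → R → (V →ₗ[ℂ] ℂ)) :
    cform (z • C) β = z • cform C β := by
  unfold cform
  rw [Finset.smul_sum]
  refine Finset.sum_congr rfl fun I _ => ?_
  rw [Pi.smul_apply, smul_assoc]

theorem cform_zero (β : κ → R → (V →ₗ[ℂ] ℂ)) : cform 0 β = 0 := by
  unfold cform
  refine Finset.sum_eq_zero fun I _ => ?_
  rw [Pi.zero_apply, zero_smul]

/-- Products of forms. -/
theorem cform_mul {κ' κ'' : Type} [Fintype κ'] [DecidableEq κ'] [Fintype κ''] [DecidableEq κ'']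
    (e : κ ⊕ κ' ≃ κ'') {φ : (κ → R) → ℂ} {φ' : (κ' → R) → ℂ} {ψ : (κ'' → R) → ℂ}
    (h : ∀ I, ψ I = φ (fun l => I (e (Sum.inl l))) * φ' (fun l => I (e (Sum.inr l))))
    (β : κ'' → R → (V →ₗ[ℂ] ℂ)) (v : κ'' → V) :
    cform ψ β v = cform φ (fun l => β (e (Sum.inl l))) (fun l => v (e (Sum.inl l))) *
      cform φ' (fun l => β (e (Sum.inr l))) (fun l => v (e (Sum.inr l))) := by
  rw [cform_apply, cform_apply, cform_apply, Finset.sum_mul_sum, ← Fintype.sum_prod_type']
  refine Fintype.sum_equiv ((e.symm.arrowCongr (Equiv.refl R)).trans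
    (Equiv.sumArrowEquivProdArrow κ κ' R)) _ _ fun I => ?_
  rw [h, ← Equiv.prod_comp e (fun l => β l (I l) (v l)), Fintype.prod_sum_type]
  exact mul_mul_mul_comm _ _ _ _

/-- The exchange of an index. -/
def exch (κ R : Type) [DecidableEq κ] (k : κ) : (κ → R) × R ≃ (κ → R) × R where
  toFun p := (Function.update p.1 k p.2, p.1 k)
  invFun p := (Function.update p.1 k p.2, p.1 k)
  left_inv p := by
    refine Prod.ext ?_ ?_
    · change Function.update (Function.update p.1 k p.2) k (p.1 k) = p.1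
      rw [Function.update_idem, Function.update_eq_self]
    · change Function.update p.1 k p.2 k = p.2
      rw [Function.update_self]
  right_inv p := by
    refine Prod.ext ?_ ?_
    · change Function.update (Function.update p.1 k p.2) k (p.1 k) = p.1
      rw [Function.update_idem, Function.update_eq_self]
    · change Function.update p.1 k p.2 k = p.2
      rw [Function.update_self]

theorem cform_update (C : (κ → R) → ℂ) (β : κ → R → (V →ₗ[ℂ] ℂ)) {X : V → V} {M : R → R → ℂ}
    (hX : ∀ k r v, β k r (X v) = ∑ s, M r s * β k s v) (k : κ) (v : κ → V) :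
    cform C β (Function.update v k (X (v k))) =
      ∑ I : κ → R, (∑ t, M t (I k) * C (Function.update I k t)) * ∏ l, β l (I l) (v l) := by
  rw [cform_apply]
  have h1 : ∀ I : κ → R, C I * ∏ l, β l (I l) (Function.update v k (X (v k)) l) =
      ∑ s, C I * M (I k) s * ∏ l, β l (Function.update I k s l) (v l) := by
    intro I
    have h2 : ∀ s, ∏ l, β l (Function.update I k s l) (v l) =
        β k s (v k) * ∏ l ∈ Finset.univ.erase k, β l (I l) (v l) := by
      intro s
      rw [← Finset.mul_prod_erase Finset.univ _ (Finset.mem_univ k), Function.update_self]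
      congr 1
      refine Finset.prod_congr rfl fun l hl => ?_
      rw [Function.update_of_ne (Finset.ne_of_mem_erase hl)]
    rw [Finset.sum_congr rfl fun s _ => by rw [h2 s],
      ← Finset.mul_prod_erase Finset.univ _ (Finset.mem_univ k), Function.update_self, hX,
      Finset.sum_mul, Finset.mul_sum]
    refine Finset.sum_congr rfl fun s _ => ?_
    have h3 : ∏ l ∈ Finset.univ.erase k, β l (I l) (Function.update v k (X (v k)) l) =
        ∏ l ∈ Finset.univ.erase k, β l (I l) (v l) := by
      refine Finset.prod_congr rfl fun l hl => ?_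
      rw [Function.update_of_ne (Finset.ne_of_mem_erase hl)]
    rw [h3]
    ring
  rw [Finset.sum_congr rfl fun I _ => h1 I]
  have h4 : ∀ f : (κ → R) × R → ℂ, ∑ I, ∑ s, f (I, s) = ∑ I, ∑ s, f (exch κ R k (I, s)) := by
    intro f
    rw [← Fintype.sum_prod_type, ← Fintype.sum_prod_type', Equiv.sum_comp (exch κ R k) f]
  rw [h4 fun p => C p.1 * M (p.1 k) p.2 * ∏ l, β l (Function.update p.1 k p.2 l) (v l)]
  refine Finset.sum_congr rfl fun I _ => ?_
  rw [Finset.sum_mul]
  refine Finset.sum_congr rfl fun s _ => ?_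
  change C (Function.update I k s) * M (Function.update I k s k) (I k) *
    ∏ l, β l (Function.update (Function.update I k s) k (I k) l) (v l) = _
  rw [Function.update_self, Function.update_idem, Function.update_eq_self]
  ring

/-- The forms attached to the invariants are killed by the Lie algebra. -/
theorem cform_kill {C : (κ → R4) → ℂ} (hC : C ∈ Inv2 κ) {β : κ → R4 → (V →ₗ[ℂ] ℂ)} {X : V → V}
    {a c : Matrix (Fin 2) (Fin 2) ℂ} (ha : Tl a) (hc : Tl c)
    (hX : ∀ k r v, β k r (X v) = ∑ s, mm a c r s * β k s v) (v : κ → V) :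
    ∑ k, cform C β (Function.update v k (X (v k))) = 0 := by
  rw [Finset.sum_congr rfl fun k _ => cform_update C β hX k v, Finset.sum_comm]
  refine Finset.sum_eq_zero fun I _ => ?_
  rw [← Finset.sum_mul, inv_mm hC ha hc I, zero_mul]

/-- The form attached to the determinant. -/
theorem cform_D4 (x : Fin 4 → R4 → ℂ) :
    ∑ I : Fin 4 → R4, D4 I * ∏ k, x k (I k) = Matrix.det (Matrix.of fun j k => x k (r4 j)) := by
  have h1 : ∀ I : Fin 4 → R4, D4 I * ∏ k, x k (I k) =
      ∑ σ : Equiv.Perm (Fin 4), ((Equiv.Perm.sign σ : ℤ) : ℂ) *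
        ∏ i, ((if I i = r4 (σ i) then (1 : ℂ) else 0) * x i (I i)) := by
    intro I
    unfold D4
    rw [← Matrix.det_transpose, Matrix.det_apply', Finset.sum_mul]
    refine Finset.sum_congr rfl fun σ _ => ?_
    rw [Finset.prod_mul_distrib, mul_assoc]
    rfl
  rw [Finset.sum_congr rfl fun I _ => h1 I, Finset.sum_comm, Matrix.det_apply']
  refine Finset.sum_congr rfl fun σ _ => ?_
  rw [← Finset.mul_sum]
  congr 1
  have h2 := Finset.prod_univ_sum (fun _ : Fin 4 => (Finset.univ : Finset R4))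
    (fun i r => (if r = r4 (σ i) then (1 : ℂ) else 0) * x i r)
  rw [Fintype.piFinset_univ] at h2
  rw [← h2]
  refine Finset.prod_congr rfl fun i _ => ?_
  simp only [ite_mul, one_mul, zero_mul]
  rw [Finset.sum_ite_eq' Finset.univ (r4 (σ i)), if_pos (Finset.mem_univ _)]
  rfl

end form

section basis

variable {B : Type} [Fintype B] [DecidableEq B] {W : Submodule ℂ (B → ℂ)}
  {bb : Fin 2 → Fin 2 → B → ℂ}

theorem Ten.sum {X : Matrix B B ℂ} {a c : Matrix (Fin 2) (Fin 2) ℂ} (h : Ten bb X a c) (s : R4) :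
    X *ᵥ bb s.1 s.2 = ∑ r : R4, mm a c r s • bb r.1 r.2 := by
  rw [h, Fintype.sum_prod_type]
  unfold mm
  simp only [add_smul, ite_smul, zero_smul, Finset.sum_add_distrib]
  congr 1
  · refine Finset.sum_congr rfl fun t _ => ?_
    rw [Finset.sum_ite_eq' Finset.univ s.2, if_pos (Finset.mem_univ _)]
  · rw [Finset.sum_comm]
    refine Finset.sum_congr rfl fun t _ => ?_
    rw [Finset.sum_ite_eq' Finset.univ s.1, if_pos (Finset.mem_univ _)]

/-- The basis. -/
def Bs.basis (hb : Bs W bb) : Basis R4 ℂ W :=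
  Basis.mk (v := fun r : R4 => (⟨bb r.1 r.2, hb.mem _ _⟩ : W)) (by
    rw [Fintype.linearIndependent_iff]
    intro c hc r
    refine hb.ind (fun i j => c (i, j)) ?_ r.1 r.2
    have h1 := congrArg Subtype.val hc
    rw [AddSubmonoidClass.coe_finsetSum, Fintype.sum_prod_type] at h1
    exact h1) (by
    rintro ⟨w, hw⟩ _
    obtain ⟨c, hc⟩ := hb.spn w hw
    rw [Submodule.mem_span_range_iff_exists_fun]
    refine ⟨fun r => c r.1 r.2, Subtype.ext ?_⟩
    rw [AddSubmonoidClass.coe_finsetSum, Fintype.sum_prod_type]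
    exact hc.symm)

theorem Bs.basis_coe (hb : Bs W bb) (r : R4) : (hb.basis r : B → ℂ) = bb r.1 r.2 := by
  unfold Bs.basis
  rw [Basis.mk_apply]

theorem Bs.coord_eq (hb : Bs W bb) {w : W} {x : R4 → ℂ}
    (hw : (w : B → ℂ) = ∑ r : R4, x r • bb r.1 r.2) (r : R4) : hb.basis.coord r w = x r := by
  have h1 : w = ∑ r, x r • hb.basis r := by
    apply Subtype.ext
    rw [AddSubmonoidClass.coe_finsetSum, hw]
    refine Finset.sum_congr rfl fun r _ => ?_
    rw [← hb.basis_coe r]
    rfl
  rw [h1, Basis.coord_apply, Basis.repr_sum_self]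

theorem Bs.sum_coord (hb : Bs W bb) (w : W) :
    (w : B → ℂ) = ∑ r : R4, hb.basis.coord r w • bb r.1 r.2 := by
  have h1 := congrArg Subtype.val (hb.basis.sum_repr w)
  rw [AddSubmonoidClass.coe_finsetSum] at h1
  rw [← h1]
  refine Finset.sum_congr rfl fun r _ => ?_
  rw [← hb.basis_coe r, Basis.coord_apply]
  rfl

end basis

end

end Pool.Agent.L5helper19.TT
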