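import Mathlib

/-!
# Commuting families of operators and operators of rank one
-/

set_option linter.unusedSectionVars false

namespace Pool.Agent.L5helper19.TT

open Module

noncomputable section

variable {V : Type*} [AddCommGroup V] [Module ℂ V] [FiniteDimensional ℂ V]

/-- The sets `A`, `B` of operators have no common invariant subspaces. -/
def Irr2 (A B : Set (End ℂ V)) : Prop :=
  ∀ W : Submodule ℂ V, (∀ a ∈ A, ∀ w ∈ W, a w ∈ W) → (∀ b ∈ B, ∀ w ∈ W, b w ∈ W) →
    W = ⊥ ∨ W = ⊤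

theorem Irr2.symm {A B : Set (End ℂ V)} (h : Irr2 A B) : Irr2 B A :=
  fun W h1 h2 => h W h2 h1

/-- A common eigenvector of `B` makes all elements of `B` scalar. -/
theorem scalar_of_eig {A B : Set (End ℂ V)} (hAB : ∀ a ∈ A, ∀ b ∈ B, a * b = b * a)
    (hirr : Irr2 A B) {u : V} (hu : u ≠ 0) (h : ∀ b ∈ B, ∃ c : ℂ, b u = c • u) :
    ∀ b ∈ B, ∃ c : ℂ, b = c • 1 := by
  choose! χ hχ using h
  let W : Submodule ℂ V :=
    { carrier := {v | ∀ b ∈ B, b v = χ b • v}
      add_mem' := fun {x y} hx hy b hb => by rw [map_add, hx b hb, hy b hb, smul_add]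
      zero_mem' := fun b _ => by rw [map_zero, smul_zero]
      smul_mem' := fun c x hx b hb => by rw [map_smul, hx b hb, smul_comm] }
  have hW : W = ⊤ := by
    have e1 : ∀ a ∈ A, ∀ w ∈ W, a w ∈ W := by
      intro a ha w hw b hb
      have h2 := congrArg (fun f : End ℂ V => f w) (hAB a ha b hb)
      change a (b w) = b (a w) at h2
      rw [← h2, hw b hb, map_smul]
    have e2 : ∀ b ∈ B, ∀ w ∈ W, b w ∈ W := by
      intro b hb w hw b' hb'
      rw [hw b hb, map_smul, hw b' hb', smul_comm]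
    rcases hirr W e1 e2 with h1 | h1
    · exfalso
      apply hu
      have h2 : u ∈ W := fun b hb => hχ b hb
      rwa [h1, Submodule.mem_bot] at h2
    · exact h1
  intro b hb
  refine ⟨χ b, LinearMap.ext fun v => ?_⟩
  have h2 : v ∈ W := hW ▸ Submodule.mem_top
  exact h2 b hb

/-- A range of dimension at most one, stable under `B`. -/
theorem scalar_of_range {A B : Set (End ℂ V)} (hAB : ∀ a ∈ A, ∀ b ∈ B, a * b = b * a)
    (hirr : Irr2 A B) {M : End ℂ V} (hM : M ≠ 0) (hMB : ∀ b ∈ B, M * b = b * M) {u u' : V}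
    (hr : ∀ v, ∃ x y : ℂ, M v = x • u + y • u') (hd : ∃ s t : ℂ, (s ≠ 0 ∨ t ≠ 0) ∧
      s • u + t • u' = 0) : ∀ b ∈ B, ∃ c : ℂ, b = c • 1 := by
  obtain ⟨v, hv⟩ : ∃ v, M v ≠ 0 := by
    by_contra hcon
    push Not at hcon
    exact hM (LinearMap.ext hcon)
  -- the range is a line
  have hline : ∃ w : V, ∀ v, ∃ x : ℂ, M v = x • w := by
    obtain ⟨s, t, hst, h0⟩ := hd
    rcases hst with hs | ht
    · refine ⟨u', fun v => ?_⟩
      obtain ⟨x, y, hxy⟩ := hr v
      have h1 : u = (-(s⁻¹ * t)) • u' := by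
        have h2 : s⁻¹ • (s • u + t • u') = 0 := by rw [h0, smul_zero]
        rw [smul_add, smul_smul, smul_smul, inv_mul_cancel₀ hs, one_smul] at h2
        rw [neg_smul]
        exact eq_neg_of_add_eq_zero_left h2
      refine ⟨x * (-(s⁻¹ * t)) + y, ?_⟩
      rw [hxy, h1, smul_smul, add_smul]
    · refine ⟨u, fun v => ?_⟩
      obtain ⟨x, y, hxy⟩ := hr v
      have h1 : u' = (-(t⁻¹ * s)) • u := by
        have h2 : t⁻¹ • (s • u + t • u') = 0 := by rw [h0, smul_zero]
        rw [smul_add, smul_smul, smul_smul, inv_mul_cancel₀ ht, one_smul] at h2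
        rw [neg_smul]
        exact eq_neg_of_add_eq_zero_right h2
      refine ⟨x + y * (-(t⁻¹ * s)), ?_⟩
      rw [hxy, h1, smul_smul, add_smul]
  obtain ⟨w, hw⟩ := hline
  obtain ⟨x, hx⟩ := hw v
  have hx0 : x ≠ 0 := by
    rintro rfl
    rw [zero_smul] at hx
    exact hv hx
  refine scalar_of_eig hAB hirr hv fun b hb => ?_
  have h1 := congrArg (fun f : End ℂ V => f v) (hMB b hb)
  change M (b v) = b (M v) at h1
  obtain ⟨y, hy⟩ := hw (b v)
  refine ⟨y * x⁻¹, ?_⟩
  rw [← h1, hy, hx, smul_smul, mul_assoc, inv_mul_cancel₀ hx0, mul_one]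

/-- If the sum of an operator `a0` which commutes with `B` and an operator `b0` which commutes with
`A` has rank one then `A` or `B` consists of scalars. -/
theorem lemB {A B : Set (End ℂ V)} (hAB : ∀ a ∈ A, ∀ b ∈ B, a * b = b * a)
    (hirr : Irr2 A B) (hdim : 2 ≤ finrank ℂ V) {a0 b0 : End ℂ V}
    (ha0 : ∀ b ∈ B, a0 * b = b * a0) (hb0 : ∀ a ∈ A, b0 * a = a * b0)
    {u : V} {φ : V →ₗ[ℂ] ℂ} (hu : u ≠ 0) (hφ : φ ≠ 0) (hN : ∀ v, (a0 + b0) v = φ v • u) :
    (∀ a ∈ A, ∃ c : ℂ, a = c • 1) ∨ (∀ b ∈ B, ∃ c : ℂ, b = c • 1) := by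
  obtain ⟨N, hNdef⟩ : ∃ N : End ℂ V, N = a0 + b0 := ⟨_, rfl⟩
  have hNv : ∀ v, N v = φ v • u := by
    rw [hNdef]
    exact hN
  have hMa : ∀ c ∈ A, ∀ b ∈ B, (c * N - N * c) * b = b * (c * N - N * c) := by
    intro c hc b hb
    have h1 : c * N - N * c = c * a0 - a0 * c := by
      rw [hNdef, mul_add, add_mul, hb0 c hc]
      abel
    rw [h1, sub_mul, mul_sub, mul_assoc, ha0 b hb, ← mul_assoc, hAB c hc b hb, mul_assoc a0,
      hAB c hc b hb, ← mul_assoc a0, ha0 b hb]
    simp only [mul_assoc]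
  have hMb : ∀ d ∈ B, ∀ a ∈ A, (d * N - N * d) * a = a * (d * N - N * d) := by
    intro d hd a ha
    have h1 : d * N - N * d = d * b0 - b0 * d := by
      rw [hNdef, mul_add, add_mul, ha0 d hd]
      abel
    rw [h1, sub_mul, mul_sub, mul_assoc, hb0 a ha, ← mul_assoc, ← hAB a ha d hd, mul_assoc b0,
      ← hAB a ha d hd, ← mul_assoc b0, hb0 a ha]
    simp only [mul_assoc]
  have hMv : ∀ (c : End ℂ V) v, (c * N - N * c) v = φ v • c u - φ (c v) • u := by
    intro c v
    change c (N v) - N (c v) = _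
    rw [hNv, hNv, map_smul]
  -- not all elements commute with `N`
  have h0 : (∃ c ∈ A, c * N - N * c ≠ 0) ∨ ∃ d ∈ B, d * N - N * d ≠ 0 := by
    by_contra hcon
    push Not at hcon
    obtain ⟨hA, hB⟩ := hcon
    have e1 : ∀ a ∈ A, ∀ w ∈ LinearMap.ker N, a w ∈ LinearMap.ker N := by
      intro a ha w hw
      rw [LinearMap.mem_ker] at hw ⊢
      have h2 := congrArg (fun f : End ℂ V => f w) (sub_eq_zero.1 (hA a ha))
      change a (N w) = N (a w) at h2
      rw [← h2, hw, map_zero]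
    have e2 : ∀ b ∈ B, ∀ w ∈ LinearMap.ker N, b w ∈ LinearMap.ker N := by
      intro b hb w hw
      rw [LinearMap.mem_ker] at hw ⊢
      have h2 := congrArg (fun f : End ℂ V => f w) (sub_eq_zero.1 (hB b hb))
      change b (N w) = N (b w) at h2
      rw [← h2, hw, map_zero]
    rcases hirr (LinearMap.ker N) e1 e2 with h1 | h1
    · have h2 := LinearMap.finrank_range_add_finrank_ker N
      rw [h1, finrank_bot, add_zero] at h2
      have h3 : LinearMap.range N ≤ Submodule.span ℂ {u} := by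
        rintro _ ⟨v, rfl⟩
        rw [hNv]
        exact Submodule.smul_mem _ _ (Submodule.mem_span_singleton_self u)
      have h4 := Submodule.finrank_mono h3
      rw [finrank_span_singleton hu] at h4
      omega
    · apply hφ
      refine LinearMap.ext fun v => ?_
      have h2 : v ∈ LinearMap.ker N := h1 ▸ Submodule.mem_top
      rw [LinearMap.mem_ker, hNv, smul_eq_zero] at h2
      exact h2.resolve_right hu
  -- the range of `N` is a line
  have hBN : (∀ d ∈ B, d * N - N * d = 0) → ∀ b ∈ B, ∃ c : ℂ, b = c • 1 := by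
    intro hB
    refine scalar_of_eig hAB hirr hu fun b hb => ?_
    obtain ⟨v, hv⟩ : ∃ v, φ v ≠ 0 := by
      by_contra hcon
      push Not at hcon
      exact hφ (LinearMap.ext hcon)
    have h2 := congrArg (fun f : End ℂ V => f v) (sub_eq_zero.1 (hB b hb))
    change b (N v) = N (b v) at h2
    rw [hNv, hNv, map_smul] at h2
    refine ⟨(φ v)⁻¹ * φ (b v), ?_⟩
    rw [mul_smul, ← h2, smul_smul, inv_mul_cancel₀ hv, one_smul]
  have hAN : (∀ d ∈ A, d * N - N * d = 0) → ∀ a ∈ A, ∃ c : ℂ, a = c • 1 := by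
    intro hA
    refine scalar_of_eig (fun b hb a ha => (hAB a ha b hb).symm) hirr.symm hu fun b hb => ?_
    obtain ⟨v, hv⟩ : ∃ v, φ v ≠ 0 := by
      by_contra hcon
      push Not at hcon
      exact hφ (LinearMap.ext hcon)
    have h2 := congrArg (fun f : End ℂ V => f v) (sub_eq_zero.1 (hA b hb))
    change b (N v) = N (b v) at h2
    rw [hNv, hNv, map_smul] at h2
    refine ⟨(φ v)⁻¹ * φ (b v), ?_⟩
    rw [mul_smul, ← h2, smul_smul, inv_mul_cancel₀ hv, one_smul]
  by_cases hA : ∀ d ∈ A, d * N - N * d = 0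
  · exact Or.inl (hAN hA)
  by_cases hB : ∀ d ∈ B, d * N - N * d = 0
  · exact Or.inr (hBN hB)
  push Not at hA hB
  obtain ⟨c, hc, hcM⟩ := hA
  obtain ⟨d, hd, hdM⟩ := hB
  obtain ⟨v₀, hv₀⟩ : ∃ v, φ v ≠ 0 := by
    by_contra hcon
    push Not at hcon
    exact hφ (LinearMap.ext hcon)
  have full : ∀ x : End ℂ V, (¬∃ l : ℂ, ∀ v, φ (x v) = l * φ v) →
      (∃ v, (x * N - N * x) v = u) ∧ ∃ v, (x * N - N * x) v = x u := by
    intro x hx
    obtain ⟨v₁, hv₁⟩ : ∃ v, φ (x v) ≠ φ (x v₀) * (φ v₀)⁻¹ * φ v := by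
      by_contra hcon
      push Not at hcon
      exact hx ⟨_, hcon⟩
    obtain ⟨w, hw⟩ : ∃ w, w = v₁ - (φ v₁ * (φ v₀)⁻¹) • v₀ := ⟨_, rfl⟩
    have h3 : φ w = 0 := by
      rw [hw, map_sub, map_smul, smul_eq_mul, mul_assoc, inv_mul_cancel₀ hv₀, mul_one, sub_self]
    have h4 : φ (x w) ≠ 0 := by
      rw [hw, map_sub, map_smul, map_sub, map_smul, smul_eq_mul, sub_ne_zero]
      intro h5
      apply hv₁
      rw [h5]
      ring
    have h5 : (x * N - N * x) (-(φ (x w))⁻¹ • w) = u := by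
      rw [map_smul, hMv, h3, zero_smul, zero_sub, smul_neg, neg_smul, neg_neg, smul_smul,
        inv_mul_cancel₀ h4, one_smul]
    refine ⟨⟨_, h5⟩, (φ v₀)⁻¹ • v₀ + ((φ v₀)⁻¹ * φ (x v₀)) • (-(φ (x w))⁻¹ • w), ?_⟩
    rw [map_add, map_smul _ ((φ v₀)⁻¹ * φ (x v₀)), h5, map_smul, hMv, smul_sub, smul_smul,
      smul_smul, inv_mul_cancel₀ hv₀, one_smul, sub_add_cancel]
  by_cases h3 : ∃ l : ℂ, ∀ v, φ (c v) = l * φ v
  · obtain ⟨l, hl⟩ := h3
    exact Or.inr (scalar_of_range hAB hirr hcM (hMa c hc) (u := c u - l • u) (u' := 0)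
      (fun v => ⟨φ v, 0, by rw [hMv, hl]; module⟩) ⟨0, 1, Or.inr one_ne_zero, by simp⟩)
  by_cases h4 : ∃ l : ℂ, ∀ v, φ (d v) = l * φ v
  · obtain ⟨l, hl⟩ := h4
    exact Or.inl (scalar_of_range (fun b hb a ha => (hAB a ha b hb).symm) hirr.symm hdM (hMb d hd)
      (u := d u - l • u) (u' := 0)
      (fun v => ⟨φ v, 0, by rw [hMv, hl]; module⟩) ⟨0, 1, Or.inr one_ne_zero, by simp⟩)
  obtain ⟨⟨vc, hvc⟩, ⟨vc', hvc'⟩⟩ := full c h3
  obtain ⟨⟨vd, hvd⟩, ⟨vd', hvd'⟩⟩ := full d h4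
  -- the two ranges
  have hRc : ∀ v, v ∈ LinearMap.range (c * N - N * c) ↔ ∃ x y : ℂ, v = x • u + y • c u := by
    intro v
    constructor
    · rintro ⟨w, rfl⟩
      exact ⟨-φ (c w), φ w, by rw [hMv]; module⟩
    · rintro ⟨x, y, rfl⟩
      exact ⟨x • vc + y • vc', by rw [map_add, map_smul, map_smul, hvc, hvc']⟩
  have hRd : ∀ v, v ∈ LinearMap.range (d * N - N * d) ↔ ∃ x y : ℂ, v = x • u + y • d u := by
    intro v
    constructor
    · rintro ⟨w, rfl⟩
      exact ⟨-φ (d w), φ w, by rw [hMv]; module⟩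
    · rintro ⟨x, y, rfl⟩
      exact ⟨x • vd + y • vd', by rw [map_add, map_smul, map_smul, hvd, hvd']⟩
  have hBs : ∀ b ∈ B, ∀ w ∈ LinearMap.range (c * N - N * c),
      b w ∈ LinearMap.range (c * N - N * c) := by
    rintro b hb _ ⟨w, rfl⟩
    refine ⟨b w, ?_⟩
    exact congrArg (fun f : End ℂ V => f w) (hMa c hc b hb)
  have hAs : ∀ a ∈ A, ∀ w ∈ LinearMap.range (d * N - N * d),
      a w ∈ LinearMap.range (d * N - N * d) := by
    rintro b hb _ ⟨w, rfl⟩
    refine ⟨b w, ?_⟩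
    exact congrArg (fun f : End ℂ V => f w) (hMb d hd b hb)
  have hdu : d u ∈ LinearMap.range (c * N - N * c) := hBs d hd u ⟨vc, hvc⟩
  have hcu : c u ∈ LinearMap.range (d * N - N * d) := hAs c hc u ⟨vd, hvd⟩
  have heq : LinearMap.range (c * N - N * c) = LinearMap.range (d * N - N * d) := by
    apply le_antisymm
    · intro v hv
      obtain ⟨x, y, rfl⟩ := (hRc v).1 hv
      exact Submodule.add_mem _ (Submodule.smul_mem _ _ ⟨vd, hvd⟩) (Submodule.smul_mem _ _ hcu)
    · intro v hv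
      obtain ⟨x, y, rfl⟩ := (hRd v).1 hv
      exact Submodule.add_mem _ (Submodule.smul_mem _ _ ⟨vc, hvc⟩) (Submodule.smul_mem _ _ hdu)
  have htop : LinearMap.range (c * N - N * c) = ⊤ := by
    rcases hirr (LinearMap.range (c * N - N * c)) (fun a ha w hw => by
      rw [heq] at hw ⊢
      exact hAs a ha w hw) hBs with h5 | h5
    · exfalso
      exact hcM (LinearMap.range_eq_bot.1 h5)
    · exact h5
  obtain ⟨x, y, hxy⟩ := (hRc _).1 hdu
  -- `d` is a polynomial in `c`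
  have hcd : d = x • 1 + y • c := by
    refine LinearMap.ext fun v => ?_
    have h5 : v ∈ LinearMap.range (c * N - N * c) := by
      rw [htop]
      trivial
    obtain ⟨s, t, rfl⟩ := (hRc v).1 h5
    have h6 : d (c u) = c (d u) := congrArg (fun f : End ℂ V => f u) (hAB c hc d hd).symm
    change d (s • u + t • c u) = x • (s • u + t • c u) + y • c (s • u + t • c u)
    rw [map_add, map_smul, map_smul, h6, hxy]
    simp only [map_add, map_smul]
    module
  by_cases hy : y = 0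
  · -- `d` is a scalar
    exfalso
    apply h4
    refine ⟨x, fun v => ?_⟩
    rw [hcd, hy]
    simp
  have hAc : ∀ a ∈ A, a * c = c * a := by
    intro a ha
    have h5 := hAB a ha d hd
    rw [hcd, mul_add, add_mul, mul_smul_comm, smul_mul_assoc, mul_one, one_mul, mul_smul_comm,
      smul_mul_assoc, add_right_inj] at h5
    exact smul_right_injective _ hy h5
  have hnt : Nontrivial V := ⟨u, 0, hu⟩
  obtain ⟨l, hl⟩ := Module.End.exists_eigenvalue c
  exfalso
  have e1 : ∀ a ∈ A, ∀ w ∈ Module.End.eigenspace c l, a w ∈ Module.End.eigenspace c l := by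
    intro a ha w hw
    rw [Module.End.mem_eigenspace_iff] at hw ⊢
    have h6 := congrArg (fun f : End ℂ V => f w) (hAc a ha)
    change a (c w) = c (a w) at h6
    rw [← h6, hw, map_smul]
  have e2 : ∀ b ∈ B, ∀ w ∈ Module.End.eigenspace c l, b w ∈ Module.End.eigenspace c l := by
    intro b hb w hw
    rw [Module.End.mem_eigenspace_iff] at hw ⊢
    have h6 := congrArg (fun f : End ℂ V => f w) (hAB c hc b hb)
    change c (b w) = b (c w) at h6
    rw [h6, hw, map_smul]
  rcases hirr (Module.End.eigenspace c l) e1 e2 with h5 | h5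
  · exact hl h5
  · apply h3
    refine ⟨l, fun v => ?_⟩
    have h6 : v ∈ Module.End.eigenspace c l := h5 ▸ Submodule.mem_top
    rw [Module.End.mem_eigenspace_iff.1 h6, map_smul, smul_eq_mul]

end

end Pool.Agent.L5helper19.TT
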