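import Mathlib
import Pool.Agent.TH131.GHC.Ind2
import Pool.Agent.TH131.GHC.Fin
import Pool.Agent.R915.G5
import Pool.Agent.L5helper19.TT.LemB

/-!
# Independence of the part of type III
-/

set_option linter.unusedSectionVars false

namespace Pool.Agent.L5helper19.TT

open Matrix Module Pool.Agent.W437.HC Pool.Agent.W437.HD Pool.Agent.TH504.CB Pool.Agent.Y90
open Pool.Agent.R915
open Pool.Agent.W548.Odd hiding cv
open Pool.Agent.H204R3.CM (IsHodge)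
open Pool.Agent.W437.HP (cK cK_mul cK_one)

noncomputable section

section cm

variable {G : ℕ} {Z : Matrix (Fin G) (Fin G) ℂ} (h : PM Z)
  {K : Submodule ℂ (Matrix (Fin G ⊕ Fin G) (Fin G ⊕ Fin G) ℂ)}

theorem LZ_le_lie : LZ Z ≤ lieM (DZ Z) ℂ :=
  LA_le_lieM fun d hd => by
    rw [Set.mem_singleton_iff.1 hd]
    exact D_mem _

/-- Ideals of the Lie algebra which are defined over the rational numbers. -/
structure Idl (Z : Matrix (Fin G) (Fin G) ℂ)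
    (K : Submodule ℂ (Matrix (Fin G ⊕ Fin G) (Fin G ⊕ Fin G) ℂ)) : Prop where
  le : K ≤ LZ Z
  gal : ∀ σ : ℂ ≃+* ℂ, ∀ X ∈ K, X.map σ ∈ K
  dn : ∀ X ∈ K, DZ Z * X - X * DZ Z ∈ K

theorem Idl.galD (hK : Idl Z K) : TH131.GHC.GalD (DZ Z) K where
  le := hK.le.trans LZ_le_lie
  gal := hK.gal
  dn := hK.dn

/-- The complementary ideal. -/
def cm (Z : Matrix (Fin G) (Fin G) ℂ)
    (K : Submodule ℂ (Matrix (Fin G ⊕ Fin G) (Fin G ⊕ Fin G) ℂ)) :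
    Submodule ℂ (Matrix (Fin G ⊕ Fin G) (Fin G ⊕ Fin G) ℂ) := TH131.GHC.cmpl (DZ Z) K ⊓ LZ Z

include h

/-- The polarized Hodge structure. -/
def PM.polH : TH131.GHC.PolH (DZ Z) := TH131.GHC.polOf h.symm h.pos

theorem Idl.sum (hK : Idl Z K) {X : Matrix (Fin G ⊕ Fin G) (Fin G ⊕ Fin G) ℂ} (hX : X ∈ LZ Z) :
    ∃ X1 ∈ K, ∃ X2 ∈ cm Z K, X = X1 + X2 := by
  obtain ⟨Y, hY, hY'⟩ := (PM.polH h).cmpl_sum hK.galD (LZ_le_lie hX)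
  exact ⟨Y, hY, X - Y, ⟨hY', Submodule.sub_mem _ hX (hK.le hY)⟩, by abel⟩

theorem Idl.comm (hK : Idl Z K) {X Y : Matrix (Fin G ⊕ Fin G) (Fin G ⊕ Fin G) ℂ} (hX : X ∈ K)
    (hY : Y ∈ cm Z K) : X * Y = Y * X :=
  sub_eq_zero.1 ((PM.polH h).cmpl_bracket hK.galD hX hY.1)

theorem Idl.disj (hK : Idl Z K) {X : Matrix (Fin G ⊕ Fin G) (Fin G ⊕ Fin G) ℂ} (hX : X ∈ K)
    (hY : X ∈ cm Z K) : X = 0 :=
  (PM.polH h).cmpl_disj hK.galD hX hY.1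

theorem Idl.br (hK : Idl Z K) {X Y : Matrix (Fin G ⊕ Fin G) (Fin G ⊕ Fin G) ℂ}
    (hX : X ∈ cm Z K) (hY : Y ∈ cm Z K) : X * Y - Y * X ∈ cm Z K :=
  ⟨(PM.polH h).cmpl_ideal hK.galD hX.1 (LZ_le_lie hY.2), LZ_br hX.2 hY.2⟩

end cm

section fac

variable {G a : ℕ} {Z : Matrix (Fin G) (Fin G) ℂ} (h : PM Z) {Z' : Matrix (Fin a) (Fin a) ℂ}
  {E : Matrix (Fin G ⊕ Fin G) (Fin a ⊕ Fin a) ℚ} {F : Matrix (Fin a ⊕ Fin a) (Fin G ⊕ Fin G) ℚ}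
  (hf : Fac Z Z' E F)

/-- The operators which vanish on the factor. -/
def KF (Z : Matrix (Fin G) (Fin G) ℂ) (E : Matrix (Fin G ⊕ Fin G) (Fin a ⊕ Fin a) ℚ)
    (F : Matrix (Fin a ⊕ Fin a) (Fin G ⊕ Fin G) ℚ) :
    Submodule ℂ (Matrix (Fin G ⊕ Fin G) (Fin G ⊕ Fin G) ℂ) where
  carrier := {X | X ∈ LZ Z ∧ cK ℂ F * X * cK ℂ E = 0}
  add_mem' := by
    rintro X Y ⟨h1, h2⟩ ⟨h3, h4⟩
    exact ⟨Submodule.add_mem _ h1 h3, by rw [Matrix.mul_add, Matrix.add_mul, h2, h4, add_zero]⟩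
  zero_mem' := ⟨Submodule.zero_mem _, by rw [Matrix.mul_zero, Matrix.zero_mul]⟩
  smul_mem' := by
    rintro c X ⟨h1, h2⟩
    exact ⟨Submodule.smul_mem _ _ h1, by rw [Matrix.mul_smul, Matrix.smul_mul, h2, smul_zero]⟩

include hf in
/-- The compression is multiplicative. -/
theorem comp_mul {X Y : Matrix (Fin G ⊕ Fin G) (Fin G ⊕ Fin G) ℂ} (hY : Y ∈ LZ Z) :
    cK ℂ F * (X * Y) * cK ℂ E = (cK ℂ F * X * cK ℂ E) * (cK ℂ F * Y * cK ℂ E) := by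
  calc cK ℂ F * (X * Y) * cK ℂ E = (cK ℂ F * X) * (Y * cK ℂ E) := by
        simp only [Matrix.mul_assoc]
    _ = (cK ℂ F * X) * (cK ℂ E * (cK ℂ F * Y * cK ℂ E)) := by rw [← (hf.comp hY).2.1]
    _ = _ := by simp only [Matrix.mul_assoc]

include hf in
theorem comp_br {X Y : Matrix (Fin G ⊕ Fin G) (Fin G ⊕ Fin G) ℂ} (hX : X ∈ LZ Z) (hY : Y ∈ LZ Z) :
    cK ℂ F * (X * Y - Y * X) * cK ℂ E = (cK ℂ F * X * cK ℂ E) * (cK ℂ F * Y * cK ℂ E) -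
      (cK ℂ F * Y * cK ℂ E) * (cK ℂ F * X * cK ℂ E) := by
  rw [Matrix.mul_sub, Matrix.sub_mul, comp_mul hf hY, comp_mul hf hX]

include hf in
theorem idl_KF : Idl Z (KF Z E F) where
  le := fun _ hX => hX.1
  gal := by
    rintro σ X ⟨h1, h2⟩
    refine ⟨gal_LZ σ X h1, ?_⟩
    have h3 := congrArg (fun M => M.map σ) h2
    simp only [Matrix.map_mul, cK_aut] at h3
    rw [h3, Matrix.map_zero _ (map_zero σ)]
  dn := by
    rintro X ⟨h1, h2⟩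
    refine ⟨LZ_br DZ_mem h1, ?_⟩
    rw [comp_br hf DZ_mem h1, h2, Matrix.mul_zero, Matrix.zero_mul, sub_zero]

include h hf

/-- Elements of the Lie algebra of the factor lift to the complement. -/
theorem lift_cm {X' : Matrix (Fin a ⊕ Fin a) (Fin a ⊕ Fin a) ℂ} (hX' : X' ∈ LZ Z') :
    ∃ X ∈ cm Z (KF Z E F), cK ℂ F * X * cK ℂ E = X' := by
  obtain ⟨X, hX, hXX⟩ := hf.lift hX'
  obtain ⟨X1, hX1, X2, hX2, rfl⟩ := (idl_KF hf).sum h hX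
  refine ⟨X2, hX2, ?_⟩
  rw [← hXX, Matrix.mul_add, Matrix.add_mul, hX1.2, zero_add]

/-- Elements of the complement commute if their compressions do. -/
theorem comm_cm {X Y : Matrix (Fin G ⊕ Fin G) (Fin G ⊕ Fin G) ℂ} (hX : X ∈ cm Z (KF Z E F))
    (hY : Y ∈ cm Z (KF Z E F)) (hXY : (cK ℂ F * X * cK ℂ E) * (cK ℂ F * Y * cK ℂ E) =
      (cK ℂ F * Y * cK ℂ E) * (cK ℂ F * X * cK ℂ E)) : X * Y = Y * X := by
  rw [← sub_eq_zero]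
  refine (idl_KF hf).disj h ⟨LZ_br hX.2 hY.2, ?_⟩ ((idl_KF hf).br h hX hY)
  rw [comp_br hf hX.2 hY.2, hXY, sub_self]

theorem eq_cm {X Y : Matrix (Fin G ⊕ Fin G) (Fin G ⊕ Fin G) ℂ} (hX : X ∈ cm Z (KF Z E F))
    (hY : Y ∈ cm Z (KF Z E F)) (hXY : cK ℂ F * X * cK ℂ E = cK ℂ F * Y * cK ℂ E) : X = Y := by
  rw [← sub_eq_zero]
  refine (idl_KF hf).disj h ⟨Submodule.sub_mem _ hX.2 hY.2, ?_⟩ (Submodule.sub_mem _ hX hY)
  rw [Matrix.mul_sub, Matrix.sub_mul, hXY, sub_self]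

end fac

section two

variable {G a : ℕ}

/-- The Lie algebra is the product of two factors, each of which contains a part of the conjugates
of the complex structure. -/
structure Two (Z' : Matrix (Fin a) (Fin a) ℂ)
    (L1 L2 : Set (Matrix (Fin a ⊕ Fin a) (Fin a ⊕ Fin a) ℂ)) : Prop where
  c12 : ∀ X ∈ L1, ∀ Y ∈ L2, X * Y = Y * X
  dec : ∀ X ∈ LZ Z', ∃ X1 ∈ LZ Z', X1 ∈ L1 ∧ ∃ X2 ∈ LZ Z', X2 ∈ L2 ∧ X = X1 + X2
  ds : ∀ σ, DS Z' σ ∈ L1 ∨ DS Z' σ ∈ L2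
  n1 : ∃ σ, DS Z' σ ∈ L1
  n2 : ∃ σ, DS Z' σ ∈ L2
  br : ∃ x ∈ LZ Z', ∃ y ∈ LZ Z', DZ Z' = x * y - y * x

variable {Z : Matrix (Fin G) (Fin G) ℂ} (h : PM Z) {Z' : Matrix (Fin a) (Fin a) ℂ}
  {E : Matrix (Fin G ⊕ Fin G) (Fin a ⊕ Fin a) ℚ} {F : Matrix (Fin a ⊕ Fin a) (Fin G ⊕ Fin G) ℚ}
  (hf : Fac Z Z' E F) {L1 L2 : Set (Matrix (Fin a ⊕ Fin a) (Fin a ⊕ Fin a) ℂ)}
  (tw : Two Z' L1 L2) {U : Submodule ℂ (Fin G ⊕ Fin G → ℂ)}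

/-- The restriction of an operator of the Lie algebra. -/
def rs (hU : Stab (LZ Z) U) (X : LZ Z) : End ℂ U :=
  (mulVecLin X.1).restrict fun u hu => hU X.1 X.2 u hu

theorem rs_coe (hU : Stab (LZ Z) U) (X : LZ Z) (u : U) :
    (rs hU X u : Fin G ⊕ Fin G → ℂ) = X.1 *ᵥ u := rfl

theorem rs_comm (hU : Stab (LZ Z) U) {X Y : LZ Z} (hXY : X.1 * Y.1 = Y.1 * X.1) :
    rs hU X * rs hU Y = rs hU Y * rs hU X := by
  refine LinearMap.ext fun u => Subtype.ext ?_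
  change X.1 *ᵥ (Y.1 *ᵥ (u : Fin G ⊕ Fin G → ℂ)) = Y.1 *ᵥ (X.1 *ᵥ (u : Fin G ⊕ Fin G → ℂ))
  rw [mulVec_mulVec, hXY, mulVec_mulVec]

theorem rs_add (hU : Stab (LZ Z) U) (X Y : LZ Z) : rs hU (X + Y) = rs hU X + rs hU Y := by
  refine LinearMap.ext fun u => Subtype.ext ?_
  change (X.1 + Y.1) *ᵥ (u : Fin G ⊕ Fin G → ℂ) = X.1 *ᵥ (u : Fin G ⊕ Fin G → ℂ) + Y.1 *ᵥ u
  rw [add_mulVec]

/-- The restrictions of a set of operators. -/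
def rss (hU : Stab (LZ Z) U) (S : Set (Matrix (Fin G ⊕ Fin G) (Fin G ⊕ Fin G) ℂ)) :
    Set (End ℂ U) := {x | ∃ X : LZ Z, X.1 ∈ S ∧ x = rs hU X}

/-- Rank one operators. -/
theorem rank_one {N : Matrix (Fin G ⊕ Fin G) (Fin G ⊕ Fin G) ℂ} (hN : N ∈ LZ Z)
    (hU : Stab (LZ Z) U) (hr : finrank ℂ (U.map (mulVecLin N)) = 1) :
    ∃ (u : U) (φ : U →ₗ[ℂ] ℂ), u ≠ 0 ∧ φ ≠ 0 ∧ ∀ v, rs hU ⟨N, hN⟩ v = φ v • u := by
  obtain ⟨⟨w, hw⟩, hw0, hall⟩ := finrank_eq_one_iff'.1 hr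
  have hwU : w ∈ U := by
    obtain ⟨u, hu, rfl⟩ := hw
    exact hU N hN u hu
  have hw0' : w ≠ 0 := fun h0 => hw0 (Subtype.ext h0)
  choose c hc using fun v : U => hall ⟨N *ᵥ (v : Fin G ⊕ Fin G → ℂ), ⟨v, v.2, rfl⟩⟩
  have hc' : ∀ v : U, c v • w = N *ᵥ (v : Fin G ⊕ Fin G → ℂ) := fun v =>
    congrArg Subtype.val (hc v)
  have hinj : ∀ x y : ℂ, x • w = y • w → x = y := by
    intro x y hxy
    have h1 : (x - y) • w = 0 := by rw [sub_smul, hxy, sub_self]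
    exact sub_eq_zero.1 ((smul_eq_zero.1 h1).resolve_right hw0')
  have hadd : ∀ x y : U, c (x + y) = c x + c y := fun x y => hinj _ _ (by
    rw [hc', add_smul, hc', hc', Submodule.coe_add, mulVec_add])
  have hsmul : ∀ (z : ℂ) (x : U), c (z • x) = z * c x := fun z x => hinj _ _ (by
    rw [hc', Submodule.coe_smul, mulVec_smul, ← hc', smul_smul])
  refine ⟨⟨w, hwU⟩, IsLinearMap.mk' c ⟨hadd, hsmul⟩, fun h0 => hw0' (congrArg Subtype.val h0),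
    ?_, ?_⟩
  · intro h0
    obtain ⟨u, hu, hu'⟩ := hw
    have h1 := hc' ⟨u, hu⟩
    have h2 : c ⟨u, hu⟩ = 0 := congrArg (fun f : U →ₗ[ℂ] ℂ => f ⟨u, hu⟩) h0
    rw [h2, zero_smul] at h1
    apply hw0'
    rw [← hu']
    exact h1.symm
  · intro v
    exact Subtype.ext (hc' v).symm

include h hf tw in
/-- The complement of the operators which vanish on the factor acts by scalars on the irreducible
submodules with an operator of rank one. -/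
theorem ind_scalar (hU : IrS (LZ Z) U) (hdim : 2 ≤ finrank ℂ U) (hr : Rk1 Z U)
    (hns : ∀ (σ : ℂ ≃+* ℂ) (c : ℂ), ∃ u ∈ U, DS Z σ *ᵥ u ≠ c • u) :
    ∀ X ∈ cm Z (KF Z E F), ∃ c : ℂ, ∀ u ∈ U, X *ᵥ u = c • u := by
  have hidl := idl_KF hf
  obtain ⟨D, -, N, hN, -, -, hN1⟩ := hr
  obtain ⟨u0, φ, hu0, hφ0, hNφ⟩ := rank_one hN hU.2.1 hN1
  obtain ⟨N1, hN1K, N2, hN2C, hN12⟩ := hidl.sum h hN
  have hN1L : N1 ∈ LZ Z := hN1K.1
  have hN2L : N2 ∈ LZ Z := hN2C.2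
  have hNsum : rs hU.2.1 ⟨N, hN⟩ = rs hU.2.1 ⟨N1, hN1L⟩ + rs hU.2.1 ⟨N2, hN2L⟩ := by
    rw [← rs_add]
    congr 1
    exact Subtype.ext hN12
  -- the first application
  have hAB : ∀ x ∈ rss hU.2.1 (KF Z E F : Set (Matrix (Fin G ⊕ Fin G) (Fin G ⊕ Fin G) ℂ)),
      ∀ y ∈ rss hU.2.1 (cm Z (KF Z E F) : Set (Matrix (Fin G ⊕ Fin G) (Fin G ⊕ Fin G) ℂ)),
        x * y = y * x := by
    rintro _ ⟨X, hX, rfl⟩ _ ⟨Y, hY, rfl⟩
    exact rs_comm _ (hidl.comm h hX hY)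
  have hirr : Irr2 (rss hU.2.1 (KF Z E F : Set (Matrix (Fin G ⊕ Fin G) (Fin G ⊕ Fin G) ℂ)))
      (rss hU.2.1 (cm Z (KF Z E F) : Set (Matrix (Fin G ⊕ Fin G) (Fin G ⊕ Fin G) ℂ))) := by
    intro W h1 h2
    have hs : Stab (LZ Z) (W.map U.subtype) := by
      rintro X hX _ ⟨w, hw, rfl⟩
      obtain ⟨X1, hX1, X2, hX2, rfl⟩ := hidl.sum h hX
      rw [add_mulVec]
      refine Submodule.add_mem _ ⟨rs hU.2.1 ⟨X1, hX1.1⟩ w, ?_, rfl⟩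
        ⟨rs hU.2.1 ⟨X2, hX2.2⟩ w, ?_, rfl⟩
      · exact h1 _ ⟨_, hX1, rfl⟩ w hw
      · exact h2 _ ⟨_, hX2, rfl⟩ w hw
    rcases hU.2.2 _ (Submodule.map_subtype_le U W) hs with h3 | h3
    · left
      rw [eq_bot_iff]
      intro w hw
      have h4 : (w : Fin G ⊕ Fin G → ℂ) ∈ W.map U.subtype := ⟨w, hw, rfl⟩
      rw [h3] at h4
      exact Subtype.ext h4
    · right
      rw [eq_top_iff]
      intro w _
      have h4 : (w : Fin G ⊕ Fin G → ℂ) ∈ W.map U.subtype := by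
        rw [h3]
        exact w.2
      obtain ⟨w', hw', h5⟩ := h4
      rwa [← Subtype.ext h5]
  rcases lemB hAB hirr hdim (a0 := rs hU.2.1 ⟨N1, hN1L⟩) (b0 := rs hU.2.1 ⟨N2, hN2L⟩)
    (by
      rintro _ ⟨Y, hY, rfl⟩
      exact rs_comm _ (hidl.comm h hN1K hY))
    (by
      rintro _ ⟨Y, hY, rfl⟩
      exact rs_comm _ (hidl.comm h hY hN2C).symm) hu0 hφ0 (by
      intro v
      rw [← hNsum]
      exact hNφ v) with hsc | hsc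
  swap
  · intro X hX
    obtain ⟨c, hc⟩ := hsc _ ⟨⟨X, hX.2⟩, hX, rfl⟩
    refine ⟨c, fun u hu => ?_⟩
    exact congrArg (fun f : End ℂ U => ((f ⟨u, hu⟩ : U) : Fin G ⊕ Fin G → ℂ)) hc
  -- the second application
  exfalso
  -- the lifts of the conjugates of the complex structure
  let S1 : Set (Matrix (Fin G ⊕ Fin G) (Fin G ⊕ Fin G) ℂ) :=
    {X | X ∈ cm Z (KF Z E F) ∧ cK ℂ F * X * cK ℂ E ∈ L1}
  let S2 : Set (Matrix (Fin G ⊕ Fin G) (Fin G ⊕ Fin G) ℂ) :=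
    {X | X ∈ cm Z (KF Z E F) ∧ cK ℂ F * X * cK ℂ E ∈ L2}
  have hS12 : ∀ X ∈ S1, ∀ Y ∈ S2, X * Y = Y * X := fun X hX Y hY =>
    comm_cm h hf hX.1 hY.1 (tw.c12 _ hX.2 _ hY.2)
  have hAB' : ∀ x ∈ rss hU.2.1 S1, ∀ y ∈ rss hU.2.1 S2, x * y = y * x := by
    rintro _ ⟨X, hX, rfl⟩ _ ⟨Y, hY, rfl⟩
    exact rs_comm _ (hS12 _ hX _ hY)
  -- the decomposition of the conjugates
  have hDS : ∀ σ : ℂ ≃+* ℂ, ∃ (c : ℂ) (X : Matrix (Fin G ⊕ Fin G) (Fin G ⊕ Fin G) ℂ)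
      (hX : X ∈ cm Z (KF Z E F)), cK ℂ F * X * cK ℂ E = DS Z' σ ∧
        ∀ u ∈ U, DS Z σ *ᵥ u = c • u + X *ᵥ u := by
    intro σ
    obtain ⟨X1, hX1, X2, hX2, hX12⟩ := hidl.sum h (DS_mem (Z := Z) σ)
    obtain ⟨c, hc⟩ := hsc _ ⟨⟨X1, hX1.1⟩, hX1, rfl⟩
    refine ⟨c, X2, hX2, ?_, fun u hu => ?_⟩
    · have h1 : cK ℂ F * DS Z σ * cK ℂ E = DS Z' σ := by
        rw [hf.fds, Matrix.mul_assoc, hf.fe', Matrix.mul_one]
      rw [← h1, hX12, Matrix.mul_add, Matrix.add_mul, hX1.2, zero_add]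
    · rw [hX12, add_mulVec]
      congr 1
      exact congrArg (fun f : End ℂ U => ((f ⟨u, hu⟩ : U) : Fin G ⊕ Fin G → ℂ)) hc
  have hirr' : Irr2 (rss hU.2.1 S1) (rss hU.2.1 S2) := by
    intro W h1 h2
    have hs : Stab (LZ Z) (W.map U.subtype) := by
      have h3 : LZ Z ≤ ({
          carrier := {X | ∀ u ∈ W.map U.subtype, X *ᵥ u ∈ W.map U.subtype}
          add_mem' := by
            intro A C hA hC u hu
            rw [add_mulVec]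
            exact Submodule.add_mem _ (hA u hu) (hC u hu)
          zero_mem' := by
            intro u hu
            rw [zero_mulVec]
            exact Submodule.zero_mem _
          smul_mem' := by
            intro c A hA u hu
            rw [smul_mulVec]
            exact Submodule.smul_mem _ _ (hA u hu) } :
          Submodule ℂ (Matrix (Fin G ⊕ Fin G) (Fin G ⊕ Fin G) ℂ)) := by
        refine LZ_le (fun σ => ?_) ?_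
        · rintro _ ⟨w, hw, rfl⟩
          obtain ⟨c, X, hX, hXF, hXU⟩ := hDS σ
          change DS Z σ *ᵥ (w : Fin G ⊕ Fin G → ℂ) ∈ W.map U.subtype
          rw [hXU w w.2]
          refine Submodule.add_mem _ (Submodule.smul_mem _ _ ⟨w, hw, rfl⟩)
            ⟨rs hU.2.1 ⟨X, hX.2⟩ w, ?_, rfl⟩
          rcases tw.ds σ with h4 | h4
          · exact h1 _ ⟨⟨X, hX.2⟩, ⟨hX, by rw [hXF]; exact h4⟩, rfl⟩ w hw
          · exact h2 _ ⟨⟨X, hX.2⟩, ⟨hX, by rw [hXF]; exact h4⟩, rfl⟩ w hw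
        · intro A hA C hC u hu
          rw [sub_mulVec, ← mulVec_mulVec, ← mulVec_mulVec]
          exact Submodule.sub_mem _ (hA _ (hC u hu)) (hC _ (hA u hu))
      exact fun X hX u hu => h3 hX u hu
    rcases hU.2.2 _ (Submodule.map_subtype_le U W) hs with h3 | h3
    · left
      rw [eq_bot_iff]
      intro w hw
      have h4 : (w : Fin G ⊕ Fin G → ℂ) ∈ W.map U.subtype := ⟨w, hw, rfl⟩
      rw [h3] at h4
      exact Subtype.ext h4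
    · right
      rw [eq_top_iff]
      intro w _
      have h4 : (w : Fin G ⊕ Fin G → ℂ) ∈ W.map U.subtype := by
        rw [h3]
        exact w.2
      obtain ⟨w', hw', h5⟩ := h4
      rwa [← Subtype.ext h5]
  -- the decomposition of the rank one operator
  obtain ⟨X1, hX1, hX1', X2, hX2, hX2', hX12⟩ := tw.dec _ (hf.comp hN2L).1
  obtain ⟨Y1, hY1, hY1'⟩ := lift_cm h hf hX1
  obtain ⟨Y2, hY2, hY2'⟩ := lift_cm h hf hX2
  have hN2' : N2 = Y1 + Y2 := by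
    refine eq_cm h hf hN2C (Submodule.add_mem _ hY1 hY2) ?_
    rw [Matrix.mul_add, Matrix.add_mul, hY1', hY2', hX12]
  obtain ⟨c1, hc1⟩ := hsc _ ⟨⟨N1, hN1L⟩, hN1K, rfl⟩
  have hnsc : ∀ σ : ℂ ≃+* ℂ, ∀ S : Set (Matrix (Fin G ⊕ Fin G) (Fin G ⊕ Fin G) ℂ),
      (∀ X ∈ cm Z (KF Z E F), cK ℂ F * X * cK ℂ E = DS Z' σ → X ∈ S) →
      ¬ ∀ x ∈ rss hU.2.1 S, ∃ c : ℂ, x = c • 1 := by
    intro σ S hS hcon
    obtain ⟨c, X, hX, hXF, hXU⟩ := hDS σ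
    obtain ⟨c', hc'⟩ := hcon _ ⟨⟨X, hX.2⟩, hS X hX hXF, rfl⟩
    obtain ⟨u, hu, hu'⟩ := hns σ (c + c')
    apply hu'
    rw [hXU u hu, add_smul]
    congr 1
    exact congrArg (fun f : End ℂ U => ((f ⟨u, hu⟩ : U) : Fin G ⊕ Fin G → ℂ)) hc'
  rcases lemB hAB' hirr' hdim (a0 := c1 • 1 + rs hU.2.1 ⟨Y1, hY1.2⟩) (b0 := rs hU.2.1 ⟨Y2, hY2.2⟩)
    (by
      rintro _ ⟨Y, hY, rfl⟩
      have h1 : rs hU.2.1 ⟨Y1, hY1.2⟩ * rs hU.2.1 Y = rs hU.2.1 Y * rs hU.2.1 ⟨Y1, hY1.2⟩ :=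
        rs_comm _ (hS12 _ ⟨hY1, by rw [hY1']; exact hX1'⟩ _ hY)
      rw [add_mul, mul_add, h1, smul_mul_assoc, mul_smul_comm, one_mul, mul_one])
    (by
      rintro _ ⟨Y, hY, rfl⟩
      exact rs_comm _ (hS12 _ hY _ ⟨hY2, by rw [hY2']; exact hX2'⟩).symm) hu0 hφ0 (by
      intro v
      rw [← hNφ v, hNsum, hc1]
      have h1 : rs hU.2.1 ⟨N2, hN2L⟩ = rs hU.2.1 ⟨Y1, hY1.2⟩ + rs hU.2.1 ⟨Y2, hY2.2⟩ := by
        rw [← rs_add]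
        congr 1
        exact Subtype.ext hN2'
      rw [h1, add_assoc]) with h1 | h1
  · obtain ⟨σ, hσ⟩ := tw.n1
    exact hnsc σ S1 (fun X hX hXF => ⟨hX, by rw [hXF]; exact hσ⟩) h1
  · obtain ⟨σ, hσ⟩ := tw.n2
    exact hnsc σ S2 (fun X hX hXF => ⟨hX, by rw [hXF]; exact hσ⟩) h1

end two

end

end Pool.Agent.L5helper19.TT
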