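import Mathlib
import Pool.Agent.R915.QE3
import Pool.Agent.R915.E1

/-!
# Abelian fourfolds with a definite quaternion algebra of endomorphisms
-/

set_option linter.unusedSectionVars false

namespace Pool.Agent.L5helper19.TT

open Matrix Module Pool.Agent.W437.HC Pool.Agent.W437.HD Pool.Agent.TH504.CB Pool.Agent.Y90
open Pool.Agent.R915
open Pool.Agent.W548.Odd hiding cv
open Pool.Agent.H204R3.CM (IsHodge)
open Pool.Agent.W437.HP (cK cK_mul cK_one)
open scoped ComplexOrder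

noncomputable section

variable {g : ℕ}

/-- The endomorphism algebra is the definite quaternion algebra with the generators `I`, `J`. -/
structure QM (Z : Matrix (Fin g) (Fin g) ℂ) (I J : Matrix (Fin g ⊕ Fin g) (Fin g ⊕ Fin g) ℚ)
    (a b : ℚ) : Prop where
  pa : 0 < a
  pb : 0 < b
  sI : I * I = -(a • (1 : Matrix (Fin g ⊕ Fin g) (Fin g ⊕ Fin g) ℚ))
  sJ : J * J = -(b • (1 : Matrix (Fin g ⊕ Fin g) (Fin g ⊕ Fin g) ℚ))
  anti : I * J = -(J * I)
  cI : qm I * DZ Z = DZ Z * qm I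
  cJ : qm J * DZ Z = DZ Z * qm J
  gen : ∀ R : Matrix (Fin g ⊕ Fin g) (Fin g ⊕ Fin g) ℚ, qm R * DZ Z = DZ Z * qm R →
    ∃ x y z w : ℚ, R = x • 1 + y • I + z • J + w • (I * J)

theorem qm_add (A B : Matrix (Fin g ⊕ Fin g) (Fin g ⊕ Fin g) ℚ) : qm (A + B) = qm A + qm B := by
  ext i j
  simp

theorem qm_one : qm (1 : Matrix (Fin g ⊕ Fin g) (Fin g ⊕ Fin g) ℚ) = 1 := cK_one ℂ

/-- The adjoint. -/
def adj (R : Matrix (Fin g ⊕ Fin g) (Fin g ⊕ Fin g) ℚ) :
    Matrix (Fin g ⊕ Fin g) (Fin g ⊕ Fin g) ℚ := -(Om g ℚ * Rᵀ * Om g ℚ)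

theorem qm_Om : qm (Om g ℚ) = Om g ℂ := by
  ext i j
  rcases i with i | i <;> rcases j with j | j <;>
    simp [Om, Matrix.one_apply, apply_ite]

theorem om_adj (R : Matrix (Fin g ⊕ Fin g) (Fin g ⊕ Fin g) ℚ) (u v : Fin g ⊕ Fin g → ℂ) :
    om g (qm R *ᵥ u) v = om g u (qm (adj R) *ᵥ v) := by
  have h1 : qm (adj R) = -(Om g ℂ * (qm R)ᵀ * Om g ℂ) := by
    unfold adj
    rw [← qm_Om]
    have h2 : ∀ A : Matrix (Fin g ⊕ Fin g) (Fin g ⊕ Fin g) ℚ, qm (-A) = -qm A := fun A => by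
      ext i j
      simp
    rw [h2, qm_mul, qm_mul]
    rfl
  rw [om_apply, om_apply, h1, mulVec_mulVec, Matrix.mul_neg, ← Matrix.mul_assoc,
    ← Matrix.mul_assoc, Om_sq, neg_one_mul, neg_mul, neg_neg, ← mulVec_mulVec,
    dotProduct_mulVec u, vecMul_transpose]

theorem om_nd' (v : Fin g ⊕ Fin g → ℂ) (hv : ∀ u, om g u v = 0) : v = 0 :=
  om_nd v fun u => by rw [om_anti, hv, neg_zero]

variable {Z : Matrix (Fin g) (Fin g) ℂ} {I J : Matrix (Fin g ⊕ Fin g) (Fin g ⊕ Fin g) ℚ} {a b : ℚ}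

theorem adj_comm (h : PM Z) {R : Matrix (Fin g ⊕ Fin g) (Fin g ⊕ Fin g) ℚ}
    (hR : qm R * DZ Z = DZ Z * qm R) : qm (adj R) * DZ Z = DZ Z * qm (adj R) := by
  refine eq_of_mulVec fun v => ?_
  rw [← sub_eq_zero]
  refine om_nd' _ fun u => ?_
  rw [map_sub, ← mulVec_mulVec, ← mulVec_mulVec, ← om_adj]
  have h1 := h.om_sp DZ_mem (qm R *ᵥ u) v
  have h2 := h.om_sp DZ_mem u (qm (adj R) *ᵥ v)
  rw [← om_adj, mulVec_mulVec, hR, ← mulVec_mulVec] at h2
  linear_combination h1 - h2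

theorem adj_add (A B : Matrix (Fin g ⊕ Fin g) (Fin g ⊕ Fin g) ℚ) :
    adj (A + B) = adj A + adj B := by
  unfold adj
  rw [transpose_add, Matrix.mul_add, Matrix.add_mul, neg_add]

theorem adj_mul (A B : Matrix (Fin g ⊕ Fin g) (Fin g ⊕ Fin g) ℚ) :
    adj (A * B) = adj B * adj A := by
  unfold adj
  have h1 : Om g ℚ * Om g ℚ = -1 := Om_sq ℚ
  rw [transpose_mul, neg_mul_neg]
  calc -(Om g ℚ * (Bᵀ * Aᵀ) * Om g ℚ) = Om g ℚ * Bᵀ * (-1) * Aᵀ * Om g ℚ := by noncomm_ring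
  _ = Om g ℚ * Bᵀ * (Om g ℚ * Om g ℚ) * Aᵀ * Om g ℚ := by rw [h1]
  _ = _ := by noncomm_ring

theorem adj_adj (A : Matrix (Fin g ⊕ Fin g) (Fin g ⊕ Fin g) ℚ) : adj (adj A) = A := by
  unfold adj
  have h1 : Om g ℚ * Om g ℚ = -1 := Om_sq ℚ
  have h2 : (Om g ℚ)ᵀ = -Om g ℚ := Om_transpose ℚ
  rw [transpose_neg, transpose_mul, transpose_mul, transpose_transpose, h2]
  calc -(Om g ℚ * -(-Om g ℚ * (A * -Om g ℚ)) * Om g ℚ) =
      (Om g ℚ * Om g ℚ) * A * (Om g ℚ * Om g ℚ) := by noncomm_ring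
  _ = _ := by rw [h1]; noncomm_ring

theorem adj_smul (c : ℚ) (A : Matrix (Fin g ⊕ Fin g) (Fin g ⊕ Fin g) ℚ) :
    adj (c • A) = c • adj A := by
  unfold adj
  rw [transpose_smul, Matrix.mul_smul, Matrix.smul_mul, smul_neg]

theorem adj_one : adj (1 : Matrix (Fin g ⊕ Fin g) (Fin g ⊕ Fin g) ℚ) = 1 := by
  unfold adj
  have h1 : Om g ℚ * Om g ℚ = -1 := Om_sq ℚ
  rw [transpose_one, Matrix.mul_one, h1, neg_neg]

/-- Symmetric endomorphisms whose square is a negative number vanish. -/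
theorem sym_neg (h : PM Z) (hg : 0 < g) {R : Matrix (Fin g ⊕ Fin g) (Fin g ⊕ Fin g) ℚ}
    (hR : qm R * DZ Z = DZ Z * qm R) (hs : adj R = R) {d : ℚ} (hd : 0 ≤ d)
    (hsq : R * R = -(d • (1 : Matrix (Fin g ⊕ Fin g) (Fin g ⊕ Fin g) ℚ))) : d = 0 := by
  obtain ⟨w, hw⟩ : ∃ w : Fin g ⊕ Fin g → ℂ, w ≠ 0 :=
    ⟨Pi.single (Sum.inl ⟨0, hg⟩) 1, fun h1 => by
      have h2 := congrFun h1 (Sum.inl ⟨0, hg⟩)
      rw [Pi.single_eq_same] at h2
      exact one_ne_zero h2⟩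
  by_contra hd0
  have hd' : 0 < d := lt_of_le_of_ne hd (Ne.symm hd0)
  have hRR : ∀ v, qm R *ᵥ (qm R *ᵥ v) = (-(d : ℂ)) • v := by
    intro v
    have h1 : qm R * qm R = (-(d : ℂ)) • 1 := by
      rw [← qm_mul, hsq]
      ext i j
      by_cases hij : i = j
      · subst hij
        simp
      · simp [hij]
    rw [mulVec_mulVec, h1, smul_mulVec, one_mulVec]
  have hRw : qm R *ᵥ w ≠ 0 := by
    intro h1
    have h2 := hRR w
    rw [h1, mulVec_zero, eq_comm, smul_eq_zero, neg_eq_zero] at h2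
    rcases h2 with h2 | h2
    · exact hd0 (by exact_mod_cast h2)
    · exact hw h2
  have h1 := h.herm_pos hw
  have h2 := h.herm_pos hRw
  have h3 : Complex.I * om g (cnj (qm R *ᵥ w)) (DZ Z *ᵥ (qm R *ᵥ w)) =
      -(d : ℂ) * (Complex.I * om g (cnj w) (DZ Z *ᵥ w)) := by
    have h4 : cnj (qm R *ᵥ w) = qm R *ᵥ cnj w := by
      rw [cnj_mulVec]
      have h5 : (qm R).map cc = qm R := cK_aut cc R
      rw [h5]
    rw [h4, om_adj, hs, mulVec_mulVec, hR, ← mulVec_mulVec, hRR, mulVec_smul, map_smul,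
      smul_eq_mul]
    ring
  rw [h3] at h2
  generalize Complex.I * om g (cnj w) (DZ Z *ᵥ w) = z at h1 h2
  have h5 := (Complex.lt_def.1 h1).1
  have h6 := (Complex.lt_def.1 h2).1
  have h7 : (-(d : ℂ) * z).re = -((d : ℝ) * z.re) := by
    have h8 : -(d : ℂ) * z = ((-(d : ℝ) : ℝ) : ℂ) * z := by
      push_cast
      rfl
    rw [h8, Complex.re_ofReal_mul]
    ring
  rw [h7] at h6
  rw [Complex.zero_re] at h5 h6
  have h9 : (0 : ℝ) < (d : ℝ) := by exact_mod_cast hd'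
  have h10 := mul_pos h9 h5
  linarith

variable (h : PM Z) (hg : 0 < g) (k : QM Z I J a b)

include k

theorem QM.pure_sq (y z w : ℚ) : (y • I + z • J + w • (I * J)) * (y • I + z • J + w • (I * J)) =
    -((y * y * a + z * z * b + w * w * (a * b)) •
      (1 : Matrix (Fin g ⊕ Fin g) (Fin g ⊕ Fin g) ℚ)) := by
  have hJI : J * I = -(I * J) := by rw [k.anti, neg_neg]
  have e1 : I * (I * J) = -(a • J) := by
    rw [← Matrix.mul_assoc, k.sI, Matrix.neg_mul, Matrix.smul_mul, Matrix.one_mul]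
  have e2 : (I * J) * I = a • J := by
    rw [Matrix.mul_assoc, hJI, Matrix.mul_neg, e1, neg_neg]
  have e3 : J * (I * J) = b • I := by
    rw [← Matrix.mul_assoc, hJI, Matrix.neg_mul, Matrix.mul_assoc, k.sJ, Matrix.mul_neg, neg_neg,
      Matrix.mul_smul, Matrix.mul_one]
  have e4 : (I * J) * J = -(b • I) := by
    rw [Matrix.mul_assoc, k.sJ, Matrix.mul_neg, Matrix.mul_smul, Matrix.mul_one]
  have e5 : (I * J) * (I * J) = -((a * b) • (1 : Matrix (Fin g ⊕ Fin g) (Fin g ⊕ Fin g) ℚ)) := by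
    rw [Matrix.mul_assoc, e3, Matrix.mul_smul, k.sI, smul_neg, smul_smul, mul_comm b a]
  simp only [Matrix.add_mul, Matrix.mul_add, Matrix.smul_mul, Matrix.mul_smul, k.sI, k.sJ, hJI, e1,
    e2, e3, e4, e5]
  module

include h hg

theorem QM.sym {R : Matrix (Fin g ⊕ Fin g) (Fin g ⊕ Fin g) ℚ} {x y z w : ℚ}
    (hR : R = x • 1 + y • I + z • J + w • (I * J)) (hs : adj R = R) : y = 0 ∧ z = 0 ∧ w = 0 := by
  have h1 : adj (y • I + z • J + w • (I * J)) = y • I + z • J + w • (I * J) := by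
    have h2 : y • I + z • J + w • (I * J) = R + (-x) • 1 := by
      rw [hR]
      module
    rw [h2, adj_add, hs, adj_smul, adj_one]
  have h2 : qm (y • I + z • J + w • (I * J)) * DZ Z = DZ Z * qm (y • I + z • J + w • (I * J)) := by
    rw [qm_add, qm_add, qm_smul, qm_smul, qm_smul, qm_mul]
    simp only [Matrix.add_mul, Matrix.mul_add, Matrix.smul_mul, Matrix.mul_smul, k.cI, k.cJ,
      Matrix.mul_assoc]
    rw [← Matrix.mul_assoc (qm I), k.cI, Matrix.mul_assoc]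
  have h4 : 0 ≤ y * y * a := mul_nonneg (mul_self_nonneg y) k.pa.le
  have h5 : 0 ≤ z * z * b := mul_nonneg (mul_self_nonneg z) k.pb.le
  have h6 : 0 ≤ w * w * (a * b) := mul_nonneg (mul_self_nonneg w) (mul_pos k.pa k.pb).le
  have h3 := sym_neg h hg h2 h1 (d := y * y * a + z * z * b + w * w * (a * b))
    (add_nonneg (add_nonneg h4 h5) h6) (k.pure_sq y z w)
  have h7 : y * y * a = 0 := by linarith
  have h8 : z * z * b = 0 := by linarith
  have h9 : w * w * (a * b) = 0 := by linarith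
  refine ⟨?_, ?_, ?_⟩
  · exact mul_self_eq_zero.1 ((mul_eq_zero.1 h7).resolve_right k.pa.ne')
  · exact mul_self_eq_zero.1 ((mul_eq_zero.1 h8).resolve_right k.pb.ne')
  · exact mul_self_eq_zero.1 ((mul_eq_zero.1 h9).resolve_right (mul_pos k.pa k.pb).ne')

/-- The linear independence of the basis of the quaternion algebra. -/
theorem QM.indep {x y z w : ℚ} (h0 : x • 1 + y • I + z • J + w • (I * J) = 0) :
    x = 0 ∧ y = 0 ∧ z = 0 ∧ w = 0 := by
  have h1 := k.sym h hg h0.symm (by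
    unfold adj
    rw [transpose_zero, Matrix.mul_zero, Matrix.zero_mul, neg_zero])
  obtain ⟨rfl, rfl, rfl⟩ := h1
  rw [zero_smul, zero_smul, zero_smul, add_zero, add_zero, add_zero] at h0
  have h2 := congrFun (congrFun h0 (Sum.inl ⟨0, hg⟩)) (Sum.inl ⟨0, hg⟩)
  rw [Matrix.smul_apply, Matrix.one_apply_eq, smul_eq_mul, mul_one, Matrix.zero_apply] at h2
  exact ⟨h2, rfl, rfl, rfl⟩

/-- The Rosati involution. -/
theorem QM.adjI : adj I = -I := by
  obtain ⟨x, y, z, w, h1⟩ := k.gen (adj I) (adj_comm h k.cI)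
  -- the sum is symmetric
  have h2 := k.sym h hg (R := I + adj I) (x := x) (y := y + 1) (z := z) (w := w) (by
    rw [h1]
    module) (by rw [adj_add, adj_adj, add_comm])
  obtain ⟨h3, rfl, rfl⟩ := h2
  have h4 : y = -1 := by linarith
  subst h4
  have h5 : adj I = x • 1 - I := by
    rw [h1]
    module
  have h6 := k.sym h hg (R := I * adj I) (x := a) (y := x) (z := 0) (w := 0) (by
    rw [h5, Matrix.mul_sub, Matrix.mul_smul, Matrix.mul_one, k.sI]
    module) (by rw [adj_mul, adj_adj])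
  rw [h5, h6.1, zero_smul, zero_sub]

theorem QM.adjJ : adj J = -J := by
  obtain ⟨x, y, z, w, h1⟩ := k.gen (adj J) (adj_comm h k.cJ)
  -- the sum is symmetric
  have h2 := k.sym h hg (R := J + adj J) (x := x) (y := y) (z := z + 1) (w := w) (by
    rw [h1]
    module) (by rw [adj_add, adj_adj, add_comm])
  obtain ⟨rfl, h3, rfl⟩ := h2
  have h4 : z = -1 := by linarith
  subst h4
  have h5 : adj J = x • 1 - J := by
    rw [h1]
    module
  have h6 := k.sym h hg (R := J * adj J) (x := b) (y := 0) (z := x) (w := 0) (by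
    rw [h5, Matrix.mul_sub, Matrix.mul_smul, Matrix.mul_one, k.sJ]
    module) (by rw [adj_mul, adj_adj])
  rw [h5, h6.2.1, zero_smul, zero_sub]

theorem QM.omI (u v : Fin g ⊕ Fin g → ℂ) : om g (qm I *ᵥ u) v = -om g u (qm I *ᵥ v) := by
  have h2 : qm (-I) = -qm I := by
    ext i j
    simp
  rw [om_adj, k.adjI h hg, h2, neg_mulVec, map_neg]

theorem QM.omJ (u v : Fin g ⊕ Fin g → ℂ) : om g (qm J *ᵥ u) v = -om g u (qm J *ᵥ v) := by
  have h2 : qm (-J) = -qm J := by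
    ext i j
    simp
  rw [om_adj, k.adjJ h hg, h2, neg_mulVec, map_neg]

/-- The commutant. -/
theorem QM.span {T : Matrix (Fin g ⊕ Fin g) (Fin g ⊕ Fin g) ℂ}
    (hT : ∀ X ∈ LZ Z, T * X = X * T) :
    ∃ x y z w : ℂ, T = x • 1 + y • qm I + z • qm J + w • (qm I * qm J) := by
  have h1 : T ∈ Submodule.span ℂ (TT Z Z : Set (Matrix (Fin g ⊕ Fin g) (Fin g ⊕ Fin g) ℂ)) :=
    exp_mem fun σ => hT _ (DS_mem σ)
  clear hT
  induction h1 using Submodule.span_induction with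
  | mem T hT' =>
    obtain ⟨R, rfl, hR⟩ := hT'
    obtain ⟨x, y, z, w, rfl⟩ := k.gen R hR
    refine ⟨x, y, z, w, ?_⟩
    change qm _ = _
    rw [qm_add, qm_add, qm_add, qm_smul, qm_smul, qm_smul, qm_smul, qm_mul, qm_one]
  | zero => exact ⟨0, 0, 0, 0, by simp⟩
  | add A B _ _ hA hB =>
    obtain ⟨x, y, z, w, hA⟩ := hA
    obtain ⟨x', y', z', w', hB⟩ := hB
    exact ⟨x + x', y + y', z + z', w + w', by rw [hA, hB]; module⟩
  | smul c A _ hA =>
    obtain ⟨x, y, z, w, hA⟩ := hA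
    exact ⟨c * x, c * y, c * z, c * w, by rw [hA]; module⟩

end

end Pool.Agent.L5helper19.TT
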