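import Mathlib
import Pool.Agent.L5helper19.TT.QM1

/-!
# The eigenspaces of the quaternion algebra
-/

set_option linter.unusedSectionVars false

namespace Pool.Agent.L5helper19.TT

open Matrix Module Pool.Agent.W437.HC Pool.Agent.W437.HD Pool.Agent.TH504.CB Pool.Agent.Y90
open Pool.Agent.R915
open Pool.Agent.W548.Odd hiding cv
open Pool.Agent.H204R3.CM (IsHodge)
open Pool.Agent.W437.HP (cK cK_mul cK_one)
open scoped ComplexOrder

noncomputable section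

variable {g : ℕ} {Z : Matrix (Fin g) (Fin g) ℂ} {I J : Matrix (Fin g ⊕ Fin g) (Fin g ⊕ Fin g) ℚ}
  {a b : ℚ}

/-- The eigenspaces. -/
def EW (I : Matrix (Fin g ⊕ Fin g) (Fin g ⊕ Fin g) ℚ) (α : ℂ) :
    Submodule ℂ (Fin g ⊕ Fin g → ℂ) where
  carrier := {v | qm I *ᵥ v = α • v}
  add_mem' := by
    intro a b ha hb
    change qm I *ᵥ (a + b) = α • (a + b)
    rw [mulVec_add, ha, hb, smul_add]
  zero_mem' := by
    change qm I *ᵥ 0 = α • 0
    rw [mulVec_zero, smul_zero]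
  smul_mem' := by
    intro c a ha
    change qm I *ᵥ (c • a) = α • c • a
    rw [mulVec_smul, ha, smul_comm]

theorem mem_EW {α : ℂ} {v : Fin g ⊕ Fin g → ℂ} : v ∈ EW I α ↔ qm I *ᵥ v = α • v := Iff.rfl

section basic

variable (k : QM Z I J a b) {α : ℂ} (hα : α * α = -(a : ℂ))
include k

theorem QM.sqI (v : Fin g ⊕ Fin g → ℂ) : qm I *ᵥ (qm I *ᵥ v) = (-(a : ℂ)) • v := by
  have h1 : qm I * qm I = (-(a : ℂ)) • 1 := by
    rw [← qm_mul, k.sI]
    ext i j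
    by_cases hij : i = j
    · subst hij
      simp
    · simp [hij]
  rw [mulVec_mulVec, h1, smul_mulVec, one_mulVec]

theorem QM.sqJ (v : Fin g ⊕ Fin g → ℂ) : qm J *ᵥ (qm J *ᵥ v) = (-(b : ℂ)) • v := by
  have h1 : qm J * qm J = (-(b : ℂ)) • 1 := by
    rw [← qm_mul, k.sJ]
    ext i j
    by_cases hij : i = j
    · subst hij
      simp
    · simp [hij]
  rw [mulVec_mulVec, h1, smul_mulVec, one_mulVec]

theorem QM.IJ (v : Fin g ⊕ Fin g → ℂ) : qm I *ᵥ (qm J *ᵥ v) = -(qm J *ᵥ (qm I *ᵥ v)) := by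
  have h1 : qm I * qm J = -(qm J * qm I) := by
    rw [← qm_mul, k.anti, ← qm_mul]
    ext i j
    simp
  rw [mulVec_mulVec, h1, neg_mulVec, ← mulVec_mulVec]

theorem QM.LI {X : Matrix (Fin g ⊕ Fin g) (Fin g ⊕ Fin g) ℂ} (hX : X ∈ LZ Z)
    (v : Fin g ⊕ Fin g → ℂ) : X *ᵥ (qm I *ᵥ v) = qm I *ᵥ (X *ᵥ v) := by
  rw [mulVec_mulVec, commL_of k.cI X hX, ← mulVec_mulVec]

theorem QM.LJ {X : Matrix (Fin g ⊕ Fin g) (Fin g ⊕ Fin g) ℂ} (hX : X ∈ LZ Z)
    (v : Fin g ⊕ Fin g → ℂ) : X *ᵥ (qm J *ᵥ v) = qm J *ᵥ (X *ᵥ v) := by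
  rw [mulVec_mulVec, commL_of k.cJ X hX, ← mulVec_mulVec]

theorem QM.Jmem {α : ℂ} {v : Fin g ⊕ Fin g → ℂ} (hv : v ∈ EW I α) : qm J *ᵥ v ∈ EW I (-α) := by
  rw [mem_EW] at hv ⊢
  rw [k.IJ, hv, mulVec_smul, neg_smul]

theorem QM.b_ne : (b : ℂ) ≠ 0 := by exact_mod_cast k.pb.ne'

theorem QM.Jinj {v : Fin g ⊕ Fin g → ℂ} (hv : qm J *ᵥ v = 0) : v = 0 := by
  have h1 := k.sqJ v
  rw [hv, mulVec_zero, eq_comm, smul_eq_zero, neg_eq_zero] at h1
  exact h1.resolve_left k.b_ne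

include hα in
theorem QM.al_ne : α ≠ 0 := by
  rintro rfl
  rw [mul_zero, eq_comm, neg_eq_zero] at hα
  exact k.pa.ne' (by exact_mod_cast hα)

theorem QM.stabW (α : ℂ) : Stab (LZ Z) (EW I α) := by
  intro X hX v hv
  rw [mem_EW] at hv ⊢
  rw [← k.LI hX, hv, mulVec_smul]

include hα in
theorem QM.disj : EW I α ⊓ EW I (-α) = ⊥ := by
  rw [eq_bot_iff]
  rintro v ⟨h1, h2⟩
  have h3 : α • v = (-α) • v := by rw [← mem_EW.1 h1, ← mem_EW.1 h2]
  rw [← sub_eq_zero, ← sub_smul, smul_eq_zero] at h3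
  rcases h3 with h3 | h3
  · exfalso
    apply k.al_ne hα
    linear_combination (1 / 2 : ℂ) * h3
  · rw [Submodule.mem_bot]
    exact h3

include hα in
/-- The projections. -/
theorem QM.exists_dec (v : Fin g ⊕ Fin g → ℂ) : pj I α v ∈ EW I α ∧ v - pj I α v ∈ EW I (-α) := by
  have h0 := k.al_ne hα
  have h1 : qm I *ᵥ pj I α v = α • pj I α v := by
    rw [pj_apply, mulVec_smul, mulVec_add, mulVec_smul, k.sqI, ← hα]
    module
  refine ⟨h1, ?_⟩
  rw [mem_EW, mulVec_sub, h1]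
  have h2 : qm I *ᵥ v = (2 * α) • pj I α v - α • v := by
    rw [pj_apply, smul_smul, mul_inv_cancel₀ (mul_ne_zero two_ne_zero h0), one_smul,
      add_sub_cancel_right]
  rw [h2]
  module

include hα in
theorem QM.sup : EW I α ⊔ EW I (-α) = ⊤ := by
  rw [eq_top_iff]
  intro v _
  obtain ⟨h1, h2⟩ := k.exists_dec hα v
  have h3 : v = pj I α v + (v - pj I α v) := by abel
  rw [h3]
  exact Submodule.add_mem_sup h1 h2

theorem QM.mapJ (α : ℂ) : (EW I α).map (mulVecLin (qm J)) = EW I (-α) := by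
  apply le_antisymm
  · rintro _ ⟨v, hv, rfl⟩
    exact k.Jmem hv
  · intro v hv
    refine ⟨(-(b : ℂ))⁻¹ • (qm J *ᵥ v), Submodule.smul_mem _ _ ?_, ?_⟩
    · have h1 := k.Jmem hv
      rwa [neg_neg] at h1
    · rw [map_smul, mulVecLin_apply, k.sqJ, smul_smul, inv_mul_cancel₀ (neg_ne_zero.2 k.b_ne),
        one_smul]

include hα in
theorem QM.dimW : finrank ℂ (EW I α) = g := by
  have h1 := Submodule.finrank_sup_add_finrank_inf_eq (EW I α) (EW I (-α))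
  rw [k.sup hα, k.disj hα, finrank_bot, finrank_top, Module.finrank_fintype_fun_eq_card,
    Fintype.card_sum, Fintype.card_fin] at h1
  have h2 : finrank ℂ (EW I (-α)) = finrank ℂ (EW I α) := by
    rw [← k.mapJ]
    exact finrank_map_of_inj fun u _ hu => k.Jinj hu
  omega

end basic

variable (h : PM Z) (hg : 0 < g) (k : QM Z I J a b) {α : ℂ} (hα : α * α = -(a : ℂ))
include h hg k hα

/-- The eigenspaces are isotropic. -/
theorem QM.isoW {u v : Fin g ⊕ Fin g → ℂ} (hu : u ∈ EW I α) (hv : v ∈ EW I α) : om g u v = 0 := by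
  have h1 := k.omI h hg u v
  rw [mem_EW.1 hu, mem_EW.1 hv, map_smul, map_smul, LinearMap.smul_apply, smul_eq_mul] at h1
  have h2 : (2 * α) * om g u v = 0 := by linear_combination h1
  exact (mul_eq_zero.1 h2).resolve_left (mul_ne_zero two_ne_zero (k.al_ne hα))

theorem QM.kw : KW Z (EW I α) I α a where
  dim := k.dimW hα
  comm := commL_of k.cI
  pos := k.pa
  sq := k.sI
  al := hα
  mem _ := Iff.rfl
  isot _ hu _ hv := k.isoW h hg hα hu hv

/-- The eigenspaces are irreducible. -/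
theorem QM.irr : IrS (LZ Z) (EW I α) := by
  refine ⟨?_, k.stabW α, fun U hU hs => ?_⟩
  · intro h1
    have h2 := k.dimW hα
    rw [h1, finrank_bot] at h2
    omega
  by_cases h0 : U = ⊥
  · exact Or.inl h0
  right
  obtain ⟨π, hπ1, hπ2, hπ3⟩ := h.cred U hs
  obtain ⟨T, hT⟩ : ∃ T : Matrix (Fin g ⊕ Fin g) (Fin g ⊕ Fin g) ℂ, ∀ v, T *ᵥ v = π v :=
    ⟨LinearMap.toMatrix' π, fun v => LinearMap.toMatrix'_mulVec _ _⟩
  obtain ⟨x, y, z, w, hxy⟩ := k.span h hg (T := T) fun X hX => eq_of_mulVec fun v => by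
    rw [← mulVec_mulVec, ← mulVec_mulVec, hT, hT, hπ1 X hX]
  have hπ : ∀ v ∈ EW I α, π v = (x + y * α) • v := by
    intro v hv
    have h1 : π v = (x + y * α) • v + (z - w * α) • (qm J *ᵥ v) := by
      rw [← hT, hxy, add_mulVec, add_mulVec, add_mulVec, smul_mulVec, smul_mulVec, smul_mulVec,
        smul_mulVec, one_mulVec, ← mulVec_mulVec, k.IJ, mem_EW.1 hv, mulVec_smul]
      module
    have h2 : (z - w * α) • (qm J *ᵥ v) ∈ EW I α ⊓ EW I (-α) := by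
      refine ⟨?_, Submodule.smul_mem _ _ (k.Jmem hv)⟩
      have h3 : (z - w * α) • (qm J *ᵥ v) = π v - (x + y * α) • v := by
        rw [h1]
        abel
      rw [h3]
      exact Submodule.sub_mem _ (hU (hπ2 v)) (Submodule.smul_mem _ _ hv)
    rw [k.disj hα, Submodule.mem_bot] at h2
    rw [h1, h2, add_zero]
  obtain ⟨u, hu, hu0⟩ := Submodule.exists_mem_ne_zero_of_ne_bot h0
  have h4 : x + y * α = 1 := by
    have h5 := hπ3 u hu
    rw [hπ u (hU hu)] at h5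
    have h6 : (x + y * α - 1) • u = 0 := by rw [sub_smul, h5, one_smul, sub_self]
    exact sub_eq_zero.1 ((smul_eq_zero.1 h6).resolve_right hu0)
  apply le_antisymm hU
  intro v hv
  have h5 := hπ2 v
  rwa [hπ v hv, h4, one_smul] at h5

theorem QM.pq (hg4 : g = 4) : pd Z (EW I α) = 2 ∧ qd Z (EW I α) = 2 := by
  have h1 := pd_add_qd h (k.stabW α)
  rw [k.dimW hα] at h1
  have h2 : cjS cc (EW I α) = EW I (-α) := by
    ext v
    rw [(k.kw h hg hα).cj, (k.kw h hg hα).cc_al, mem_EW]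
  have h3 := pd_cc (Z := Z) (EW I α)
  rw [h2, ← k.mapJ] at h3
  have h4 := pd_iso (Z := Z) (U := EW I α) (T := mulVecLin (qm J)) (fun X hX u _ => (k.LJ hX u).symm)
    (fun u _ hu => k.Jinj hu) (k.stabW α) rfl
  omega

/-- The quadratic form. -/
theorem QM.qsymm (u v : Fin g ⊕ Fin g → ℂ) : om g u (qm J *ᵥ v) = om g v (qm J *ᵥ u) := by
  have h1 := k.omJ h hg v u
  rw [om_anti (qm J *ᵥ v) u] at h1
  linear_combination -h1

/-- The quadratic form is nondegenerate. -/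
theorem QM.qnd {u : Fin g ⊕ Fin g → ℂ} (hu : u ∈ EW I α)
    (h0 : ∀ v ∈ EW I α, om g u (qm J *ᵥ v) = 0) : u = 0 := by
  refine om_nd u fun v => ?_
  obtain ⟨h1, h2⟩ := k.exists_dec hα v
  have h3 : v = pj I α v + (v - pj I α v) := by abel
  rw [← k.mapJ] at h2
  obtain ⟨w, hw, hw'⟩ := h2
  rw [h3, map_add, k.isoW h hg hα hu h1, ← hw', mulVecLin_apply, h0 w hw, add_zero]

/-- The quadratic form is invariant. -/
theorem QM.qinv {X : Matrix (Fin g ⊕ Fin g) (Fin g ⊕ Fin g) ℂ} (hX : X ∈ LZ Z)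
    (u v : Fin g ⊕ Fin g → ℂ) : om g (X *ᵥ u) (qm J *ᵥ v) = -om g u (qm J *ᵥ (X *ᵥ v)) := by
  have h1 := h.om_sp hX u (qm J *ᵥ v)
  rw [k.LJ hX] at h1
  linear_combination h1

end

end Pool.Agent.L5helper19.TT
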