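import Mathlib
import Pool.Agent.L5helper19.TT.QM2
import Pool.Agent.L5helper19.TT.Dual

/-!
# The structure of the standard representation of a fourfold of type III
-/

set_option linter.unusedSectionVars false

namespace Pool.Agent.L5helper19.TT

open Matrix Module Pool.Agent.W437.HC Pool.Agent.W437.HD Pool.Agent.TH504.CB Pool.Agent.Y90
open Pool.Agent.R915
open Pool.Agent.W548.Odd hiding cv
open Pool.Agent.H204R3.CM (IsHodge)
open Pool.Agent.W437.HP (cK cK_mul cK_one)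
open scoped ComplexOrder

noncomputable section

variable {g : ℕ} {Z : Matrix (Fin g) (Fin g) ℂ} {I J : Matrix (Fin g ⊕ Fin g) (Fin g ⊕ Fin g) ℚ}
  {a b : ℚ}

/-- The quadratic form. -/
def qq (J : Matrix (Fin g ⊕ Fin g) (Fin g ⊕ Fin g) ℚ) :
    (Fin g ⊕ Fin g → ℂ) →ₗ[ℂ] (Fin g ⊕ Fin g → ℂ) →ₗ[ℂ] ℂ :=
  (om g).compl₂ (mulVecLin (qm J))

theorem qq_apply (u v : Fin g ⊕ Fin g → ℂ) : qq J u v = om g u (qm J *ᵥ v) := rfl

/-- The decomposition into the eigenspaces of the complex structure. -/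
theorem split_eig (h : PM Z) {W : Submodule ℂ (Fin g ⊕ Fin g → ℂ)} (hW : Stab (LZ Z) W)
    {w : Fin g ⊕ Fin g → ℂ} (hw : w ∈ W) :
    ∃ u ∈ W ⊓ eig Z 1, ∃ v ∈ W ⊓ eig Z (-1), w = u + v := by
  have h0 : DZ Z *ᵥ (DZ Z *ᵥ w) = w := by
    rw [mulVec_mulVec, DZ_sq h.det, one_mulVec]
  refine ⟨(1 / 2 : ℂ) • (w + DZ Z *ᵥ w), ⟨?_, mem_eig.2 ?_⟩, (1 / 2 : ℂ) • (w - DZ Z *ᵥ w),
    ⟨?_, mem_eig.2 ?_⟩, ?_⟩
  · exact W.smul_mem _ (W.add_mem hw (hW _ DZ_mem _ hw))
  · rw [mulVec_smul, mulVec_add, h0]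
    module
  · exact W.smul_mem _ (W.sub_mem hw (hW _ DZ_mem _ hw))
  · rw [mulVec_smul, mulVec_sub, h0]
    module
  · module

variable (h : PM Z) (hg : 0 < g) (k : QM Z I J a b) {α : ℂ} (hα : α * α = -(a : ℂ))
include h hg k hα

/-- The dual basis. -/
theorem QM.exists_dual (hg4 : g = 4) {e : Fin 2 → Fin g ⊕ Fin g → ℂ}
    (he : ∀ i, e i ∈ EW I α ⊓ eig Z 1) (hind : LinearIndependent ℂ e) :
    ∃ f : Fin 2 → Fin g ⊕ Fin g → ℂ, (∀ i, f i ∈ EW I α ⊓ eig Z (-1)) ∧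
      Dual (EW I α) (qq J) e f := by
  obtain ⟨hp, hq⟩ := k.pq h hg hα hg4
  have hspan : Submodule.span ℂ (Set.range e) = EW I α ⊓ eig Z 1 := by
    refine Submodule.eq_of_le_of_finrank_eq ?_ ?_
    · rw [Submodule.span_le]
      rintro _ ⟨i, rfl⟩
      exact he i
    · rw [finrank_span_eq_card hind, Fintype.card_fin]
      exact hp.symm
  have hJe : ∀ {c : ℂ} {v : Fin g ⊕ Fin g → ℂ}, v ∈ eig Z c → qm J *ᵥ v ∈ eig Z c := by
    intro c v hv
    rw [mem_eig, k.LJ DZ_mem, mem_eig.1 hv, mulVec_smul]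
  have hiso : ∀ {c : ℂ} {u v : Fin g ⊕ Fin g → ℂ}, c ≠ 0 → u ∈ eig Z c → v ∈ eig Z c →
      qq J u v = 0 := fun hc hu hv => eig_iso h hc hu (hJe hv)
  have h1 : (1 : ℂ) ≠ 0 := one_ne_zero
  have h2 : (-1 : ℂ) ≠ 0 := neg_ne_zero.2 one_ne_zero
  let T : ↥(EW I α ⊓ eig Z (-1)) →ₗ[ℂ] (Fin 2 → ℂ) :=
    LinearMap.pi fun i => (qq J (e i)).domRestrict _
  have hTapp : ∀ f i, T f i = qq J (e i) f := fun f i => rfl
  have hinj : Function.Injective T := by
    rw [injective_iff_map_eq_zero]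
    intro f hf
    apply Subtype.ext
    change (f : Fin g ⊕ Fin g → ℂ) = 0
    refine k.qnd h hg hα f.2.1 fun v hv => ?_
    obtain ⟨u, hu, v', hv', rfl⟩ := split_eig h (k.stabW α) hv
    change qq J f (u + v') = 0
    rw [map_add, hiso h2 f.2.2 hv'.2, add_zero, qq_apply, k.qsymm h hg hα]
    rw [← hspan] at hu
    change qq J u f = 0
    clear hv
    induction hu using Submodule.span_induction with
    | mem x hx =>
      obtain ⟨i, rfl⟩ := hx
      rw [← hTapp, hf]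
      rfl
    | zero => rw [map_zero, LinearMap.zero_apply]
    | add x y _ _ hx hy =>
      rw [map_add, LinearMap.add_apply, hx, hy, add_zero]
    | smul c x _ hx => rw [map_smul, LinearMap.smul_apply, hx, smul_zero]
  have hsurj : Function.Surjective T := by
    rw [← LinearMap.injective_iff_surjective_of_finrank_eq_finrank]
    · exact hinj
    · rw [Module.finrank_fintype_fun_eq_card, Fintype.card_fin]
      exact hq
  choose f hf using fun i : Fin 2 => hsurj (Pi.single i 1)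
  have hef : ∀ i j, qq J (e i) (f j) = if i = j then 1 else 0 := by
    intro i j
    rw [← hTapp, hf, Pi.single_apply]
  have hsy : ∀ u v, qq J u v = qq J v u := fun u v => k.qsymm h hg hα u v
  refine ⟨fun i => f i, fun i => (f i).2, ⟨fun i => (he i).1, fun i => (f i).2.1, hsy,
    fun i j => hiso h1 (he i).2 (he j).2, fun i j => hiso h2 (f i).2.2 (f j).2.2, hef, ?_⟩⟩
  intro w hw
  obtain ⟨u, hu, v, hv, rfl⟩ := split_eig h (k.stabW α) hw
  have e1 : ∀ i, qq J (u + v) (f i) = qq J u (f i) := fun i => by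
    rw [map_add, LinearMap.add_apply, hiso h2 hv.2 (f i).2.2, add_zero]
  have e2 : ∀ i, qq J (u + v) (e i) = qq J v (e i) := fun i => by
    rw [map_add, LinearMap.add_apply, hiso h1 hu.2 (he i).2, zero_add]
  simp only [e1, e2]
  have e3 : u = ∑ i, qq J u (f i) • e i := by
    have hu' := hu
    rw [← hspan, Submodule.mem_span_range_iff_exists_fun] at hu'
    obtain ⟨c, rfl⟩ := hu'
    refine Finset.sum_congr rfl fun i _ => ?_
    congr 1
    rw [map_sum, LinearMap.sum_apply]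
    simp only [map_smul, LinearMap.smul_apply, hef, smul_eq_mul, mul_ite, mul_one, mul_zero]
    rw [Finset.sum_ite_eq' Finset.univ i, if_pos (Finset.mem_univ _)]
  have e4 : v = ∑ i, qq J v (e i) • (f i : Fin g ⊕ Fin g → ℂ) := by
    have h3 : (⟨v, hv⟩ : ↥(EW I α ⊓ eig Z (-1))) = ∑ i, qq J v (e i) • f i := by
      apply hinj
      rw [map_sum]
      funext j
      rw [Finset.sum_apply, hTapp]
      have h5 : ∀ i, T (qq J v (e i) • f i) j = if j = i then qq J v (e i) else 0 := by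
        intro i
        rw [map_smul, Pi.smul_apply, hTapp, hef, smul_eq_mul, mul_ite, mul_one, mul_zero]
      rw [Finset.sum_congr rfl fun i _ => h5 i, Finset.sum_ite_eq Finset.univ j,
        if_pos (Finset.mem_univ _), hsy]
    have h4 := congrArg (Subtype.val) h3
    rw [AddSubmonoidClass.coe_finsetSum] at h4
    exact h4
  rw [← e3, ← e4]

/-- The first pass. -/
theorem QM.pass (hg4 : g = 4) {e : Fin 2 → Fin g ⊕ Fin g → ℂ}
    (he : ∀ i, e i ∈ EW I α ⊓ eig Z 1) (hind : LinearIndependent ℂ e) :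
    ∃ bb : Fin 2 → Fin 2 → Fin g ⊕ Fin g → ℂ, (∀ i, bb i 0 = e i) ∧ Bs (EW I α) bb ∧
      (∀ X ∈ LZ Z, ∃ a c, Tl a ∧ Tl c ∧ Ten bb X a c) ∧ Ten bb (DZ Z) 0 !![1, 0; 0, -1] := by
  obtain ⟨f, hf, d⟩ := k.exists_dual h hg hα hg4 he hind
  refine ⟨bbx e f, fun i => ?_, d.bs, fun X hX => d.act (fun w hw => k.stabW α X hX w hw)
    (fun u v => k.qinv h hg hα hX u v), fun i j => ?_⟩
  · fin_cases i <;> rfl
  · rw [Fin.sum_univ_two, Fin.sum_univ_two]
    simp only [Matrix.zero_apply, zero_smul, add_zero, zero_add]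
    have h1 : ∀ i, DZ Z *ᵥ e i = e i := fun i => by
      rw [mem_eig.1 (he i).2, one_smul]
    have h2 : ∀ i, DZ Z *ᵥ f i = -f i := fun i => by
      rw [mem_eig.1 (hf i).2, neg_one_smul]
    fin_cases i <;> fin_cases j
    · change DZ Z *ᵥ e 0 = (1 : ℂ) • e 0 + (0 : ℂ) • f 1
      rw [h1]
      module
    · change DZ Z *ᵥ f 1 = (0 : ℂ) • e 0 + (-1 : ℂ) • f 1
      rw [h2]
      module
    · change DZ Z *ᵥ e 1 = (1 : ℂ) • e 1 + (0 : ℂ) • (-f 0)
      rw [h1]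
      module
    · change DZ Z *ᵥ (-f 0) = (0 : ℂ) • e 1 + (-1 : ℂ) • (-f 0)
      rw [mulVec_neg, h2]
      module

/-- Some conjugate of the complex structure belongs to the first factor. -/
theorem QM.exists_sigma (hg4 : g = 4) {bb : Fin 2 → Fin 2 → Fin g ⊕ Fin g → ℂ}
    (hb : Bs (EW I α) bb) (hT : ∀ X ∈ LZ Z, ∃ a c, Tl a ∧ Tl c ∧ Ten bb X a c) :
    ∃ σ : ℂ ≃+* ℂ, ∃ a, Tl a ∧ a ≠ 0 ∧ Ten bb (DS Z σ) a 0 := by
  by_contra hcon
  push Not at hcon
  have h1 : LZ Z ≤ ({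
      carrier := {X | ∃ c, Tl c ∧ Ten bb X 0 c}
      add_mem' := by
        rintro X Y ⟨c, hc, hX⟩ ⟨c', hc', hY⟩
        refine ⟨c + c', ?_, ?_⟩
        · unfold Tl at hc hc' ⊢
          rw [Matrix.add_apply, Matrix.add_apply, hc, hc']
          ring
        · have h2 := hX.add hY
          rwa [add_zero] at h2
      zero_mem' := ⟨0, by unfold Tl; simp, Ten.zero⟩
      smul_mem' := by
        rintro z X ⟨c, hc, hX⟩
        refine ⟨z • c, ?_, ?_⟩
        · unfold Tl at hc ⊢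
          rw [Matrix.smul_apply, Matrix.smul_apply, hc, smul_neg]
        · have h2 := hX.smul z
          rwa [smul_zero] at h2 } :
      Submodule ℂ (Matrix (Fin g ⊕ Fin g) (Fin g ⊕ Fin g) ℂ)) := by
    refine LZ_le (fun σ => ?_) ?_
    · obtain ⟨a', c', ha', hc', hT'⟩ := hT _ (DS_mem σ)
      rcases hb.invol hT' ha' hc' (DS_sq h.det σ) with h0 | h0
      · subst h0
        exact ⟨c', hc', hT'⟩
      · subst h0
        by_cases h00 : a' = 0
        · subst h00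
          exact ⟨0, hc', hT'⟩
        · exact absurd hT' (hcon σ a' ha' h00)
    · rintro X ⟨c, hc, hX⟩ Y ⟨c', hc', hY⟩
      refine ⟨c * c' - c' * c, ?_, ?_⟩
      · unfold Tl at hc hc' ⊢
        simp only [Matrix.sub_apply, Matrix.mul_apply, Fin.sum_univ_two]
        ring
      · have h2 := hX.br hY
        rwa [mul_zero, sub_zero] at h2
  obtain ⟨X, hX, a', c', ha', hc', hX', h0⟩ := hb.flip.exists_ne (k.irr h hg hα) (fun X hX => by
    obtain ⟨a, c, ha, hc, h2⟩ := hT X hX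
    exact ⟨c, a, hc, ha, h2.flip⟩) (j := 1) (l := 0) (by decide)
  obtain ⟨c, hc, hX2⟩ := h1 hX
  have h3 := hb.flip.unique hX' hX2.flip ha' hc' hc (by unfold Tl; simp)
  rw [h3.2] at h0
  exact h0 rfl

/-- The structure of the representation. -/
structure T4 (Z : Matrix (Fin g) (Fin g) ℂ) (W : Submodule ℂ (Fin g ⊕ Fin g → ℂ))
    (bb : Fin 2 → Fin 2 → Fin g ⊕ Fin g → ℂ) : Prop where
  bs : Bs W bb
  act : ∀ X ∈ LZ Z, ∃ a c, Tl a ∧ Tl c ∧ Ten bb X a c
  fst : ∀ a, Tl a → ∃ X ∈ LZ Z, Ten bb X a 0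
  snd : ∀ c, Tl c → ∃ X ∈ LZ Z, Ten bb X 0 c
  dz : Ten bb (DZ Z) 0 !![1, 0; 0, -1]

theorem QM.exists_T4 (hg4 : g = 4) :
    ∃ bb : Fin 2 → Fin 2 → Fin g ⊕ Fin g → ℂ, T4 Z (EW I α) bb := by
  have hp : finrank ℂ ↥(EW I α ⊓ eig Z 1) = 2 := (k.pq h hg hα hg4).1
  let ba := Module.finBasisOfFinrankEq ℂ ↥(EW I α ⊓ eig Z 1) hp
  obtain ⟨bb, hbe, hb, hT, hD⟩ := k.pass h hg hα hg4 (e := fun i => (ba i : Fin g ⊕ Fin g → ℂ))
    (fun i => (ba i).2) (by
      have h1 := ba.linearIndependent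
      exact h1.map' (EW I α ⊓ eig Z 1).subtype (Submodule.ker_subtype _))
  obtain ⟨σ, a', ha', ha0, hσ⟩ := k.exists_sigma h hg hα hg4 hb hT
  have hS : ∀ v ∈ EW I α ⊓ eig Z 1, DS Z σ *ᵥ v ∈ EW I α ⊓ eig Z 1 := by
    intro v hv
    have h1 : v = ∑ i, ba.repr ⟨v, hv⟩ i • bb i 0 := by
      have h2 := congrArg Subtype.val (ba.sum_repr ⟨v, hv⟩)
      rw [AddSubmonoidClass.coe_finsetSum] at h2
      simp only [hbe]
      exact h2.symm
    rw [h1, mulVec_sum]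
    refine Submodule.sum_mem _ fun i _ => ?_
    rw [mulVec_smul, hσ]
    simp only [Matrix.zero_apply, zero_smul, Finset.sum_const_zero, add_zero]
    refine Submodule.smul_mem _ _ (Submodule.sum_mem _ fun l _ => Submodule.smul_mem _ _ ?_)
    rw [hbe]
    exact (ba l).2
  have hSS : ∀ v, DS Z σ *ᵥ (DS Z σ *ᵥ v) = v := fun v => by
    rw [mulVec_mulVec, DS_sq h.det, one_mulVec]
  have hne : ∀ s : ℂ, s * s = 1 → ∃ v ∈ EW I α ⊓ eig Z 1, DS Z σ *ᵥ v ≠ s • v := by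
    intro s hs
    by_contra hcon
    push Not at hcon
    have h1 : ∀ i, a' i i = s := by
      intro i
      have h2 : DS Z σ *ᵥ bb i 0 =
          ∑ l, ∑ m, ((if l = i ∧ m = 0 then s else 0 : ℂ)) • bb l m := by
        rw [hcon (bb i 0) (by rw [hbe]; exact (ba i).2)]
        simp only [Fin.sum_univ_two]
        fin_cases i <;> simp
      have h3 := hb.coef hσ i 0 (w := fun l m => if l = i ∧ m = 0 then s else 0) h2 i 0
      simpa using h3
    have h2 := ha'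
    unfold Tl at h2
    rw [h1, h1] at h2
    have h3 : s = 0 := by linear_combination (1 / 2 : ℂ) * h2
    rw [h3, mul_zero] at hs
    exact zero_ne_one hs
  obtain ⟨u₁, hu₁, hu₁'⟩ := hne (-1) (by ring)
  obtain ⟨u₂, hu₂, hu₂'⟩ := hne 1 (by ring)
  have k0 : u₁ + DS Z σ *ᵥ u₁ ≠ 0 := fun h1 => hu₁' (by
    rw [neg_one_smul]
    exact (neg_eq_of_add_eq_zero_right h1).symm)
  have k1 : u₂ - DS Z σ *ᵥ u₂ ≠ 0 := fun h1 => hu₂' (by
    rw [one_smul]
    exact (sub_eq_zero.1 h1).symm)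
  obtain ⟨x, hx⟩ : ∃ x, x = u₁ + DS Z σ *ᵥ u₁ := ⟨_, rfl⟩
  obtain ⟨y, hy⟩ : ∃ y, y = u₂ - DS Z σ *ᵥ u₂ := ⟨_, rfl⟩
  rw [← hx] at k0
  rw [← hy] at k1
  have hxm : x ∈ EW I α ⊓ eig Z 1 := hx ▸ Submodule.add_mem _ hu₁ (hS _ hu₁)
  have hym : y ∈ EW I α ⊓ eig Z 1 := hy ▸ Submodule.sub_mem _ hu₂ (hS _ hu₂)
  have hSx : DS Z σ *ᵥ x = x := by
    rw [hx, mulVec_add, hSS, add_comm]
  have hSy : DS Z σ *ᵥ y = -y := by
    rw [hy, mulVec_sub, hSS, neg_sub]
  obtain ⟨bb', hbe', hb', hT', hD'⟩ := k.pass h hg hα hg4 (e := ![x, y]) (fun i => by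
    fin_cases i
    · exact hxm
    · exact hym) (by
      rw [LinearIndependent.pair_iff]
      intro s t hst
      have h1 := congrArg (DS Z σ *ᵥ ·) hst
      simp only [mulVec_add, mulVec_smul, hSx, hSy, mulVec_zero] at h1
      have h2 : (2 * s) • x = 0 := by
        have h3 : (2 * s) • x = (s • x + t • y) + (s • x + t • -y) := by module
        rw [h3, hst, h1, add_zero]
      have h4 : s = 0 := by
        have h5 := (smul_eq_zero.1 h2).resolve_right k0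
        exact (mul_eq_zero.1 h5).resolve_left two_ne_zero
      rw [h4, zero_smul, zero_add] at hst
      exact ⟨h4, (smul_eq_zero.1 hst).resolve_right k1⟩)
  obtain ⟨a₁, c₁, ha₁, hc₁, hσ₁⟩ := hT' _ (DS_mem σ)
  have hb0 : bb' 0 0 = x := hbe' 0
  have hb1 : bb' 1 0 = y := hbe' 1
  have m0 := hb'.coef hσ₁ 0 0 (w := fun l m => if l = 0 ∧ m = 0 then 1 else 0) (by
    rw [hb0, hSx]
    simp [Fin.sum_univ_two, hb0])
  have m1 := hb'.coef hσ₁ 1 0 (w := fun l m => if l = 1 ∧ m = 0 then -1 else 0) (by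
    rw [hb1, hSy]
    simp [Fin.sum_univ_two, hb1])
  have m00 := m0 0 0
  have m10 := m0 1 0
  have m01 := m0 0 1
  have n00 := m1 0 0
  have n10 := m1 1 0
  simp only [Fin.isValue, if_true, zero_ne_one, one_ne_zero, if_false, and_true, and_false,
    true_and, add_zero, zero_add, and_self] at m00 m10 m01 n00 n10
  have ha00 : a₁ 0 0 = 1 := by
    unfold Tl at ha₁
    linear_combination (1 / 2 : ℂ) * m00 - (1 / 2 : ℂ) * n10 + (1 / 2 : ℂ) * ha₁
  have hc0 : c₁ = 0 := (hb'.invol hσ₁ ha₁ hc₁ (DS_sq h.det σ)).resolve_left fun h0 => by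
    rw [h0, Matrix.zero_apply] at ha00
    exact zero_ne_one ha00
  have ha₁' : a₁ = !![1, 0; 0, -1] := by
    ext i j
    fin_cases i <;> fin_cases j
    · exact ha00
    · exact n00
    · exact m10
    · change a₁ 1 1 = -1
      rw [ha₁, ha00]
  rw [hc0, ha₁'] at hσ₁
  refine ⟨bb', hb', hT', fun c hc => ?_, fun c hc => ?_, hD'⟩
  · obtain ⟨X, hX, hX'⟩ := hb'.flip.full (fun X hX Y hY => LZ_br hX hY) (k.irr h hg hα)
      (fun X hX => by
        obtain ⟨a, c, ha, hc, h2⟩ := hT' X hX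
        exact ⟨c, a, hc, ha, h2.flip⟩) (DS_mem σ) hσ₁.flip c hc
    exact ⟨X, hX, hX'.flip⟩
  · exact hb'.full (fun X hX Y hY => LZ_br hX hY) (k.irr h hg hα) hT' DZ_mem hD' c hc

end

end Pool.Agent.L5helper19.TT
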