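import Mathlib
import Pool.Agent.L5helper19.TT.QM3
import Pool.Agent.L5helper19.TT.Frm

/-!
# The forms on the part of type III of an abelian variety
-/

set_option linter.unusedSectionVars false

namespace Pool.Agent.L5helper19.TT

open Matrix Module Pool.Agent.W437.HC Pool.Agent.W437.HD Pool.Agent.TH504.CB Pool.Agent.Y90
open Pool.Agent.R915
open Pool.Agent.W548.Odd hiding cv
open Pool.Agent.H204R3.CM (IsHodge)
open Pool.Agent.H204R3.SP (Kills)
open Pool.Agent.W437.HP (cK cK_mul cK_one)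

noncomputable section

section bet

variable {g : ℕ} {Z : Matrix (Fin g) (Fin g) ℂ} {I J : Matrix (Fin g ⊕ Fin g) (Fin g ⊕ Fin g) ℚ}
  {a b : ℚ} (h : PM Z) (hg : 0 < g) (k : QM Z I J a b) {α : ℂ} (hα : α * α = -(a : ℂ))
  {bb : Fin 2 → Fin 2 → Fin g ⊕ Fin g → ℂ}

theorem QM.pj_comm (k : QM Z I J a b) {X : Matrix (Fin g ⊕ Fin g) (Fin g ⊕ Fin g) ℂ}
    (hX : X ∈ LZ Z) (v : Fin g ⊕ Fin g → ℂ) : pj I α (X *ᵥ v) = X *ᵥ pj I α v := by
  rw [pj_apply, pj_apply, mulVec_smul, mulVec_add, mulVec_smul, k.LI hX]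

theorem QM.pj_self (k : QM Z I J a b) (hα : α * α = -(a : ℂ)) {v : Fin g ⊕ Fin g → ℂ}
    (hv : v ∈ EW I α) : pj I α v = v := by
  rw [pj_apply, mem_EW.1 hv, ← two_smul ℂ (α • v), smul_smul, smul_smul, mul_assoc,
    inv_mul_cancel₀ (mul_ne_zero two_ne_zero (k.al_ne hα)), one_smul]

/-- The projection to the eigenspace. -/
def QM.pr (k : QM Z I J a b) (hα : α * α = -(a : ℂ)) : (Fin g ⊕ Fin g → ℂ) →ₗ[ℂ] EW I α :=
  (pj I α).codRestrict (EW I α) fun v => (k.exists_dec hα v).1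

theorem QM.pr_coe (v : Fin g ⊕ Fin g → ℂ) : (k.pr hα v : Fin g ⊕ Fin g → ℂ) = pj I α v := rfl

/-- The coordinates. -/
def QM.bet (k : QM Z I J a b) (hα : α * α = -(a : ℂ)) (hb : Bs (EW I α) bb) (r : R4) :
    (Fin g ⊕ Fin g → ℂ) →ₗ[ℂ] ℂ := (hb.basis.coord r).comp (k.pr hα)

theorem QM.bet_eqv (hb : Bs (EW I α) bb) {X : Matrix (Fin g ⊕ Fin g) (Fin g ⊕ Fin g) ℂ}
    (hX : X ∈ LZ Z) {x y : Matrix (Fin 2) (Fin 2) ℂ} (hT : Ten bb X x y)
    (v : Fin g ⊕ Fin g → ℂ) (r : R4) :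
    k.bet hα hb r (X *ᵥ v) = ∑ s, mm x y r s * k.bet hα hb s v := by
  refine hb.coord_eq (x := fun r => ∑ s, mm x y r s * k.bet hα hb s v) ?_ r
  rw [k.pr_coe hα, k.pj_comm hX, ← k.pr_coe hα, hb.sum_coord (k.pr hα v), mulVec_sum]
  have h1 : ∀ s : R4, X *ᵥ (hb.basis.coord s (k.pr hα v) • bb s.1 s.2) =
      ∑ r : R4, (mm x y r s * k.bet hα hb s v) • bb r.1 r.2 := by
    intro s
    rw [mulVec_smul, hT.sum, Finset.smul_sum]
    refine Finset.sum_congr rfl fun r _ => ?_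
    rw [smul_smul, mul_comm]
    rfl
  rw [Finset.sum_congr rfl fun s _ => h1 s, Finset.sum_comm]
  refine Finset.sum_congr rfl fun r _ => ?_
  rw [Finset.sum_smul]

theorem QM.bet_dec (hb : Bs (EW I α) bb) (v : Fin g ⊕ Fin g → ℂ) :
    v = ∑ r : R4, k.bet hα hb r v • bb r.1 r.2 +
      ∑ r : R4, (-(b : ℂ)⁻¹ * k.bet hα hb r (qm J *ᵥ v)) • (qm J *ᵥ bb r.1 r.2) := by
  have h1 : pj I α v = ∑ r : R4, k.bet hα hb r v • bb r.1 r.2 := hb.sum_coord (k.pr hα v)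
  have h2 : pj I α (qm J *ᵥ v) = ∑ r : R4, k.bet hα hb r (qm J *ᵥ v) • bb r.1 r.2 :=
    hb.sum_coord (k.pr hα (qm J *ᵥ v))
  have h3 : ∑ r : R4, (-(b : ℂ)⁻¹ * k.bet hα hb r (qm J *ᵥ v)) • (qm J *ᵥ bb r.1 r.2) =
      -(b : ℂ)⁻¹ • (qm J *ᵥ pj I α (qm J *ᵥ v)) := by
    rw [h2, mulVec_sum, Finset.smul_sum]
    refine Finset.sum_congr rfl fun r _ => ?_
    rw [mulVec_smul, smul_smul]
  rw [h3, ← h1]
  have h4 := k.al_ne hα
  have h5 := k.b_ne
  have h6 : qm J *ᵥ pj I α (qm J *ᵥ v) = (-(b : ℂ)) • (v - pj I α v) := by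
    rw [pj_apply, pj_apply, mulVec_smul, mulVec_add, mulVec_smul, k.sqJ]
    have h7 : qm J *ᵥ (qm I *ᵥ (qm J *ᵥ v)) = (b : ℂ) • (qm I *ᵥ v) := by
      rw [k.IJ, mulVec_neg, k.sqJ]
      module
    rw [h7]
    have h8 : v = (2 * α)⁻¹ • ((2 * α) • v) := by
      rw [smul_smul, inv_mul_cancel₀ (mul_ne_zero two_ne_zero h4), one_smul]
    have h9 : v - (2 * α)⁻¹ • (qm I *ᵥ v + α • v) =
        (2 * α)⁻¹ • ((2 * α) • v) - (2 * α)⁻¹ • (qm I *ᵥ v + α • v) := by rw [← h8]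
    rw [h9]
    module
  rw [h6, smul_smul, neg_mul_neg, inv_mul_cancel₀ h5, one_smul]
  abel

end bet

section lift

variable {G g : ℕ} {Z : Matrix (Fin G) (Fin G) ℂ} {Z' : Matrix (Fin g) (Fin g) ℂ}

/-- Homomorphisms commute with the conjugates of the complex structures. -/
theorem hom_DS {R : Matrix (Fin G ⊕ Fin G) (Fin g ⊕ Fin g) ℚ}
    (hR : cK ℂ R * DZ Z' = DZ Z * cK ℂ R) (σ : ℂ ≃+* ℂ) :
    cK ℂ R * DS Z' σ = DS Z σ * cK ℂ R := by
  have h1 := congrArg (fun M => M.map σ) hR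
  simp only [Matrix.map_mul, cK_aut] at h1
  exact h1

/-- Operators of the Lie algebra of a factor lift. -/
theorem lift_all {X' : Matrix (Fin g ⊕ Fin g) (Fin g ⊕ Fin g) ℂ} (hX' : X' ∈ LZ Z') :
    ∃ X ∈ LZ Z, ∀ R : Matrix (Fin G ⊕ Fin G) (Fin g ⊕ Fin g) ℚ,
      cK ℂ R * DZ Z' = DZ Z * cK ℂ R → cK ℂ R * X' = X * cK ℂ R := by
  have h1 : LZ Z' ≤ ({
      carrier := {X' | ∃ X ∈ LZ Z, ∀ R : Matrix (Fin G ⊕ Fin G) (Fin g ⊕ Fin g) ℚ,
        cK ℂ R * DZ Z' = DZ Z * cK ℂ R → cK ℂ R * X' = X * cK ℂ R}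
      add_mem' := by
        rintro A C ⟨A', hA', hA⟩ ⟨C', hC', hC⟩
        exact ⟨A' + C', Submodule.add_mem _ hA' hC', fun R hR => by
          rw [Matrix.mul_add, Matrix.add_mul, hA R hR, hC R hR]⟩
      zero_mem' := ⟨0, Submodule.zero_mem _, fun R hR => by
        rw [Matrix.mul_zero, Matrix.zero_mul]⟩
      smul_mem' := by
        rintro c A ⟨A', hA', hA⟩
        exact ⟨c • A', Submodule.smul_mem _ _ hA', fun R hR => by
          rw [Matrix.mul_smul, Matrix.smul_mul, hA R hR]⟩ } :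
      Submodule ℂ (Matrix (Fin g ⊕ Fin g) (Fin g ⊕ Fin g) ℂ)) := by
    refine LZ_le (fun σ => ⟨DS Z σ, DS_mem σ, fun R hR => hom_DS hR σ⟩) ?_
    rintro A ⟨A', hA', hA⟩ C ⟨C', hC', hC⟩
    refine ⟨A' * C' - C' * A', LZ_br hA' hC', fun R hR => ?_⟩
    have h2 := hA R hR
    have h3 := hC R hR
    rw [Matrix.mul_sub, Matrix.sub_mul, ← Matrix.mul_assoc, h2, Matrix.mul_assoc, h3,
      ← Matrix.mul_assoc (cK ℂ R), h3, Matrix.mul_assoc C', h2, Matrix.mul_assoc, Matrix.mul_assoc]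
  exact h1 hX'

end lift

section na

variable {G : ℕ} {Z : Matrix (Fin G) (Fin G) ℂ} (h : PM Z) {Z' : Matrix (Fin 4) (Fin 4) ℂ}
  (h' : PM Z') {I J : Matrix (Fin 4 ⊕ Fin 4) (Fin 4 ⊕ Fin 4) ℚ} {a b : ℚ} (k : QM Z' I J a b)
  {α : ℂ} (hα : α * α = -(a : ℂ)) {bb : Fin 2 → Fin 2 → Fin 4 ⊕ Fin 4 → ℂ}
  (t : T4 Z' (EW I α) bb) (𝒜 : Sys)

/-- The coefficient functions whose forms belong to the system. -/
def NC (κ : Type) [Finite κ] : Submodule ℂ ((κ → R4) → ℂ) where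
  carrier := {C | ∀ (_ : Fintype κ) (_ : DecidableEq κ)
    (R : κ → Matrix (Fin 4 ⊕ Fin 4) (Fin G ⊕ Fin G) ℚ),
    (∀ l, cK ℂ (R l) * DZ Z = DZ Z' * cK ℂ (R l)) →
    cform C (fun l r => (k.bet hα t.bs r).comp (ml (R l))) ∈ NA 𝒜 h.cht ⟨_, h.polar⟩ κ}
  add_mem' := by
    intro C C' hC hC' i1 i2 R hR
    rw [cform_add]
    exact Submodule.add_mem _ (hC i1 i2 R hR) (hC' i1 i2 R hR)
  zero_mem' := by
    intro i1 i2 R hR
    rw [cform_zero]
    exact Submodule.zero_mem _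
  smul_mem' := by
    intro z C hC i1 i2 R hR
    rw [cform_smul]
    exact Submodule.smul_mem _ _ (hC i1 i2 R hR)

/-- Forms with coefficients in the invariants are killed by the conjugates of the complex
structure. -/
theorem kill_DS {κ : Type} [Fintype κ] [DecidableEq κ] {C : (κ → R4) → ℂ} (hC : C ∈ Inv2 κ)
    {R : κ → Matrix (Fin 4 ⊕ Fin 4) (Fin G ⊕ Fin G) ℚ}
    (hR : ∀ l, cK ℂ (R l) * DZ Z = DZ Z' * cK ℂ (R l)) :
    ∀ X ∈ LS Z, act X (CF (cform C (fun l r => (k.bet hα t.bs r).comp (ml (R l))))) = 0 := by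
  have h1 : LS Z ≤ LinearMap.ker
      (actL (CF (cform C (fun l r => (k.bet hα t.bs r).comp (ml (R l)))))) := by
    refine Submodule.span_le.2 ?_
    rintro _ ⟨σ, rfl⟩
    rw [SetLike.mem_coe, LinearMap.mem_ker, actL_apply]
    refine act_of_kills fun v => ?_
    obtain ⟨x, y, hx, hy, hT⟩ := t.act _ (DS_mem σ)
    refine cform_kill hC hx hy (X := fun v => DS Z σ *ᵥ v) (fun l r v => ?_) v
    change k.bet hα t.bs r (cK ℂ (R l) *ᵥ (DS Z σ *ᵥ v)) =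
      ∑ s, mm x y r s * k.bet hα t.bs s (cK ℂ (R l) *ᵥ v)
    rw [mulVec_mulVec, hom_DS (hR l) σ, ← mulVec_mulVec]
    exact k.bet_eqv hα t.bs (DS_mem σ) hT _ r
  intro X hX
  have h2 := h1 hX
  rwa [LinearMap.mem_ker, actL_apply] at h2

theorem NC_q2 : Q2 ∈ NC h k hα t 𝒜 (Fin 2) := by
  intro i1 i2 R hR
  obtain rfl : i1 = Fin.fintype 2 := Subsingleton.elim _ _
  obtain rfl : i2 = instDecidableEqFin 2 := Subsingleton.elim _ _
  exact NA_of_hodge h.cht ⟨_, h.polar⟩ 𝒜 gal_LS DZ_memS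
    (fun r hr => 𝒜.divisor (X := h.cht.av ⟨_, h.polar⟩) (Nat.card_fin 2) r hr)
    (kill_DS k hα t Q2_mem hR)

/-- The indices. -/
def e4 : Fin 4 ≃ R4 := Equiv.ofBijective r4 (by decide)

theorem e4_apply (i : Fin 4) : e4 i = r4 i := rfl

variable {E : Matrix (Fin G ⊕ Fin G) (Fin 4 ⊕ Fin 4) ℚ} {F : Matrix (Fin 4 ⊕ Fin 4) (Fin G ⊕ Fin G) ℚ}
  (hf : Fac Z Z' E F)

include hf in
theorem ml_FE (v : Fin 4 ⊕ Fin 4 → ℂ) : ml F (ml E v) = v := by
  rw [ml_apply, ml_apply, mulVec_mulVec, hf.fe', one_mulVec]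

/-- The embedding of the eigenspace. -/
def eqE (hf : Fac Z Z' E F) (W : Submodule ℂ (Fin 4 ⊕ Fin 4 → ℂ)) : W ≃ₗ[ℂ] W.map (ml E) :=
  LinearEquiv.ofBijective (((ml E).domRestrict W).codRestrict (W.map (ml E))
    fun u => Submodule.mem_map_of_mem u.2) (by
      constructor
      · intro u u' huu
        have h1 : ml E (u : Fin 4 ⊕ Fin 4 → ℂ) = ml E (u' : Fin 4 ⊕ Fin 4 → ℂ) :=
          congrArg Subtype.val huu
        apply Subtype.ext
        rw [← ml_FE hf (u : Fin 4 ⊕ Fin 4 → ℂ), h1, ml_FE hf]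
      · rintro ⟨_, u, hu, rfl⟩
        exact ⟨⟨u, hu⟩, rfl⟩)

theorem eqE_coe (W : Submodule ℂ (Fin 4 ⊕ Fin 4 → ℂ)) (u : W) :
    (eqE hf W u : Fin G ⊕ Fin G → ℂ) = ml E u := rfl

include hf in
theorem map_FE (W : Submodule ℂ (Fin 4 ⊕ Fin 4 → ℂ)) : (W.map (ml E)).map (ml F) = W := by
  ext v
  constructor
  · rintro ⟨_, ⟨u, hu, rfl⟩, rfl⟩
    rw [ml_FE hf]
    exact hu
  · intro hv
    exact ⟨ml E v, ⟨v, hv, rfl⟩, ml_FE hf v⟩

theorem QM.kx (k : QM Z' I J a b) (h' : PM Z') (hα : α * α = -(a : ℂ)) (hf : Fac Z Z' E F) :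
    KX Z ((EW I α).map (ml E)) 4 Z' E F I α a where
  fac := hf
  pm := h'
  inj := by
    rintro _ ⟨u, hu, rfl⟩ h0
    rw [ml_FE hf] at h0
    rw [h0, map_zero]
  kw := by
    rw [map_FE hf]
    exact k.kw h' (by norm_num) hα
  small := by
    right
    left
    rw [map_FE hf]
    obtain ⟨h1, h2⟩ := k.pq h' (by norm_num) hα rfl
    unfold tr
    rw [h1, h2]
    rfl
  disc := fun h0 => absurd h0 (by norm_num)

/-- The equivariance of the composite maps. -/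
theorem comp_eqv (k : QM Z' I J a b) {E : Matrix (Fin G ⊕ Fin G) (Fin 4 ⊕ Fin 4) ℚ}
    {R : Matrix (Fin 4 ⊕ Fin 4) (Fin G ⊕ Fin G) ℚ}
    (hE : cK ℂ E * DZ Z' = DZ Z * cK ℂ E) (hR : cK ℂ R * DZ Z = DZ Z' * cK ℂ R)
    {X : Matrix (Fin G ⊕ Fin G) (Fin G ⊕ Fin G) ℂ} (hX : X ∈ LZ Z) :
    ∀ v, ml E (pj I α (ml R (X *ᵥ v))) = X *ᵥ (ml E (pj I α (ml R v))) := by
  have h1 : LZ Z ≤ ({
      carrier := {X | ∀ v, ml E (pj I α (ml R (X *ᵥ v))) = X *ᵥ (ml E (pj I α (ml R v)))}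
      add_mem' := by
        intro A C hA hC v
        rw [add_mulVec, map_add, map_add, map_add, hA, hC, add_mulVec]
      zero_mem' := by
        intro v
        rw [zero_mulVec, map_zero, map_zero, map_zero, zero_mulVec]
      smul_mem' := by
        intro c A hA v
        rw [smul_mulVec, map_smul, map_smul, map_smul, hA, smul_mulVec] } :
      Submodule ℂ (Matrix (Fin G ⊕ Fin G) (Fin G ⊕ Fin G) ℂ)) := by
    refine LZ_le (fun σ v => ?_) ?_
    · rw [ml_apply R, mulVec_mulVec, hom_DS hR σ, ← mulVec_mulVec, k.pj_comm (DS_mem σ), ml_apply E,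
        mulVec_mulVec, hom_DS hE σ, ← mulVec_mulVec]
      rfl
    · intro A hA C hC v
      rw [sub_mulVec, map_sub, map_sub, map_sub, ← mulVec_mulVec, ← mulVec_mulVec, hA, hC, hC, hA,
        sub_mulVec, mulVec_mulVec, mulVec_mulVec]
  exact h1 hX

include h' hf in
theorem NC_d4 : D4 ∈ NC h k hα t 𝒜 (Fin 4) := by
  intro i1 i2 R hR
  obtain rfl : i1 = Fin.fintype 4 := Subsingleton.elim _ _
  obtain rfl : i2 = instDecidableEqFin 4 := Subsingleton.elim _ _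
  have kx := k.kx h' hα hf
  have hde : cK ℂ E * DZ Z' = DZ Z * cK ℂ E := hf.de.symm
  have hWs : Stab (LZ Z) ((EW I α).map (ml E)) := by
    rintro X hX _ ⟨u, hu, rfl⟩
    have h1 := comp_eqv (α := α) k hde hf.fd hX (ml E u)
    rw [ml_FE hf, k.pj_self hα hu] at h1
    rw [← h1]
    exact ⟨_, (k.exists_dec hα _).1, rfl⟩
  let fb : Basis (Fin 4) ℂ ((EW I α).map (ml E)) := (t.bs.basis.reindex e4.symm).map (eqE hf _)
  let pp : Fin 4 → (Fin G ⊕ Fin G → ℂ) →ₗ[ℂ] ((EW I α).map (ml E)) := fun y =>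
    (eqE hf (EW I α)).toLinearMap.comp ((k.pr hα).comp (ml (R y)))
  let e : (Σ _ : Unit, Fin 4) ≃ Fin 4 := Equiv.uniqueSigma fun _ => Fin 4
  have hmem := det_NA 𝒜 h (S := Unit) (fun _ => (EW I α).map (ml E)) (fun _ => hWs)
    (fun _ => ⟨4, Z', E, F, I, α, a, kx⟩) (fun τ => by
      rw [Finset.univ_unique, Finset.sum_singleton, kx.tr_rho hWs, map_FE hf]
      obtain ⟨h1, h2⟩ := k.pq h' (by norm_num) hα rfl
      unfold tr
      rw [h1, h2]
      norm_num) (fun _ => Fin 4) (fun _ => fb) (fun _ y => pp y) (by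
      intro _ y g x
      have h1 := (rz_equiv h stab_top (((EW I α).map (ml E)).subtype.comp (pp y))).2
        (fun X hX u _ => comp_eqv (α := α) k hde (hR y) hX u)
      exact h1 g x trivial)
    ((cform D4 (fun l r => (k.bet hα t.bs r).comp (ml (R l)))).domDomCongr e.symm) (by
      intro v
      rw [Finset.univ_unique, Finset.prod_singleton, MultilinearMap.domDomCongr_apply,
        cform_apply, cform_D4 (fun l r => ((k.bet hα t.bs r).comp (ml (R l))) (v (e.symm l))),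
        Basis.det_apply]
      congr 1
      ext i y
      rw [Basis.toMatrix_apply]
      change t.bs.basis.repr (k.pr hα (ml (R y) (v ⟨(), y⟩))) (r4 i) =
        ((t.bs.basis.reindex e4.symm).map (eqE hf _)).repr
          (eqE hf (EW I α) (k.pr hα (ml (R y) (v ⟨(), y⟩)))) i
      rw [Basis.map_repr, LinearEquiv.trans_apply, LinearEquiv.symm_apply_apply,
        Basis.repr_reindex_apply]
      rfl)
  exact (clo_NA _ _ _).reindex e hmem _ fun v => by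
    rw [MultilinearMap.domDomCongr_apply]
    congr 1

theorem NC_mul : ∀ (κ κ' κ'' : Type) [Finite κ] [Finite κ'] [Finite κ''] (e : κ ⊕ κ' ≃ κ'')
    (φ : (κ → R4) → ℂ) (φ' : (κ' → R4) → ℂ) (ψ : (κ'' → R4) → ℂ), φ ∈ NC h k hα t 𝒜 κ →
    φ' ∈ NC h k hα t 𝒜 κ' →
    (∀ I, ψ I = φ (fun k => I (e (Sum.inl k))) * φ' (fun k => I (e (Sum.inr k)))) →
    ψ ∈ NC h k hα t 𝒜 κ'' := by
  classical
  intro κ κ' κ'' _ _ _ e φ φ' ψ hφ hφ' hψ i1 i2 R hR
  have := Fintype.ofFinite κ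
  have := Fintype.ofFinite κ'
  refine (clo_NA 𝒜 h.cht ⟨_, h.polar⟩).mul κ κ' κ'' e _ _ _
    (hφ inferInstance inferInstance (fun l => R (e (Sum.inl l))) fun l => hR _)
    (hφ' inferInstance inferInstance (fun l => R (e (Sum.inr l))) fun l => hR _) fun v => ?_
  exact cform_mul e hψ _ v

include h' hf in
/-- The invariants belong to the system. -/
theorem inv_NC (κ : Type) [Fintype κ] [DecidableEq κ] : Inv2 κ ≤ NC h k hα t 𝒜 κ :=
  inv2_le (NC h k hα t 𝒜) (fun _ _ _ _ _ _ _ _ => (clo_NA _ _ _).unit _ _)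
    (NC_mul h k hα t 𝒜) (NC_q2 h k hα t 𝒜) (NC_d4 h h' k hα t 𝒜 hf) _ κ rfl

/-- The homomorphisms from the factor. -/
def sgH (J : Matrix (Fin 4 ⊕ Fin 4) (Fin 4 ⊕ Fin 4) ℚ) {ι : Type}
    (H : ι → Matrix (Fin G ⊕ Fin G) (Fin 4 ⊕ Fin 4) ℚ) (s : ι × Bool) :
    Matrix (Fin G ⊕ Fin G) (Fin 4 ⊕ Fin 4) ℚ := if s.2 then H s.1 * J else H s.1

/-- The homomorphisms to the factor. -/
def sgR (J : Matrix (Fin 4 ⊕ Fin 4) (Fin 4 ⊕ Fin 4) ℚ) {ι : Type}
    (R : ι → Matrix (Fin 4 ⊕ Fin 4) (Fin G ⊕ Fin G) ℚ) (s : ι × Bool) :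
    Matrix (Fin 4 ⊕ Fin 4) (Fin G ⊕ Fin G) ℚ := if s.2 then J * R s.1 else R s.1

/-- The coefficients. -/
def sgc (b : ℚ) {ι : Type} (s : ι × Bool) : ℂ := if s.2 then -(b : ℂ)⁻¹ else 1

include h' hf k hα t in
/-- Invariant forms on the part of type III belong to the system. -/
theorem iso_mem {ι : Type} [Fintype ι] {P : Matrix (Fin G ⊕ Fin G) (Fin G ⊕ Fin G) ℚ}
    (H : ι → Matrix (Fin G ⊕ Fin G) (Fin 4 ⊕ Fin 4) ℚ)
    (R : ι → Matrix (Fin 4 ⊕ Fin 4) (Fin G ⊕ Fin G) ℚ)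
    (hH : ∀ i, cK ℂ (H i) * DZ Z' = DZ Z * cK ℂ (H i))
    (hR : ∀ i, cK ℂ (R i) * DZ Z = DZ Z' * cK ℂ (R i)) (hP : ∑ i, H i * R i = P)
    {κ : Type} [Fintype κ] [DecidableEq κ]
    (A : MultilinearMap ℂ (fun _ : κ => Fin G ⊕ Fin G → ℂ) ℂ)
    (hA : ∀ v, A (fun l => ml P (v l)) = A v) (hK : ∀ X ∈ LZ Z, Kills (ph _ X) A) :
    A ∈ NA 𝒜 h.cht ⟨_, h.polar⟩ κ := by
  classical
  have hH' : ∀ s : ι × Bool, cK ℂ (sgH J H s) * DZ Z' = DZ Z * cK ℂ (sgH J H s) := by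
    rintro ⟨i, _ | _⟩
    · exact hH i
    · change cK ℂ (H i * J) * DZ Z' = DZ Z * cK ℂ (H i * J)
      have h1 : cK ℂ J * DZ Z' = DZ Z' * cK ℂ J := k.cJ
      rw [cK_mul, Matrix.mul_assoc, h1, ← Matrix.mul_assoc, hH, Matrix.mul_assoc]
  have hR' : ∀ s : ι × Bool, cK ℂ (sgR J R s) * DZ Z = DZ Z' * cK ℂ (sgR J R s) := by
    rintro ⟨i, _ | _⟩
    · exact hR i
    · change cK ℂ (J * R i) * DZ Z = DZ Z' * cK ℂ (J * R i)
      have h1 : cK ℂ J * DZ Z' = DZ Z' * cK ℂ J := k.cJ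
      rw [cK_mul, Matrix.mul_assoc, hR, ← Matrix.mul_assoc, h1, Matrix.mul_assoc]
  -- the expansion
  have hexp : ∀ v, ml P v = ∑ s : (ι × Bool) × R4, (sgc b s.1 *
      k.bet hα t.bs s.2 (ml (sgR J R s.1) v)) • ml (sgH J H s.1) (bb s.2.1 s.2.2) := by
    intro v
    rw [Fintype.sum_prod_type, Fintype.sum_prod_type]
    have h1 : ml P v = ∑ i, ml (H i) (ml (R i) v) := by
      rw [ml_apply, ← hP]
      have h2 : cK ℂ (∑ i, H i * R i) = ∑ i, cK ℂ (H i) * cK ℂ (R i) := by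
        ext x y
        simp [cK, Matrix.sum_apply, Matrix.mul_apply]
      rw [h2, Matrix.sum_mulVec]
      refine Finset.sum_congr rfl fun i _ => ?_
      rw [← mulVec_mulVec]
      rfl
    rw [h1]
    refine Finset.sum_congr rfl fun i _ => ?_
    rw [Fintype.sum_bool]
    have h2 := congrArg (ml (H i)) (k.bet_dec hα t.bs (ml (R i) v))
    rw [map_add, map_sum, map_sum] at h2
    refine h2.trans ?_
    rw [add_comm]
    congr 1
    · refine Finset.sum_congr rfl fun r _ => ?_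
      rw [map_smul]
      have h3 : ml (H i) (qm J *ᵥ bb r.1 r.2) = ml (sgH J H (i, true)) (bb r.1 r.2) := by
        change cK ℂ (H i) *ᵥ (cK ℂ J *ᵥ bb r.1 r.2) = cK ℂ (H i * J) *ᵥ bb r.1 r.2
        rw [mulVec_mulVec, cK_mul]
      have h4 : qm J *ᵥ ml (R i) v = ml (sgR J R (i, true)) v := by
        change cK ℂ J *ᵥ (cK ℂ (R i) *ᵥ v) = cK ℂ (J * R i) *ᵥ v
        rw [mulVec_mulVec, cK_mul]
      rw [h3, h4]
      rfl
    · refine Finset.sum_congr rfl fun r _ => ?_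
      rw [map_smul]
      change _ = (1 * _) • _
      rw [one_mul]
      rfl
  -- the coefficient functions
  let C : (κ → ι × Bool) → (κ → R4) → ℂ := fun S I => A fun l => ml (sgH J H (S l)) (bb (I l).1 (I l).2)
  have hC : ∀ S, C S ∈ Inv2 κ := by
    intro S
    have key : ∀ (x y : Matrix (Fin 2) (Fin 2) ℂ), (∃ X ∈ LZ Z', Ten bb X x y) → ∀ I : κ → R4,
        ∑ l, ∑ r, mm x y r (I l) * C S (Function.update I l r) = 0 := by
      rintro x y ⟨X', hX', hT⟩ I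
      obtain ⟨X, hX, hXR⟩ := lift_all (Z := Z) hX'
      have h1 := hK X hX fun l => ml (sgH J H (S l)) (bb (I l).1 (I l).2)
      rw [← h1]
      refine Finset.sum_congr rfl fun l _ => ?_
      have h2 : ph _ X (ml (sgH J H (S l)) (bb (I l).1 (I l).2)) =
          ∑ r : R4, mm x y r (I l) • ml (sgH J H (S l)) (bb r.1 r.2) := by
        rw [ph_apply', ml_apply, mulVec_mulVec, ← hXR _ (hH' (S l)), ← mulVec_mulVec, hT.sum,
          ← ml_apply, map_sum]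
        refine Finset.sum_congr rfl fun r _ => ?_
        rw [map_smul]
      rw [h2, A.map_update_sum]
      refine Finset.sum_congr rfl fun r _ => ?_
      rw [A.map_update_smul, smul_eq_mul]
      congr 1
      change A _ = A _
      congr 1
      funext m
      by_cases hm : m = l
      · subst hm
        rw [Function.update_self, Function.update_self]
      · rw [Function.update_of_ne hm, Function.update_of_ne hm]
    exact mem_inv2 (fun x hx => key x 0 (t.fst x hx)) (fun y hy => key 0 y (t.snd y hy))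
  -- the sum
  have hsum : A = ∑ S : κ → ι × Bool, (∏ l, sgc b (S l)) •
      cform (C S) (fun l r => (k.bet hα t.bs r).comp (ml (sgR J R (S l)))) := by
    refine MultilinearMap.ext fun v => ?_
    rw [_root_.sum_apply, ← hA v]
    simp only [hexp]
    rw [A.map_sum]
    rw [← (Equiv.arrowProdEquivProdArrow κ (fun _ => ι × Bool) (fun _ => R4)).symm.sum_comp,
      Fintype.sum_prod_type]
    refine Finset.sum_congr rfl fun S _ => ?_
    rw [_root_.smul_apply, cform_apply, smul_eq_mul, Finset.mul_sum]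
    refine Finset.sum_congr rfl fun I _ => ?_
    rw [A.map_smul_univ]
    rw [Finset.prod_mul_distrib, smul_eq_mul]
    change (∏ l, sgc b (S l)) * (∏ l, k.bet hα t.bs (I l) (ml (sgR J R (S l)) (v l))) *
      C S I = (∏ l, sgc b (S l)) *
      (C S I * ∏ l, k.bet hα t.bs (I l) (ml (sgR J R (S l)) (v l)))
    ring
  rw [hsum]
  refine Submodule.sum_mem _ fun S _ => Submodule.smul_mem _ _ ?_
  exact inv_NC h h' k hα t 𝒜 hf κ (hC S) inferInstance inferInstance _ fun l => hR' (S l)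

end na

end

end Pool.Agent.L5helper19.TT
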