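import Mathlib
import Pool.Agent.L5helper19.TT.Ind
import Pool.Agent.L5helper19.TT.Iso

/-!
# The complex structure on the part of type III
-/

set_option linter.unusedSectionVars false

namespace Pool.Agent.L5helper19.TT

open Matrix Module Pool.Agent.W437.HC Pool.Agent.W437.HD Pool.Agent.TH504.CB Pool.Agent.Y90
open Pool.Agent.R915
open Pool.Agent.W548.Odd hiding cv
open Pool.Agent.H204R3.CM (IsHodge)
open Pool.Agent.W437.HP (cK cK_mul cK_one)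

noncomputable section

section tt

variable {g : ℕ} {Z : Matrix (Fin g) (Fin g) ℂ} {I J : Matrix (Fin g ⊕ Fin g) (Fin g ⊕ Fin g) ℚ}
  {a b : ℚ} (h : PM Z) (hg : 0 < g) (k : QM Z I J a b) {α : ℂ} (hα : α * α = -(a : ℂ))
  {bb : Fin 2 → Fin 2 → Fin g ⊕ Fin g → ℂ} (t : T4 Z (EW I α) bb)

include k hα t in
theorem T4.zero {X : Matrix (Fin g ⊕ Fin g) (Fin g ⊕ Fin g) ℂ} (hX : X ∈ LZ Z)
    (hT : Ten bb X 0 0) : X = 0 := by
  refine eq_of_mulVec fun v => ?_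
  rw [zero_mulVec]
  have h1 : ∀ w ∈ EW I α, X *ᵥ w = 0 := by
    intro w hw
    obtain ⟨c, rfl⟩ := t.bs.spn w hw
    rw [mulVec_sum]
    refine Finset.sum_eq_zero fun i _ => ?_
    rw [mulVec_sum]
    refine Finset.sum_eq_zero fun j _ => ?_
    rw [mulVec_smul, hT]
    simp
  have h2 : v ∈ EW I α ⊔ EW I (-α) := by
    rw [k.sup hα]
    trivial
  obtain ⟨u, hu, w, hw, rfl⟩ := Submodule.mem_sup.1 h2
  rw [← k.mapJ] at hw
  obtain ⟨w', hw', rfl⟩ := hw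
  rw [mulVec_add, h1 u hu, zero_add, mulVecLin_apply, k.LJ hX, h1 w' hw', mulVec_zero]

/-- The first factor of the Lie algebra. -/
def Lf (Z : Matrix (Fin g) (Fin g) ℂ) (bb : Fin 2 → Fin 2 → Fin g ⊕ Fin g → ℂ) :
    Set (Matrix (Fin g ⊕ Fin g) (Fin g ⊕ Fin g) ℂ) :=
  {X | X ∈ LZ Z ∧ ∃ x, Tl x ∧ Ten bb X x 0}

/-- The second factor of the Lie algebra. -/
def Ls (Z : Matrix (Fin g) (Fin g) ℂ) (bb : Fin 2 → Fin 2 → Fin g ⊕ Fin g → ℂ) :
    Set (Matrix (Fin g ⊕ Fin g) (Fin g ⊕ Fin g) ℂ) :=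
  {X | X ∈ LZ Z ∧ ∃ x, Tl x ∧ Ten bb X 0 x}

theorem Ten.sub {X Y : Matrix (Fin g ⊕ Fin g) (Fin g ⊕ Fin g) ℂ}
    {a c a' c' : Matrix (Fin 2) (Fin 2) ℂ} (h : Ten bb X a c) (h' : Ten bb Y a' c') :
    Ten bb (X - Y) (a - a') (c - c') := by
  have h1 := h.add (h'.smul (-1))
  rw [neg_one_smul, neg_one_smul, neg_one_smul, ← sub_eq_add_neg, ← sub_eq_add_neg,
    ← sub_eq_add_neg] at h1
  exact h1

include h hg k hα t in
theorem T4.two (hg4 : g = 4) : Two Z (Lf Z bb) (Ls Z bb) where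
  c12 := by
    rintro X ⟨hX, x, -, hx⟩ Y ⟨hY, y, -, hy⟩
    rw [← sub_eq_zero]
    refine t.zero k hα (LZ_br hX hY) ?_
    have h1 := hx.br hy
    rwa [mul_zero, zero_mul, sub_zero, zero_mul, mul_zero, sub_zero] at h1
  dec := by
    intro X hX
    obtain ⟨x, y, hx, hy, hT⟩ := t.act X hX
    obtain ⟨X1, hX1, hT1⟩ := t.fst x hx
    obtain ⟨X2, hX2, hT2⟩ := t.snd y hy
    refine ⟨X1, hX1, ⟨hX1, x, hx, hT1⟩, X2, hX2, ⟨hX2, y, hy, hT2⟩, ?_⟩
    have h1 : X - X1 - X2 = 0 := by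
      refine t.zero k hα (Submodule.sub_mem _ (Submodule.sub_mem _ hX hX1) hX2) ?_
      have h2 := (hT.sub hT1).sub hT2
      rwa [sub_self, sub_zero, sub_zero, sub_self] at h2
    rw [sub_sub] at h1
    exact sub_eq_zero.1 h1
  ds := by
    intro σ
    obtain ⟨x, y, hx, hy, hT⟩ := t.act _ (DS_mem σ)
    rcases t.bs.invol hT hx hy (DS_sq h.det σ) with h0 | h0
    · subst h0
      exact Or.inr ⟨DS_mem σ, y, hy, hT⟩
    · subst h0
      exact Or.inl ⟨DS_mem σ, x, hx, hT⟩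
  n1 := by
    obtain ⟨σ, x, hx, -, hT⟩ := k.exists_sigma h hg hα hg4 t.bs t.act
    exact ⟨σ, DS_mem σ, x, hx, hT⟩
  n2 := ⟨RingEquiv.refl ℂ, DS_mem _, !![1, 0; 0, -1], by unfold Tl; simp, t.dz⟩
  br := by
    obtain ⟨x, hx, hx'⟩ := t.snd !![0, 1; 0, 0] (by unfold Tl; simp)
    obtain ⟨y, hy, hy'⟩ := t.snd !![0, 0; 1, 0] (by unfold Tl; simp)
    refine ⟨x, hx, y, hy, ?_⟩
    rw [← sub_eq_zero]
    refine t.zero k hα (Submodule.sub_mem _ DZ_mem (LZ_br hx hy)) ?_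
    have h1 := t.dz.sub (hx'.br hy')
    convert h1 using 1
    · simp
    · ext i j
      fin_cases i <;> fin_cases j <;> simp

end tt

section main

variable {G a : ℕ} {Z : Matrix (Fin G) (Fin G) ℂ} (h : PM Z) {Z' : Matrix (Fin a) (Fin a) ℂ}
  {E : Matrix (Fin G ⊕ Fin G) (Fin a ⊕ Fin a) ℚ} {F : Matrix (Fin a ⊕ Fin a) (Fin G ⊕ Fin G) ℚ}
  (hf : Fac Z Z' E F) {L1 L2 : Set (Matrix (Fin a ⊕ Fin a) (Fin a ⊕ Fin a) ℂ)}
  (tw : Two Z' L1 L2)

include hf in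
/-- The action on the images of homomorphisms. -/
theorem comp_all {X : Matrix (Fin G ⊕ Fin G) (Fin G ⊕ Fin G) ℂ} (hX : X ∈ LZ Z)
    {H : Matrix (Fin G ⊕ Fin G) (Fin a ⊕ Fin a) ℚ} (hH : cK ℂ H * DZ Z' = DZ Z * cK ℂ H) :
    X * cK ℂ H = cK ℂ H * (cK ℂ F * X * cK ℂ E) := by
  have h1 : LZ Z ≤ ({
      carrier := {X | X ∈ LZ Z ∧ X * cK ℂ H = cK ℂ H * (cK ℂ F * X * cK ℂ E)}
      add_mem' := by
        rintro A C ⟨hA', hA⟩ ⟨hC', hC⟩
        exact ⟨Submodule.add_mem _ hA' hC', by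
          rw [Matrix.add_mul, Matrix.mul_add (cK ℂ F), Matrix.add_mul _ _ (cK ℂ E),
            Matrix.mul_add (cK ℂ H), hA, hC]⟩
      zero_mem' := ⟨Submodule.zero_mem _, by simp⟩
      smul_mem' := by
        rintro c A ⟨hA', hA⟩
        exact ⟨Submodule.smul_mem _ _ hA', by
          rw [Matrix.smul_mul, hA, Matrix.mul_smul, Matrix.smul_mul, Matrix.mul_smul]⟩ } :
      Submodule ℂ (Matrix (Fin G ⊕ Fin G) (Fin G ⊕ Fin G) ℂ)) := by
    refine LZ_le (fun σ => ⟨DS_mem σ, ?_⟩) ?_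
    · rw [hf.fds, Matrix.mul_assoc (DS Z' σ), hf.fe', Matrix.mul_one, hom_DS hH σ]
    · rintro A ⟨hA', hA⟩ C ⟨hC', hC⟩
      refine ⟨LZ_br hA' hC', ?_⟩
      rw [comp_br hf hA' hC', Matrix.sub_mul, Matrix.mul_sub, Matrix.mul_assoc A, hC,
        Matrix.mul_assoc C, hA, ← Matrix.mul_assoc A, hA, ← Matrix.mul_assoc C, hC,
        Matrix.mul_assoc, Matrix.mul_assoc (cK ℂ H)]
  exact (h1 hX).2

include h hf tw in
/-- The complex structure of the part of type III belongs to the Lie algebra. -/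
theorem dp_mem {ι : Type} [Fintype ι] {P : Matrix (Fin G ⊕ Fin G) (Fin G ⊕ Fin G) ℚ}
    (H : ι → Matrix (Fin G ⊕ Fin G) (Fin a ⊕ Fin a) ℚ)
    (R : ι → Matrix (Fin a ⊕ Fin a) (Fin G ⊕ Fin G) ℚ)
    (hH : ∀ i, cK ℂ (H i) * DZ Z' = DZ Z * cK ℂ (H i)) (hP : ∑ i, H i * R i = P)
    (hPP : P * P = P) (hPD : cK ℂ P * DZ Z = DZ Z * cK ℂ P)
    (hU : ∀ U, IrS (LZ Z) U → (∀ u ∈ U, ml P u = 0) → 2 ≤ finrank ℂ U →
      ∀ X ∈ cm Z (KF Z E F), ∃ c : ℂ, ∀ u ∈ U, X *ᵥ u = c • u) :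
    DZ Z * cK ℂ P ∈ LZ Z := by
  obtain ⟨x', hx', y', hy', hxy⟩ := tw.br
  obtain ⟨x, hx, hxx⟩ := lift_cm h hf hx'
  obtain ⟨y, hy, hyy⟩ := lift_cm h hf hy'
  obtain ⟨m, hm⟩ : ∃ m, m = x * y - y * x := ⟨_, rfl⟩
  have hmL : m ∈ LZ Z := by
    rw [hm]
    exact LZ_br hx.2 hy.2
  have hmF : cK ℂ F * m * cK ℂ E = DZ Z' := by
    rw [hm, comp_br hf hx.2 hy.2, hxx, hyy, hxy]
  -- the action on the part of type III
  have hm1 : m * cK ℂ P = DZ Z * cK ℂ P := by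
    have h1 : cK ℂ P = ∑ i, cK ℂ (H i) * cK ℂ (R i) := by
      rw [← hP]
      ext x y
      simp [cK, Matrix.sum_apply, Matrix.mul_apply]
    rw [h1, Matrix.mul_sum, Matrix.mul_sum]
    refine Finset.sum_congr rfl fun i _ => ?_
    rw [← Matrix.mul_assoc, comp_all hf hmL (hH i), hmF, hH, Matrix.mul_assoc]
  -- the action on the complement
  have hm2 : ∀ v, m *ᵥ (v - ml P v) = 0 := by
    have hcomm : ∀ X ∈ LZ Z, X * cK ℂ P = cK ℂ P * X := fun X hX => commL_of hPD X hX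
    have hkey : ∀ U, IrS (LZ Z) U → (∀ u ∈ U, ml P u = 0) → ∀ u ∈ U, m *ᵥ u = 0 := by
      intro U hUi hU0 u hu
      have hsc : ∀ X ∈ cm Z (KF Z E F), ∃ c : ℂ, ∀ u ∈ U, X *ᵥ u = c • u := by
        by_cases h2 : 2 ≤ finrank ℂ U
        · exact hU U hUi hU0 h2
        · intro X hX
          have h3 : finrank ℂ U = 1 := by
            have h4 : finrank ℂ U ≠ 0 := by
              rw [ne_eq, Submodule.finrank_eq_zero]
              exact hUi.1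
            omega
          obtain ⟨⟨w, hw⟩, hw0, hall⟩ := finrank_eq_one_iff'.1 h3
          obtain ⟨c, hc⟩ := hall ⟨X *ᵥ w, hUi.2.1 X hX.2 w hw⟩
          refine ⟨c, fun u hu => ?_⟩
          obtain ⟨d, hd⟩ := hall ⟨u, hu⟩
          have hc' : c • w = X *ᵥ w := congrArg Subtype.val hc
          have hd' : d • w = u := congrArg Subtype.val hd
          rw [← hd', mulVec_smul, ← hc', smul_comm]
      obtain ⟨c, hc⟩ := hsc x hx
      obtain ⟨d, hd⟩ := hsc y hy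
      rw [hm, sub_mulVec, ← mulVec_mulVec, ← mulVec_mulVec, hc u hu, hd u hu, mulVec_smul,
        mulVec_smul, hc u hu, hd u hu, smul_comm, sub_self]
    let T : (Fin G ⊕ Fin G → ℂ) →ₗ[ℂ] (Fin G ⊕ Fin G → ℂ) := LinearMap.id - ml P
    have hTX : ∀ X ∈ LZ Z, ∀ v, T (X *ᵥ v) = X *ᵥ T v := by
      intro X hX v
      change X *ᵥ v - cK ℂ P *ᵥ (X *ᵥ v) = X *ᵥ (v - cK ℂ P *ᵥ v)
      rw [mulVec_sub, mulVec_mulVec, mulVec_mulVec, hcomm X hX]
    have hPT : ∀ v, ml P (T v) = 0 := by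
      intro v
      change cK ℂ P *ᵥ (v - cK ℂ P *ᵥ v) = 0
      rw [mulVec_sub, mulVec_mulVec, ← cK_mul, hPP, sub_self]
    have hspan : (⊤ : Submodule ℂ (Fin G ⊕ Fin G → ℂ)) ≤
        LinearMap.ker ((mulVecLin m).comp T) := by
      rw [← h.cred.span, sSup_le_iff]
      intro U hUi u hu
      change m *ᵥ T u = 0
      by_cases h0 : ∃ u ∈ U, T u ≠ 0
      · have hinj := IrS.inj hUi (fun X hX u _ => hTX X hX u) h0
        have h3 := irS_map hUi (fun X hX u _ => hTX X hX u) hinj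
        exact hkey _ h3 (by
          rintro _ ⟨u, hu, rfl⟩
          exact hPT u) _ ⟨u, hu, rfl⟩
      · push Not at h0
        rw [h0 u hu, mulVec_zero]
    intro v
    exact hspan (x := v) trivial
  have hm3 : m = DZ Z * cK ℂ P := by
    refine eq_of_mulVec fun v => ?_
    have h1 := hm2 v
    rw [mulVec_sub, sub_eq_zero] at h1
    rw [h1, ml_apply, mulVec_mulVec, hm1]
  rw [← hm3]
  exact hmL

end main

end

end Pool.Agent.L5helper19.TT
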