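import Mathlib
import Pool.Agent.Y90.Clo
import Pool.Agent.H204R3.SP.Lie

/-!
# Forms on a sum of two spaces
-/

set_option linter.unusedSectionVars false

namespace Pool.Agent.L5helper19.TT

open Module Pool.Agent.Y90 Pool.Agent.H204R3.SP

noncomputable section

section tensor

variable {K : Type*} [Field K]

/-- Spaces of functions of finite dimension are separated by finitely many points. -/
theorem exists_eval {X : Type*} (n : ℕ) : ∀ (A : Submodule K (X → K)) [FiniteDimensional K A],
    finrank K A ≤ n → ∃ (m : ℕ) (a : Fin m → X → K) (x : Fin m → X), (∀ i, a i ∈ A) ∧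
      ∀ f ∈ A, f = ∑ i, f (x i) • a i := by
  induction n with
  | zero =>
    intro A _ h
    refine ⟨0, fun i => i.elim0, fun i => i.elim0, fun i => i.elim0, fun f hf => ?_⟩
    have h1 : A = ⊥ := by
      rw [← Submodule.finrank_eq_zero (R := K)]
      omega
    rw [h1, Submodule.mem_bot] at hf
    rw [hf]
    simp
  | succ n ih =>
    intro A _ h
    by_cases hA : A = ⊥
    · refine ⟨0, fun i => i.elim0, fun i => i.elim0, fun i => i.elim0, fun f hf => ?_⟩
      rw [hA, Submodule.mem_bot] at hf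
      rw [hf]
      simp
    obtain ⟨g, hg, hg0⟩ := Submodule.exists_mem_ne_zero_of_ne_bot hA
    obtain ⟨x₀, hx₀⟩ : ∃ x, g x ≠ 0 := by
      by_contra hcon
      push Not at hcon
      exact hg0 (funext hcon)
    let A' : Submodule K (X → K) := A ⊓ LinearMap.ker (LinearMap.proj (R := K) (φ := fun _ => K) x₀)
    have hlt : A' < A := by
      refine lt_of_le_of_ne inf_le_left fun h1 => hx₀ ?_
      have h2 : g ∈ A' := by rw [h1]; exact hg
      exact h2.2
    have hfin : FiniteDimensional K A' := Submodule.finiteDimensional_of_le hlt.le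
    obtain ⟨m, a, x, ha, hf⟩ := ih A' (by
      have := Submodule.finrank_lt_finrank_of_lt hlt
      omega)
    obtain ⟨f₀, hf₀⟩ : ∃ f₀, f₀ = (g x₀)⁻¹ • g := ⟨_, rfl⟩
    have hf₀A : f₀ ∈ A := by
      rw [hf₀]
      exact A.smul_mem _ hg
    have hf₀x : f₀ x₀ = 1 := by
      rw [hf₀, Pi.smul_apply, smul_eq_mul, inv_mul_cancel₀ hx₀]
    refine ⟨m + 1, Fin.cons (f₀ - ∑ i, f₀ (x i) • a i) a, Fin.cons x₀ x, fun i => ?_, fun f hfA => ?_⟩
    · refine Fin.cases ?_ (fun i => ?_) i
      · rw [Fin.cons_zero]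
        exact A.sub_mem hf₀A (A.sum_mem fun i _ => A.smul_mem _ (hlt.le (ha i)))
      · rw [Fin.cons_succ]
        exact hlt.le (ha i)
    · have h1 : f - f x₀ • f₀ ∈ A' := by
        refine ⟨A.sub_mem hfA (A.smul_mem _ hf₀A), ?_⟩
        change f x₀ - f x₀ * f₀ x₀ = 0
        rw [hf₀x, mul_one, sub_self]
      have h2 := hf _ h1
      rw [Fin.sum_univ_succ]
      simp only [Fin.cons_zero, Fin.cons_succ]
      have h3 : ∑ i, (f - f x₀ • f₀) (x i) • a i = ∑ i, f (x i) • a i -
          f x₀ • ∑ i, f₀ (x i) • a i := by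
        rw [Finset.smul_sum, ← Finset.sum_sub_distrib]
        refine Finset.sum_congr rfl fun i _ => ?_
        rw [Pi.sub_apply, Pi.smul_apply, sub_smul, smul_eq_mul, mul_smul]
      rw [h3] at h2
      refine (eq_add_of_sub_eq h2).trans ?_
      rw [smul_sub]
      abel

/-- Tensors of finite rank. -/
theorem tensor_expand {κ κ' : Type} [Finite κ] [Finite κ'] {V : Type*} [AddCommGroup V]
    [Module K V] [FiniteDimensional K V]
    (N1 : Submodule K (MultilinearMap K (fun _ : κ => V) K))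
    (N2 : Submodule K (MultilinearMap K (fun _ : κ' => V) K)) (H : (κ → V) → (κ' → V) → K)
    (h1 : ∀ w, ∃ φ ∈ N1, ∀ u, φ u = H u w) (h2 : ∀ u, ∃ φ ∈ N2, ∀ w, φ w = H u w) :
    ∃ (m : ℕ) (a : Fin m → MultilinearMap K (fun _ : κ => V) K)
      (b : Fin m → MultilinearMap K (fun _ : κ' => V) K), (∀ i, a i ∈ N1) ∧ (∀ i, b i ∈ N2) ∧
      ∀ u w, H u w = ∑ i, a i u * b i w := by
  let c : MultilinearMap K (fun _ : κ => V) K →ₗ[K] ((κ → V) → K) :=
    { toFun := fun φ u => φ u
      map_add' := fun _ _ => rfl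
      map_smul' := fun _ _ => rfl }
  obtain ⟨m, a, x, ha, hx⟩ := exists_eval (finrank K (N1.map c)) (N1.map c) le_rfl
  choose a' ha' haa' using ha
  choose b hb hb' using fun i => h2 (x i)
  refine ⟨m, a', b, ha', hb, fun u w => ?_⟩
  obtain ⟨φ, hφ, hφ'⟩ := h1 w
  have h3 := congrFun (hx (c φ) ⟨φ, hφ, rfl⟩) u
  rw [Finset.sum_apply] at h3
  rw [← hφ']
  refine h3.trans (Finset.sum_congr rfl fun i _ => ?_)
  rw [Pi.smul_apply, smul_eq_mul, hb', ← haa' i, mul_comm]
  congr 1
  exact hφ' (x i)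

end tensor

section split

variable {V : Type} [AddCommGroup V] [Module ℂ V] [FiniteDimensional ℂ V]
  {N : ∀ (κ : Type) [Finite κ], Submodule ℂ (MultilinearMap ℂ (fun _ : κ => V) ℂ)} (hN : Clo N)
  {P1 P2 : End ℂ V} (hP : P1 + P2 = 1) {T1 T2 : Set (End ℂ V)}

/-- The restriction of a form to some of the variables is killed by an operator which kills the
form and vanishes on the values of the other variables. -/
theorem kills_restrict {κ : Type} [Fintype κ] [DecidableEq κ] (p : κ → Prop) [DecidablePred p]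
    [i1 : Fintype {a // p a}] [i2 : DecidableEq {a // p a}]
    {P P' : End ℂ V} {t : End ℂ V} (h1 : P * t = t * P) (h3 : t * P' = 0)
    {F : MultilinearMap ℂ (fun _ : κ => V) ℂ} (hF : Kills t F) (z : {a // ¬ p a} → V) :
    Kills t ((F.compLinearMap fun k => if p k then P else P').domDomRestrict p z) := by
  obtain rfl : i1 = Subtype.fintype p := Subsingleton.elim _ _
  intro u
  obtain ⟨w, hw⟩ : ∃ w : κ → V, w = fun k => if h : p k then P (u ⟨k, h⟩) else P' (z ⟨k, h⟩) :=
    ⟨_, rfl⟩
  have hwp : ∀ (l : κ) (hl : p l), w l = P (u ⟨l, hl⟩) := by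
    intro l hl
    rw [hw]
    beta_reduce
    rw [dif_pos hl]
  have hwn : ∀ (l : κ) (hl : ¬ p l), w l = P' (z ⟨l, hl⟩) := by
    intro l hl
    rw [hw]
    beta_reduce
    rw [dif_neg hl]
  have h4 := hF w
  rw [← Fintype.sum_subtype_add_sum_subtype p] at h4
  have h5 : ∀ k : {k // ¬ p k}, F (Function.update w (k : κ) (t (w k))) = 0 := by
    intro k
    refine F.map_coord_zero k.1 ?_
    rw [Function.update_self, hwn k.1 k.2]
    exact congrArg (fun f : End ℂ V => f (z k)) h3
  rw [Finset.sum_congr rfl fun k _ => h5 k, Finset.sum_const_zero, add_zero] at h4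
  rw [← h4]
  refine Finset.sum_congr rfl fun k _ => ?_
  change F _ = F _
  congr 1
  funext l
  beta_reduce
  by_cases hl : p l
  · rw [if_pos hl, dif_pos hl]
    by_cases hlk : l = k.1
    · subst hlk
      rw [Function.update_self k.1, hwp k.1 k.2]
      have h6 : Function.update u k (t (u k)) ⟨k.1, hl⟩ = t (u k) := Function.update_self k _ u
      rw [h6]
      exact congrArg (fun f : End ℂ V => f (u k)) h1
    · rw [Function.update_of_ne hlk, hwp l hl,
        Function.update_of_ne (fun h => hlk (congrArg Subtype.val h))]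
  · have hlk : l ≠ k.1 := by
      rintro rfl
      exact hl k.2
    rw [if_neg hl, dif_neg hl, Function.update_of_ne hlk, hwn l hl]

variable (hT1 : ∀ t ∈ T1, P1 * t = t * P1 ∧ t * P2 = 0)
  (hT2 : ∀ t ∈ T2, P2 * t = t * P2 ∧ t * P1 = 0)
  (hi1 : P1 * P1 = P1) (hi2 : P2 * P2 = P2)
  (hN1 : ∀ (κ : Type) [Fintype κ] [DecidableEq κ] (a : MultilinearMap ℂ (fun _ : κ => V) ℂ),
    (∀ v, a (fun k => P1 (v k)) = a v) → (∀ t ∈ T1, Kills t a) → a ∈ N κ)
  (hN2 : ∀ (κ : Type) [Fintype κ] [DecidableEq κ] (a : MultilinearMap ℂ (fun _ : κ => V) ℂ),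
    (∀ v, a (fun k => P2 (v k)) = a v) → (∀ t ∈ T2, Kills t a) → a ∈ N κ)

include hN hP hT1 hT2 hi1 hi2 hN1 hN2 in
/-- Forms on a sum of two spaces which are killed by operators on the two summands. -/
theorem split_mem {κ : Type} [Fintype κ] [DecidableEq κ] (F : MultilinearMap ℂ (fun _ : κ => V) ℂ)
    (h1 : ∀ t ∈ T1, Kills t F) (h2 : ∀ t ∈ T2, Kills t F) : F ∈ N κ := by
  classical
  have hsum : F = ∑ s : Finset κ, F.compLinearMap fun k => if k ∈ s then P1 else P2 := by
    refine MultilinearMap.ext fun v => ?_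
    rw [_root_.sum_apply]
    have h3 : v = (fun k => P1 (v k)) + fun k => P2 (v k) := by
      funext k
      exact (congrArg (fun f : End ℂ V => f (v k)) hP).symm
    conv_lhs => rw [h3]
    rw [F.map_add_univ]
    refine Finset.sum_congr rfl fun s _ => ?_
    rw [MultilinearMap.compLinearMap_apply]
    congr 1
    funext k
    by_cases hk : k ∈ s
    · rw [Finset.piecewise_eq_of_mem _ _ _ hk, if_pos hk]
    · rw [Finset.piecewise_eq_of_notMem _ _ _ hk, if_neg hk]
  rw [hsum]
  refine Submodule.sum_mem _ fun s _ => ?_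
  obtain ⟨G, hG⟩ : ∃ G, G = F.compLinearMap fun k => if k ∈ s then P1 else P2 := ⟨_, rfl⟩
  rw [← hG]
  have hGa : ∀ v, G v = F fun k => if k ∈ s then P1 (v k) else P2 (v k) := by
    intro v
    rw [hG, MultilinearMap.compLinearMap_apply]
    congr 1
    funext k
    split_ifs <;> rfl
  have hP1 : ∀ x, P1 (P1 x) = P1 x := fun x => congrArg (fun f : End ℂ V => f x) hi1
  have hP2 : ∀ x, P2 (P2 x) = P2 x := fun x => congrArg (fun f : End ℂ V => f x) hi2
  obtain ⟨H, hH⟩ : ∃ H : ({k // k ∈ s} → V) → ({k // k ∉ s} → V) → ℂ, H = fun u w =>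
    G fun k => if h : k ∈ s then u ⟨k, h⟩ else w ⟨k, h⟩ := ⟨_, rfl⟩
  have e1 : ∀ w, ∃ φ ∈ N {k // k ∈ s}, ∀ u, φ u = H u w := by
    intro w
    refine ⟨G.domDomRestrict (· ∈ s) w, hN1 _ _ (fun v => ?_) (fun t ht => ?_), fun u => ?_⟩
    · rw [MultilinearMap.domDomRestrict_apply, MultilinearMap.domDomRestrict_apply, hGa, hGa]
      congr 1
      funext k
      by_cases hk : k ∈ s
      · simp only [if_pos hk, dif_pos hk, hP1]
      · simp only [if_neg hk, dif_neg hk]
    · rw [hG]
      exact kills_restrict (· ∈ s) (hT1 t ht).1 (hT1 t ht).2 (h1 t ht) w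
    · rw [hH]
      rfl
  have e2 : ∀ u, ∃ φ ∈ N {k // k ∉ s}, ∀ w, φ w = H u w := by
    intro u
    refine ⟨G.domDomRestrict (· ∉ s) (fun k => u ⟨k, not_not.1 k.2⟩),
      hN2 _ _ (fun v => ?_) (fun t ht => ?_), fun w => ?_⟩
    · rw [MultilinearMap.domDomRestrict_apply, MultilinearMap.domDomRestrict_apply, hGa, hGa]
      congr 1
      funext k
      by_cases hk : k ∈ s
      · simp only [if_pos hk, dif_neg (not_not.2 hk)]
      · simp only [if_neg hk, dif_pos hk, hP2]
    · have h6 : G = F.compLinearMap fun k => if k ∉ s then P2 else P1 := by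
        rw [hG]
        congr 1
        funext k
        by_cases hk : k ∈ s
        · rw [if_pos hk, if_neg (not_not.2 hk)]
        · rw [if_neg hk, if_pos hk]
      rw [h6]
      exact kills_restrict (· ∉ s) (hT2 t ht).1 (hT2 t ht).2 (h2 t ht)
        (fun k => u ⟨k, not_not.1 k.2⟩)
    · rw [MultilinearMap.domDomRestrict_apply, hH]
      beta_reduce
      congr 1
      funext k
      by_cases hk : k ∈ s
      · rw [dif_neg (not_not.2 hk), dif_pos hk]
      · rw [dif_pos hk, dif_neg hk]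
  obtain ⟨m, a, b, ha, hb, hab⟩ := tensor_expand (N {k // k ∈ s}) (N {k // k ∉ s}) H e1 e2
  have h5 : G = ∑ i, (prd (a i) (b i)).domDomCongr (Equiv.sumCompl (· ∈ s)) := by
    refine MultilinearMap.ext fun v => ?_
    rw [_root_.sum_apply]
    have h6 : G v = H (fun k => v k) (fun k => v k) := by
      rw [hH]
      beta_reduce
      congr 1
      funext k
      split_ifs <;> rfl
    rw [h6, hab]
    rfl
  rw [h5]
  refine Submodule.sum_mem _ fun i _ => ?_
  exact hN.mul _ _ _ (Equiv.sumCompl (· ∈ s)) (a i) (b i) _ (ha i) (hb i) fun v => rfl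

include hN hT1 hT2 hi1 hi2 hN1 hN2 in
/-- Forms on a sum of two subspaces which are killed by operators on the two summands. -/
theorem split_mem' {κ : Type} [Fintype κ] [DecidableEq κ] (F : MultilinearMap ℂ (fun _ : κ => V) ℂ)
    (hF : ∀ v, F (fun k => P1 (v k) + P2 (v k)) = F v)
    (h1 : ∀ t ∈ T1, Kills t F) (h2 : ∀ t ∈ T2, Kills t F) : F ∈ N κ := by
  classical
  have hsum : F = ∑ s : Finset κ, F.compLinearMap fun k => if k ∈ s then P1 else P2 := by
    refine MultilinearMap.ext fun v => ?_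
    rw [_root_.sum_apply]
    have h3 : (fun k => P1 (v k) + P2 (v k)) = (fun k => P1 (v k)) + fun k => P2 (v k) := rfl
    rw [← hF, h3]
    rw [F.map_add_univ]
    refine Finset.sum_congr rfl fun s _ => ?_
    rw [MultilinearMap.compLinearMap_apply]
    congr 1
    funext k
    by_cases hk : k ∈ s
    · rw [Finset.piecewise_eq_of_mem _ _ _ hk, if_pos hk]
    · rw [Finset.piecewise_eq_of_notMem _ _ _ hk, if_neg hk]
  rw [hsum]
  refine Submodule.sum_mem _ fun s _ => ?_
  obtain ⟨G, hG⟩ : ∃ G, G = F.compLinearMap fun k => if k ∈ s then P1 else P2 := ⟨_, rfl⟩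
  rw [← hG]
  have hGa : ∀ v, G v = F fun k => if k ∈ s then P1 (v k) else P2 (v k) := by
    intro v
    rw [hG, MultilinearMap.compLinearMap_apply]
    congr 1
    funext k
    split_ifs <;> rfl
  have hP1 : ∀ x, P1 (P1 x) = P1 x := fun x => congrArg (fun f : End ℂ V => f x) hi1
  have hP2 : ∀ x, P2 (P2 x) = P2 x := fun x => congrArg (fun f : End ℂ V => f x) hi2
  obtain ⟨H, hH⟩ : ∃ H : ({k // k ∈ s} → V) → ({k // k ∉ s} → V) → ℂ, H = fun u w =>
    G fun k => if h : k ∈ s then u ⟨k, h⟩ else w ⟨k, h⟩ := ⟨_, rfl⟩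
  have e1 : ∀ w, ∃ φ ∈ N {k // k ∈ s}, ∀ u, φ u = H u w := by
    intro w
    refine ⟨G.domDomRestrict (· ∈ s) w, hN1 _ _ (fun v => ?_) (fun t ht => ?_), fun u => ?_⟩
    · rw [MultilinearMap.domDomRestrict_apply, MultilinearMap.domDomRestrict_apply, hGa, hGa]
      congr 1
      funext k
      by_cases hk : k ∈ s
      · simp only [if_pos hk, dif_pos hk, hP1]
      · simp only [if_neg hk, dif_neg hk]
    · rw [hG]
      exact kills_restrict (· ∈ s) (hT1 t ht).1 (hT1 t ht).2 (h1 t ht) w
    · rw [hH]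
      rfl
  have e2 : ∀ u, ∃ φ ∈ N {k // k ∉ s}, ∀ w, φ w = H u w := by
    intro u
    refine ⟨G.domDomRestrict (· ∉ s) (fun k => u ⟨k, not_not.1 k.2⟩),
      hN2 _ _ (fun v => ?_) (fun t ht => ?_), fun w => ?_⟩
    · rw [MultilinearMap.domDomRestrict_apply, MultilinearMap.domDomRestrict_apply, hGa, hGa]
      congr 1
      funext k
      by_cases hk : k ∈ s
      · simp only [if_pos hk, dif_neg (not_not.2 hk)]
      · simp only [if_neg hk, dif_pos hk, hP2]
    · have h6 : G = F.compLinearMap fun k => if k ∉ s then P2 else P1 := by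
        rw [hG]
        congr 1
        funext k
        by_cases hk : k ∈ s
        · rw [if_pos hk, if_neg (not_not.2 hk)]
        · rw [if_neg hk, if_pos hk]
      rw [h6]
      exact kills_restrict (· ∉ s) (hT2 t ht).1 (hT2 t ht).2 (h2 t ht)
        (fun k => u ⟨k, not_not.1 k.2⟩)
    · rw [MultilinearMap.domDomRestrict_apply, hH]
      beta_reduce
      congr 1
      funext k
      by_cases hk : k ∈ s
      · rw [dif_neg (not_not.2 hk), dif_pos hk]
      · rw [dif_pos hk, dif_neg hk]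
  obtain ⟨m, a, b, ha, hb, hab⟩ := tensor_expand (N {k // k ∈ s}) (N {k // k ∉ s}) H e1 e2
  have h5 : G = ∑ i, (prd (a i) (b i)).domDomCongr (Equiv.sumCompl (· ∈ s)) := by
    refine MultilinearMap.ext fun v => ?_
    rw [_root_.sum_apply]
    have h6 : G v = H (fun k => v k) (fun k => v k) := by
      rw [hH]
      beta_reduce
      congr 1
      funext k
      split_ifs <;> rfl
    rw [h6, hab]
    rfl
  rw [h5]
  refine Submodule.sum_mem _ fun i _ => ?_
  exact hN.mul _ _ _ (Equiv.sumCompl (· ∈ s)) (a i) (b i) _ (ha i) (hb i) fun v => rfl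

end split

end

end Pool.Agent.L5helper19.TT
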