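import Mathlib
import Pool.Agent.L5helper19.TT.Ind2

/-!
# Two factors of type III
-/

set_option linter.unusedSectionVars false

namespace Pool.Agent.L5helper19.TT

open Matrix Module Pool.Agent.W437.HC Pool.Agent.W437.HD Pool.Agent.TH504.CB Pool.Agent.Y90
open Pool.Agent.R915
open Pool.Agent.W548.Odd hiding cv
open Pool.Agent.H204R3.CM (IsHodge)
open Pool.Agent.W437.HP (cK cK_mul cK_one)

noncomputable section

section two

/-- The diagonal matrix. -/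
def HH : Matrix (Fin 2) (Fin 2) ℂ := !![1, 0; 0, -1]

/-- The upper triangular matrix. -/
def EE : Matrix (Fin 2) (Fin 2) ℂ := !![0, 1; 0, 0]

/-- The lower triangular matrix. -/
def FF : Matrix (Fin 2) (Fin 2) ℂ := !![0, 0; 1, 0]

theorem HH00 : HH 0 0 = 1 := rfl
theorem HH01 : HH 0 1 = 0 := rfl
theorem HH10 : HH 1 0 = 0 := rfl
theorem HH11 : HH 1 1 = -1 := rfl
theorem EE00 : EE 0 0 = 0 := rfl
theorem EE01 : EE 0 1 = 1 := rfl
theorem EE10 : EE 1 0 = 0 := rfl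
theorem EE11 : EE 1 1 = 0 := rfl
theorem FF00 : FF 0 0 = 0 := rfl
theorem FF01 : FF 0 1 = 0 := rfl
theorem FF10 : FF 1 0 = 1 := rfl
theorem FF11 : FF 1 1 = 0 := rfl

theorem tl_H : Tl HH := rfl

theorem tl_E : Tl EE := by
  unfold Tl
  rw [EE00, EE11, neg_zero]

theorem tl_F : Tl FF := by
  unfold Tl
  rw [FF00, FF11, neg_zero]

theorem tl_0 : Tl 0 := by
  unfold Tl
  rw [Matrix.zero_apply, Matrix.zero_apply, neg_zero]

variable {x y : Matrix (Fin 2) (Fin 2) ℂ}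

theorem Tl.add (hx : Tl x) (hy : Tl y) : Tl (x + y) := by
  unfold Tl at *
  rw [Matrix.add_apply, Matrix.add_apply, hx, hy]
  ring

theorem Tl.smul (c : ℂ) (hx : Tl x) : Tl (c • x) := by
  unfold Tl at *
  rw [Matrix.smul_apply, Matrix.smul_apply, hx, smul_neg]

theorem Tl.sub (hx : Tl x) (hy : Tl y) : Tl (x - y) := by
  unfold Tl at *
  rw [Matrix.sub_apply, Matrix.sub_apply, hx, hy]
  ring

theorem Tl.br (hx : Tl x) (hy : Tl y) : Tl (x * y - y * x) := by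
  unfold Tl at *
  simp only [Matrix.sub_apply, Matrix.mul_apply, Fin.sum_univ_two]
  ring

theorem ext2 {x y : Matrix (Fin 2) (Fin 2) ℂ} (h1 : x 0 0 = y 0 0) (h2 : x 0 1 = y 0 1)
    (h3 : x 1 0 = y 1 0) (h4 : x 1 1 = y 1 1) : x = y := by
  ext i j
  fin_cases i <;> fin_cases j
  · exact h1
  · exact h2
  · exact h3
  · exact h4

theorem brHE : HH * EE - EE * HH = (2 : ℂ) • EE := by
  apply ext2 <;> simp [Matrix.mul_apply, HH, EE] <;> norm_num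

theorem brHF : HH * FF - FF * HH = (-2 : ℂ) • FF := by
  apply ext2 <;> simp [Matrix.mul_apply, HH, FF] <;> norm_num

theorem brEF : EE * FF - FF * EE = HH := by
  apply ext2 <;> simp [Matrix.mul_apply, HH, EE, FF]

/-- The commutant of a nonzero traceless matrix. -/
theorem tl_comm (hx : Tl x) (hy : Tl y) (hy0 : y ≠ 0) (hxy : x * y = y * x) :
    ∃ c : ℂ, x = c • y := by
  unfold Tl at hx hy
  have h1 := congrFun (congrFun hxy 0) 0
  have h2 := congrFun (congrFun hxy 0) 1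
  have h3 := congrFun (congrFun hxy 1) 0
  simp only [Matrix.mul_apply, Fin.sum_univ_two, hx, hy] at h1 h2 h3
  by_cases hq : y 0 1 = 0
  · by_cases hr : y 1 0 = 0
    · have hp : y 0 0 ≠ 0 := fun hp => hy0 (ext2 hp hq hr (by rw [hy, hp]; simp))
      refine ⟨x 0 0 / y 0 0, ext2 ?_ ?_ ?_ ?_⟩
      · simp [hp]
      · rw [Matrix.smul_apply, hq, smul_zero]
        rw [hq] at h2
        have h4 : x 0 1 * y 0 0 = 0 := by linear_combination -(1 / 2 : ℂ) * h2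
        exact (mul_eq_zero.1 h4).resolve_right hp
      · rw [Matrix.smul_apply, hr, smul_zero]
        rw [hr] at h3
        have h4 : x 1 0 * y 0 0 = 0 := by linear_combination (1 / 2 : ℂ) * h3
        exact (mul_eq_zero.1 h4).resolve_right hp
      · rw [Matrix.smul_apply, hy, hx, smul_eq_mul, mul_neg, div_mul_cancel₀ _ hp]
    · refine ⟨x 1 0 / y 1 0, ext2 ?_ ?_ ?_ ?_⟩
      · rw [Matrix.smul_apply, smul_eq_mul]
        field_simp
        linear_combination -(1 / 2 : ℂ) * h3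
      · rw [Matrix.smul_apply, smul_eq_mul]
        field_simp
        linear_combination h1
      · simp [hr]
      · rw [Matrix.smul_apply, hx, hy, smul_eq_mul]
        field_simp
        linear_combination (1 / 2 : ℂ) * h3
  · refine ⟨x 0 1 / y 0 1, ext2 ?_ ?_ ?_ ?_⟩
    · rw [Matrix.smul_apply, smul_eq_mul]
      field_simp
      linear_combination (1 / 2 : ℂ) * h2
    · simp [hq]
    · rw [Matrix.smul_apply, smul_eq_mul]
      field_simp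
      linear_combination -h1
    · rw [Matrix.smul_apply, hx, hy, smul_eq_mul]
      field_simp
      linear_combination -(1 / 2 : ℂ) * h2

end two

section adapt

variable {g : ℕ} {Z : Matrix (Fin g) (Fin g) ℂ} {I J : Matrix (Fin g ⊕ Fin g) (Fin g ⊕ Fin g) ℚ}
  {a b : ℚ} (h : PM Z) (hg : 0 < g) (k : QM Z I J a b) {α : ℂ} (hα : α * α = -(a : ℂ))
  {bb : Fin 2 → Fin 2 → Fin g ⊕ Fin g → ℂ} (t : T4 Z (EW I α) bb)

include h hg k hα t in
/-- The basis may be adapted to a conjugate of the complex structure. -/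
theorem T4.adapt (hg4 : g = 4) {σ : ℂ ≃+* ℂ} {x : Matrix (Fin 2) (Fin 2) ℂ} (hx : Tl x)
    (hσ : Ten bb (DS Z σ) x 0) :
    ∃ bb' : Fin 2 → Fin 2 → Fin g ⊕ Fin g → ℂ, T4 Z (EW I α) bb' ∧ Ten bb' (DS Z σ) HH 0 := by
  have hcom : DS Z σ * DZ Z = DZ Z * DS Z σ := by
    rw [← sub_eq_zero]
    refine t.zero k hα (LZ_br (DS_mem σ) DZ_mem) ?_
    have h1 := hσ.br t.dz
    rwa [mul_zero, zero_mul, sub_zero, zero_mul, mul_zero, sub_zero] at h1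
  have hS : ∀ v ∈ EW I α ⊓ eig Z 1, DS Z σ *ᵥ v ∈ EW I α ⊓ eig Z 1 := by
    intro v hv
    refine ⟨k.stabW α _ (DS_mem σ) v hv.1, mem_eig.2 ?_⟩
    rw [mulVec_mulVec, ← hcom, ← mulVec_mulVec, mem_eig.1 hv.2, mulVec_smul]
  have hSS : ∀ v, DS Z σ *ᵥ (DS Z σ *ᵥ v) = v := fun v => by
    rw [mulVec_mulVec, DS_sq h.det, one_mulVec]
  have hb0m : ∀ i, bb i 0 ∈ EW I α ⊓ eig Z 1 := by
    intro i
    refine ⟨t.bs.mem i 0, mem_eig.2 ?_⟩
    rw [t.dz]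
    simp [Fin.sum_univ_two]
  have hne : ∀ s : ℂ, s * s = 1 → ∃ v ∈ EW I α ⊓ eig Z 1, DS Z σ *ᵥ v ≠ s • v := by
    intro s hs
    by_contra hcon
    push Not at hcon
    have h1 : ∀ i, x i i = s := by
      intro i
      have h2 : DS Z σ *ᵥ bb i 0 =
          ∑ l, ∑ m, ((if l = i ∧ m = 0 then s else 0 : ℂ)) • bb l m := by
        rw [hcon (bb i 0) (hb0m i)]
        simp only [Fin.sum_univ_two]
        fin_cases i <;> simp
      have h3 := t.bs.coef hσ i 0 (w := fun l m => if l = i ∧ m = 0 then s else 0) h2 i 0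
      simpa using h3
    have h2 := hx
    unfold Tl at h2
    rw [h1, h1] at h2
    have h3 : s = 0 := by linear_combination (1 / 2 : ℂ) * h2
    rw [h3, mul_zero] at hs
    exact zero_ne_one hs
  obtain ⟨u₁, hu₁, hu₁'⟩ := hne (-1) (by ring)
  obtain ⟨u₂, hu₂, hu₂'⟩ := hne 1 (by ring)
  have k0 : u₁ + DS Z σ *ᵥ u₁ ≠ 0 := fun h1 => hu₁' (by
    rw [neg_one_smul]
    exact (neg_eq_of_add_eq_zero_right h1).symm)
  have k1 : u₂ - DS Z σ *ᵥ u₂ ≠ 0 := fun h1 => hu₂' (by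
    rw [one_smul]
    exact (sub_eq_zero.1 h1).symm)
  obtain ⟨x, hx⟩ : ∃ x, x = u₁ + DS Z σ *ᵥ u₁ := ⟨_, rfl⟩
  obtain ⟨y, hy⟩ : ∃ y, y = u₂ - DS Z σ *ᵥ u₂ := ⟨_, rfl⟩
  rw [← hx] at k0
  rw [← hy] at k1
  have hxm : x ∈ EW I α ⊓ eig Z 1 := hx ▸ Submodule.add_mem _ hu₁ (hS _ hu₁)
  have hym : y ∈ EW I α ⊓ eig Z 1 := hy ▸ Submodule.sub_mem _ hu₂ (hS _ hu₂)
  have hSx : DS Z σ *ᵥ x = x := by
    rw [hx, mulVec_add, hSS, add_comm]
  have hSy : DS Z σ *ᵥ y = -y := by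
    rw [hy, mulVec_sub, hSS, neg_sub]
  obtain ⟨bb', hbe', hb', hT', hD'⟩ := k.pass h hg hα hg4 (e := ![x, y]) (fun i => by
    fin_cases i
    · exact hxm
    · exact hym) (by
      rw [LinearIndependent.pair_iff]
      intro s t hst
      have h1 := congrArg (DS Z σ *ᵥ ·) hst
      simp only [mulVec_add, mulVec_smul, hSx, hSy, mulVec_zero] at h1
      have h2 : (2 * s) • x = 0 := by
        have h3 : (2 * s) • x = (s • x + t • y) + (s • x + t • -y) := by module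
        rw [h3, hst, h1, add_zero]
      have h4 : s = 0 := by
        have h5 := (smul_eq_zero.1 h2).resolve_right k0
        exact (mul_eq_zero.1 h5).resolve_left two_ne_zero
      rw [h4, zero_smul, zero_add] at hst
      exact ⟨h4, (smul_eq_zero.1 hst).resolve_right k1⟩)
  obtain ⟨a₁, c₁, ha₁, hc₁, hσ₁⟩ := hT' _ (DS_mem σ)
  have hb0 : bb' 0 0 = x := hbe' 0
  have hb1 : bb' 1 0 = y := hbe' 1
  have m0 := hb'.coef hσ₁ 0 0 (w := fun l m => if l = 0 ∧ m = 0 then 1 else 0) (by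
    rw [hb0, hSx]
    simp [Fin.sum_univ_two, hb0])
  have m1 := hb'.coef hσ₁ 1 0 (w := fun l m => if l = 1 ∧ m = 0 then -1 else 0) (by
    rw [hb1, hSy]
    simp [Fin.sum_univ_two, hb1])
  have m00 := m0 0 0
  have m10 := m0 1 0
  have n00 := m1 0 0
  have n10 := m1 1 0
  simp only [Fin.isValue, if_true, zero_ne_one, one_ne_zero, if_false, and_true, and_false,
    add_zero, zero_add, and_self] at m00 m10 n00 n10
  have ha00 : a₁ 0 0 = 1 := by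
    unfold Tl at ha₁
    linear_combination (1 / 2 : ℂ) * m00 - (1 / 2 : ℂ) * n10 + (1 / 2 : ℂ) * ha₁
  have hc0 : c₁ = 0 := (hb'.invol hσ₁ ha₁ hc₁ (DS_sq h.det σ)).resolve_left fun h0 => by
    rw [h0, Matrix.zero_apply] at ha00
    exact zero_ne_one ha00
  have ha₁' : a₁ = HH := by
    refine ext2 ha00 n00 m10 ?_
    rw [ha₁, ha00]
    rfl
  rw [hc0, ha₁'] at hσ₁
  refine ⟨bb', ⟨hb', hT', fun c hc => ?_, fun c hc => ?_, hD'⟩, hσ₁⟩
  · obtain ⟨X, hX, hX'⟩ := hb'.flip.full (fun X hX Y hY => LZ_br hX hY) (k.irr h hg hα)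
      (fun X hX => by
        obtain ⟨a, c, ha, hc, h2⟩ := hT' X hX
        exact ⟨c, a, hc, ha, h2.flip⟩) (DS_mem σ) hσ₁.flip c hc
    exact ⟨X, hX, hX'.flip⟩
  · exact hb'.full (fun X hX Y hY => LZ_br hX hY) (k.irr h hg hα) hT' DZ_mem hD' c hc

end adapt

section comm

variable {g : ℕ} {Z : Matrix (Fin g) (Fin g) ℂ} {I J : Matrix (Fin g ⊕ Fin g) (Fin g ⊕ Fin g) ℚ}
  {a b : ℚ} (k : QM Z I J a b) {α : ℂ} (hα : α * α = -(a : ℂ))
  {bb : Fin 2 → Fin 2 → Fin g ⊕ Fin g → ℂ} (t : T4 Z (EW I α) bb)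

/-- No component on the first factor. -/
def P1 (bb : Fin 2 → Fin 2 → Fin g ⊕ Fin g → ℂ) (C : Set (Matrix (Fin g ⊕ Fin g) (Fin g ⊕ Fin g) ℂ)) :
    Prop := ∀ X ∈ C, ∃ y, Tl y ∧ Ten bb X 0 y

/-- No component on the second factor. -/
def P2 (bb : Fin 2 → Fin 2 → Fin g ⊕ Fin g → ℂ) (C : Set (Matrix (Fin g ⊕ Fin g) (Fin g ⊕ Fin g) ℂ)) :
    Prop := ∀ X ∈ C, ∃ x, Tl x ∧ Ten bb X x 0

variable {C C' : Set (Matrix (Fin g ⊕ Fin g) (Fin g ⊕ Fin g) ℂ)}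

omit k in
theorem alt_gen {W : Submodule ℂ (Fin g ⊕ Fin g → ℂ)} (tbs : Bs W bb)
    (tact : ∀ X ∈ LZ Z, ∃ a c, Tl a ∧ Tl c ∧ Ten bb X a c)
    (tsnd : ∀ c, Tl c → ∃ X ∈ LZ Z, Ten bb X 0 c) (hC : ∀ X ∈ C, X ∈ LZ Z) (hC' : ∀ X ∈ C', X ∈ LZ Z)
    (hCC : ∀ X ∈ C, ∀ Y ∈ C', X * Y = Y * X)
    (hsum : ∀ X ∈ LZ Z, ∃ Y ∈ C, ∃ Y' ∈ C', X = Y + Y') : P2 bb C ∨ P2 bb C' := by
  by_contra hcon
  push Not at hcon
  unfold P2 at hcon
  push Not at hcon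
  obtain ⟨⟨X0, hX0, h1⟩, ⟨X0', hX0', h2⟩⟩ := hcon
  obtain ⟨x0, y0, hx0, hy0, hT0⟩ := tact X0 (hC X0 hX0)
  obtain ⟨x0', y0', hx0', hy0', hT0'⟩ := tact X0' (hC' X0' hX0')
  have hy0n : y0 ≠ 0 := fun h0 => by
    subst h0
    exact h1 x0 hx0 hT0
  have hy0n' : y0' ≠ 0 := fun h0 => by
    subst h0
    exact h2 x0' hx0' hT0'
  have hbr : ∀ {X Y : Matrix (Fin g ⊕ Fin g) (Fin g ⊕ Fin g) ℂ}
      {x y x' y' : Matrix (Fin 2) (Fin 2) ℂ}, X * Y = Y * X → Tl x → Tl y → Tl x' → Tl y' →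
      Ten bb X x y → Ten bb Y x' y' → y * y' = y' * y := by
    intro X Y x y x' y' hXY hx hy hx' hy' hT hT'
    have h3 := hT.br hT'
    rw [hXY, sub_self] at h3
    exact sub_eq_zero.1 (tbs.unique h3 Ten.zero (hx.br hx') (hy.br hy') tl_0 tl_0).2
  obtain ⟨c0, hc0⟩ := tl_comm hy0 hy0' hy0n' (hbr (hCC X0 hX0 X0' hX0') hx0 hy0 hx0' hy0' hT0 hT0')
  have key : ∀ y, Tl y → ∃ c : ℂ, y = c • y0' := by
    intro y hy
    obtain ⟨X, hX, hT⟩ := tsnd y hy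
    obtain ⟨Y, hY, Y', hY', rfl⟩ := hsum X hX
    obtain ⟨u, v, hu, hv, hTY⟩ := tact Y (hC Y hY)
    obtain ⟨u', v', hu', hv', hTY'⟩ := tact Y' (hC' Y' hY')
    obtain ⟨c1, hc1⟩ := tl_comm hv hy0' hy0n' (hbr (hCC Y hY X0' hX0') hu hv hx0' hy0' hTY hT0')
    obtain ⟨c2, hc2⟩ := tl_comm hv' hy0 hy0n (hbr (hCC X0 hX0 Y' hY').symm hu' hv' hx0 hy0
      hTY' hT0)
    have h3 := (tbs.unique hT (hTY.add hTY') tl_0 hy (hu.add hu') (hv.add hv')).2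
    refine ⟨c1 + c2 * c0, ?_⟩
    rw [h3, hc1, hc2, hc0, smul_smul, add_smul]
  obtain ⟨c1, h3⟩ := key EE tl_E
  obtain ⟨c2, h4⟩ := key FF tl_F
  have e1 := congrFun (congrFun h3 0) 1
  have e2 := congrFun (congrFun h3 1) 0
  have e3 := congrFun (congrFun h4 0) 1
  have e4 := congrFun (congrFun h4 1) 0
  rw [Matrix.smul_apply, smul_eq_mul] at e1 e2 e3 e4
  rw [EE01] at e1
  rw [EE10] at e2
  rw [FF01] at e3
  rw [FF10] at e4
  have hc1 : c1 ≠ 0 := fun h0 => by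
    rw [h0, zero_mul] at e1
    exact one_ne_zero e1
  have h5 : y0' 1 0 = 0 := (mul_eq_zero.1 e2.symm).resolve_left hc1
  rw [h5, mul_zero] at e4
  exact one_ne_zero e4

variable {k hα} in
include k hα t in
/-- One of two complementary rational ideals vanishes. -/
theorem T4.dich {C C' : Submodule ℂ (Matrix (Fin g ⊕ Fin g) (Fin g ⊕ Fin g) ℂ)} (hC : C ≤ LZ Z)
    (hC' : C' ≤ LZ Z) (hCC : ∀ X ∈ C, ∀ Y ∈ C', X * Y = Y * X)
    (hsum : ∀ X ∈ LZ Z, ∃ Y ∈ C, ∃ Y' ∈ C', X = Y + Y')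
    (hg1 : ∀ σ : ℂ ≃+* ℂ, ∀ X ∈ C, X.map σ ∈ C) (hg2 : ∀ σ : ℂ ≃+* ℂ, ∀ X ∈ C', X.map σ ∈ C')
    (hb1 : ∀ X ∈ C, ∀ Y ∈ C, X * Y - Y * X ∈ C) (hb2 : ∀ X ∈ C', ∀ Y ∈ C', X * Y - Y * X ∈ C') :
    (∀ X ∈ C, X = 0) ∨ (∀ X ∈ C', X = 0) := by
  have hA : P2 bb (C : Set (Matrix (Fin g ⊕ Fin g) (Fin g ⊕ Fin g) ℂ)) ∨ P2 bb C' :=
    alt_gen t.bs t.act t.snd hC hC' hCC hsum
  have hB' := alt_gen (C := C) (C' := C') t.bs.flip (fun X hX => by
    obtain ⟨a, c, ha, hc, h2⟩ := t.act X hX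
    exact ⟨c, a, hc, ha, h2.flip⟩) (fun c hc => by
      obtain ⟨X, hX, hX'⟩ := t.fst c hc
      exact ⟨X, hX, hX'.flip⟩) hC hC' hCC hsum
  have hB : P1 bb (C : Set (Matrix (Fin g ⊕ Fin g) (Fin g ⊕ Fin g) ℂ)) ∨ P1 bb C' := by
    rcases hB' with h1 | h1
    · left
      intro X hX
      obtain ⟨x, hx, hT⟩ := h1 X hX
      exact ⟨x, hx, hT.flip⟩
    · right
      intro X hX
      obtain ⟨x, hx, hT⟩ := h1 X hX
      exact ⟨x, hx, hT.flip⟩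
  have hz : ∀ {S : Submodule ℂ (Matrix (Fin g ⊕ Fin g) (Fin g ⊕ Fin g) ℂ)}, S ≤ LZ Z →
      P1 bb (S : Set (Matrix (Fin g ⊕ Fin g) (Fin g ⊕ Fin g) ℂ)) → P2 bb (S : Set _) →
      ∀ X ∈ S, X = 0 := by
    intro S hS h1 h2 X hX
    obtain ⟨y, hy, hTy⟩ := h1 X hX
    obtain ⟨x, hx, hTx⟩ := h2 X hX
    have h3 := t.bs.unique hTy hTx tl_0 hy hx tl_0
    rw [h3.2] at hTy
    exact t.zero k hα (hS hX) hTy
  have hall : ∀ {S : Submodule ℂ (Matrix (Fin g ⊕ Fin g) (Fin g ⊕ Fin g) ℂ)},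
      (∀ σ : ℂ ≃+* ℂ, ∀ X ∈ S, X.map σ ∈ S) → (∀ X ∈ S, ∀ Y ∈ S, X * Y - Y * X ∈ S) →
      DZ Z ∈ S → LZ Z ≤ S := by
    intro S h1 h2 h3
    exact LZ_le (fun σ => h1 σ _ h3) h2
  obtain ⟨c, hc, c', hc', hcc⟩ := hsum _ (DZ_mem (Z := Z))
  rcases hA with h1 | h1 <;> rcases hB with h2 | h2
  · exact Or.inl (hz hC h2 h1)
  · -- the complex structure belongs to the second ideal
    obtain ⟨x, hx, hTx⟩ := h1 c hc
    obtain ⟨y, hy, hTy⟩ := h2 c' hc'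
    have h3 := hTx.add hTy
    rw [← hcc, add_zero, zero_add] at h3
    have h4 := (t.bs.unique h3 t.dz hx hy tl_0 rfl).1
    rw [h4] at hTx
    have h5 := t.zero k hα (hC hc) hTx
    rw [h5, zero_add] at hcc
    have h6 := hall hg2 hb2 (by rw [hcc]; exact hc')
    exact Or.inl (hz hC (fun X hX => h2 X (h6 (hC hX))) h1)
  · obtain ⟨x, hx, hTx⟩ := h1 c' hc'
    obtain ⟨y, hy, hTy⟩ := h2 c hc
    have h3 := hTy.add hTx
    rw [← hcc, add_zero, zero_add] at h3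
    have h4 := (t.bs.unique h3 t.dz hx hy tl_0 rfl).1
    rw [h4] at hTx
    have h5 := t.zero k hα (hC' hc') hTx
    rw [h5, add_zero] at hcc
    have h6 := hall hg1 hb1 (by rw [hcc]; exact hc)
    exact Or.inr (hz hC' (fun X hX => h2 X (h6 (hC' hX))) h1)
  · exact Or.inr (hz hC' h2 h1)

end comm

end

end Pool.Agent.L5helper19.TT
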