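import Mathlib
import Pool.Agent.L5helper19.TT.Pair

/-!
# Intertwining operators between two factors of type III
-/

set_option linter.unusedSectionVars false

namespace Pool.Agent.L5helper19.TT

open Matrix Module Pool.Agent.W437.HC Pool.Agent.W437.HD Pool.Agent.TH504.CB Pool.Agent.Y90
open Pool.Agent.R915
open Pool.Agent.W548.Odd hiding cv
open Pool.Agent.H204R3.CM (IsHodge)
open Pool.Agent.W437.HP (cK cK_mul cK_one)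

noncomputable section

/-- The data of two factors of type III. -/
structure PD {G : ℕ} (Z : Matrix (Fin G) (Fin G) ℂ) (Z₁ Z₂ : Matrix (Fin 4) (Fin 4) ℂ)
    (E₁ E₂ : Matrix (Fin G ⊕ Fin G) (Fin 4 ⊕ Fin 4) ℚ)
    (F₁ F₂ : Matrix (Fin 4 ⊕ Fin 4) (Fin G ⊕ Fin G) ℚ)
    (I₁ J₁ I₂ J₂ : Matrix (Fin 4 ⊕ Fin 4) (Fin 4 ⊕ Fin 4) ℚ) (a₁ b₁ a₂ b₂ : ℚ) (α₁ α₂ : ℂ) :
    Prop where
  pm : PM Z
  pm1 : PM Z₁
  pm2 : PM Z₂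
  k1 : QM Z₁ I₁ J₁ a₁ b₁
  k2 : QM Z₂ I₂ J₂ a₂ b₂
  al1 : α₁ * α₁ = -(a₁ : ℂ)
  al2 : α₂ * α₂ = -(a₂ : ℂ)
  f1 : Fac Z Z₁ E₁ F₁
  f2 : Fac Z Z₂ E₂ F₂
  star : ∀ X ∈ LZ Z, cK ℂ F₁ * X * cK ℂ E₁ = 0 → cK ℂ F₂ * X * cK ℂ E₂ = 0

variable {G : ℕ} {Z : Matrix (Fin G) (Fin G) ℂ} {Z₁ Z₂ : Matrix (Fin 4) (Fin 4) ℂ}
  {E₁ E₂ : Matrix (Fin G ⊕ Fin G) (Fin 4 ⊕ Fin 4) ℚ}
  {F₁ F₂ : Matrix (Fin 4 ⊕ Fin 4) (Fin G ⊕ Fin G) ℚ}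
  {I₁ J₁ I₂ J₂ : Matrix (Fin 4 ⊕ Fin 4) (Fin 4 ⊕ Fin 4) ℚ} {a₁ b₁ a₂ b₂ : ℚ} {α₁ α₂ : ℂ}
  {bb₁ bb₂ : Fin 2 → Fin 2 → Fin 4 ⊕ Fin 4 → ℂ}

/-- The relation between the operators on the two factors. -/
def Rel (Z : Matrix (Fin G) (Fin G) ℂ)
    (E₁ E₂ : Matrix (Fin G ⊕ Fin G) (Fin 4 ⊕ Fin 4) ℚ)
    (F₁ F₂ : Matrix (Fin 4 ⊕ Fin 4) (Fin G ⊕ Fin G) ℚ)
    (bb₁ bb₂ : Fin 2 → Fin 2 → Fin 4 ⊕ Fin 4 → ℂ) (x y x' y' : Matrix (Fin 2) (Fin 2) ℂ) : Prop :=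
  Tl x ∧ Tl y ∧ Tl x' ∧ Tl y' ∧ ∃ X ∈ LZ Z, Ten bb₁ (cK ℂ F₁ * X * cK ℂ E₁) x y ∧
    Ten bb₂ (cK ℂ F₂ * X * cK ℂ E₂) x' y'

section rel

variable {x y x' y' u v u' v' : Matrix (Fin 2) (Fin 2) ℂ}

theorem brH_E (hx : Tl x) (h : HH * x - x * HH = (2 : ℂ) • x) : x = x 0 1 • EE := by
  have g1 := congrFun (congrFun h 0) 0
  have g2 := congrFun (congrFun h 1) 0
  have g3 := congrFun (congrFun h 1) 1
  simp only [Matrix.sub_apply, Matrix.mul_apply, Fin.sum_univ_two, HH00, HH01, HH10, HH11,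
    Matrix.smul_apply, smul_eq_mul] at g1 g2 g3
  refine ext2 ?_ ?_ ?_ ?_ <;> simp only [Matrix.smul_apply, smul_eq_mul, EE00, EE01, EE10, EE11]
  · linear_combination -(1 / 2 : ℂ) * g1
  · ring
  · linear_combination -(1 / 4 : ℂ) * g2
  · linear_combination -(1 / 2 : ℂ) * g3

theorem brH_F (hx : Tl x) (h : HH * x - x * HH = (-2 : ℂ) • x) : x = x 1 0 • FF := by
  have g1 := congrFun (congrFun h 0) 0
  have g2 := congrFun (congrFun h 0) 1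
  have g3 := congrFun (congrFun h 1) 1
  simp only [Matrix.sub_apply, Matrix.mul_apply, Fin.sum_univ_two, HH00, HH01, HH10, HH11,
    Matrix.smul_apply, smul_eq_mul] at g1 g2 g3
  refine ext2 ?_ ?_ ?_ ?_ <;> simp only [Matrix.smul_apply, smul_eq_mul, FF00, FF01, FF10, FF11]
  · linear_combination (1 / 2 : ℂ) * g1
  · linear_combination (1 / 4 : ℂ) * g2
  · ring
  · linear_combination (1 / 2 : ℂ) * g3

/-- The conjugation by a diagonal matrix. -/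
def cnj2 (γ δ : ℂ) (x : Matrix (Fin 2) (Fin 2) ℂ) : Matrix (Fin 2) (Fin 2) ℂ :=
  x 0 0 • HH + x 0 1 • γ • EE + x 1 0 • δ • FF

theorem cnj2_one (hx : Tl x) : x = x 0 0 • HH + x 0 1 • EE + x 1 0 • FF := by
  unfold Tl at hx
  refine ext2 ?_ ?_ ?_ ?_ <;> simp only [Matrix.add_apply, Matrix.smul_apply, smul_eq_mul, EE00,
    EE01, EE10, EE11, FF00, FF01, FF10, FF11, HH00, HH01, HH10, HH11]
  · ring
  · ring
  · ring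
  · linear_combination hx

theorem Rel.add (h : Rel Z E₁ E₂ F₁ F₂ bb₁ bb₂ x y x' y')
    (h' : Rel Z E₁ E₂ F₁ F₂ bb₁ bb₂ u v u' v') :
    Rel Z E₁ E₂ F₁ F₂ bb₁ bb₂ (x + u) (y + v) (x' + u') (y' + v') := by
  obtain ⟨h1, h2, h3, h4, X, hX, h5, h6⟩ := h
  obtain ⟨g1, g2, g3, g4, Y, hY, g5, g6⟩ := h'
  refine ⟨h1.add g1, h2.add g2, h3.add g3, h4.add g4, X + Y, Submodule.add_mem _ hX hY, ?_, ?_⟩
  · rw [Matrix.mul_add, Matrix.add_mul]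
    exact h5.add g5
  · rw [Matrix.mul_add, Matrix.add_mul]
    exact h6.add g6

theorem Rel.smul (c : ℂ) (h : Rel Z E₁ E₂ F₁ F₂ bb₁ bb₂ x y x' y') :
    Rel Z E₁ E₂ F₁ F₂ bb₁ bb₂ (c • x) (c • y) (c • x') (c • y') := by
  obtain ⟨h1, h2, h3, h4, X, hX, h5, h6⟩ := h
  refine ⟨h1.smul c, h2.smul c, h3.smul c, h4.smul c, c • X, Submodule.smul_mem _ c hX, ?_, ?_⟩
  · rw [Matrix.mul_smul, Matrix.smul_mul]
    exact h5.smul c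
  · rw [Matrix.mul_smul, Matrix.smul_mul]
    exact h6.smul c

theorem Rel.sub (h : Rel Z E₁ E₂ F₁ F₂ bb₁ bb₂ x y x' y')
    (h' : Rel Z E₁ E₂ F₁ F₂ bb₁ bb₂ u v u' v') :
    Rel Z E₁ E₂ F₁ F₂ bb₁ bb₂ (x - u) (y - v) (x' - u') (y' - v') := by
  have h1 := h.add (h'.smul (-1))
  simp only [neg_one_smul, ← sub_eq_add_neg] at h1
  exact h1

theorem Rel.br (f1 : Fac Z Z₁ E₁ F₁) (f2 : Fac Z Z₂ E₂ F₂)
    (h : Rel Z E₁ E₂ F₁ F₂ bb₁ bb₂ x y x' y')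
    (h' : Rel Z E₁ E₂ F₁ F₂ bb₁ bb₂ u v u' v') :
    Rel Z E₁ E₂ F₁ F₂ bb₁ bb₂ (x * u - u * x) (y * v - v * y) (x' * u' - u' * x')
      (y' * v' - v' * y') := by
  obtain ⟨h1, h2, h3, h4, X, hX, h5, h6⟩ := h
  obtain ⟨g1, g2, g3, g4, Y, hY, g5, g6⟩ := h'
  refine ⟨h1.br g1, h2.br g2, h3.br g3, h4.br g4, X * Y - Y * X, LZ_br hX hY, ?_, ?_⟩
  · rw [comp_br f1 hX hY]
    exact h5.br g5
  · rw [comp_br f2 hX hY]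
    exact h6.br g6

variable (pd : PD Z Z₁ Z₂ E₁ E₂ F₁ F₂ I₁ J₁ I₂ J₂ a₁ b₁ a₂ b₂ α₁ α₂)
  (t₁ : T4 Z₁ (EW I₁ α₁) bb₁) (t₂ : T4 Z₂ (EW I₂ α₂) bb₂)
include pd t₁ t₂

theorem Rel.total (hx : Tl x) (hy : Tl y) : ∃ x' y', Rel Z E₁ E₂ F₁ F₂ bb₁ bb₂ x y x' y' := by
  obtain ⟨X1, hX1, hT1⟩ := t₁.fst x hx
  obtain ⟨X2, hX2, hT2⟩ := t₁.snd y hy
  obtain ⟨X, hX, hXX⟩ := pd.f1.lift (Submodule.add_mem _ hX1 hX2)
  obtain ⟨x', y', hx', hy', hT'⟩ := t₂.act _ (pd.f2.comp hX).1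
  refine ⟨x', y', hx, hy, hx', hy', X, hX, ?_, hT'⟩
  rw [hXX]
  have h1 := hT1.add hT2
  rwa [add_zero, zero_add] at h1

theorem Rel.zero (h : Rel Z E₁ E₂ F₁ F₂ bb₁ bb₂ 0 0 x' y') : x' = 0 ∧ y' = 0 := by
  obtain ⟨-, -, h3, h4, X, hX, h5, h6⟩ := h
  have h7 := pd.star X hX (t₁.zero pd.k1 pd.al1 (pd.f1.comp hX).1 h5)
  rw [h7] at h6
  exact t₂.bs.unique h6 Ten.zero h3 h4 tl_0 tl_0

theorem Rel.uniq (h : Rel Z E₁ E₂ F₁ F₂ bb₁ bb₂ x y x' y')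
    (h' : Rel Z E₁ E₂ F₁ F₂ bb₁ bb₂ x y u' v') : x' = u' ∧ y' = v' := by
  have h1 := h.sub h'
  rw [sub_self, sub_self] at h1
  have h2 := Rel.zero pd t₁ t₂ h1
  exact ⟨sub_eq_zero.1 h2.1, sub_eq_zero.1 h2.2⟩

theorem Rel.D : Rel Z E₁ E₂ F₁ F₂ bb₁ bb₂ 0 HH 0 HH := by
  refine ⟨tl_0, tl_H, tl_0, tl_H, DZ Z, DZ_mem, ?_, ?_⟩
  · rw [pd.f1.fd, Matrix.mul_assoc, pd.f1.fe', Matrix.mul_one]
    exact t₁.dz
  · rw [pd.f2.fd, Matrix.mul_assoc, pd.f2.fe', Matrix.mul_one]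
    exact t₂.dz

theorem Rel.S {σ : ℂ ≃+* ℂ} (hx : Tl x) (hy : Tl y) (h1 : Ten bb₁ (DS Z₁ σ) x y) :
    ∃ x' y', Ten bb₂ (DS Z₂ σ) x' y' ∧ Rel Z E₁ E₂ F₁ F₂ bb₁ bb₂ x y x' y' := by
  obtain ⟨x', y', hx', hy', hT⟩ := t₂.act _ (DS_mem σ)
  refine ⟨x', y', hT, hx, hy, hx', hy', DS Z σ, DS_mem σ, ?_, ?_⟩
  · rw [pd.f1.fds, Matrix.mul_assoc, pd.f1.fe', Matrix.mul_one]
    exact h1
  · rw [pd.f2.fds, Matrix.mul_assoc, pd.f2.fe', Matrix.mul_one]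
    exact hT

/-- The second factor. -/
theorem Rel.snd : ∃ γ δ : ℂ, γ * δ = 1 ∧ Rel Z E₁ E₂ F₁ F₂ bb₁ bb₂ 0 EE 0 (γ • EE) ∧
    Rel Z E₁ E₂ F₁ F₂ bb₁ bb₂ 0 FF 0 (δ • FF) := by
  have hD := Rel.D pd t₁ t₂
  obtain ⟨u, v, hE⟩ := Rel.total pd t₁ t₂ tl_0 tl_E
  obtain ⟨u', v', hF⟩ := Rel.total pd t₁ t₂ tl_0 tl_F
  have e1 := hD.br pd.f1 pd.f2 hE
  rw [brHE, mul_zero, sub_self, zero_mul, mul_zero, sub_self] at e1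
  have e2 := hE.smul 2
  rw [smul_zero] at e2
  obtain ⟨e3, e4⟩ := Rel.uniq pd t₁ t₂ e1 e2
  have hu : u = 0 := (smul_eq_zero.1 e3.symm).resolve_left two_ne_zero
  have f1 := hD.br pd.f1 pd.f2 hF
  rw [brHF, mul_zero, sub_self, zero_mul, mul_zero, sub_self] at f1
  have f2 := hF.smul (-2)
  rw [smul_zero] at f2
  obtain ⟨f3, f4⟩ := Rel.uniq pd t₁ t₂ f1 f2
  have hu' : u' = 0 := (smul_eq_zero.1 f3.symm).resolve_left (neg_ne_zero.2 two_ne_zero)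
  have hv : v = v 0 1 • EE := by
    have g1 := congrFun (congrFun e4 0) 0
    have g2 := congrFun (congrFun e4 1) 0
    have g3 := congrFun (congrFun e4 1) 1
    simp only [Matrix.sub_apply, Matrix.mul_apply, Fin.sum_univ_two, HH00, HH01, HH10, HH11,
      Matrix.smul_apply, smul_eq_mul] at g1 g2 g3
    refine ext2 ?_ ?_ ?_ ?_ <;> simp only [Matrix.smul_apply, smul_eq_mul, EE00, EE01, EE10, EE11]
    · linear_combination -(1 / 2 : ℂ) * g1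
    · ring
    · linear_combination -(1 / 4 : ℂ) * g2
    · linear_combination -(1 / 2 : ℂ) * g3
  have hv' : v' = v' 1 0 • FF := by
    have g1 := congrFun (congrFun f4 0) 0
    have g2 := congrFun (congrFun f4 0) 1
    have g3 := congrFun (congrFun f4 1) 1
    simp only [Matrix.sub_apply, Matrix.mul_apply, Fin.sum_univ_two, HH00, HH01, HH10, HH11,
      Matrix.smul_apply, smul_eq_mul] at g1 g2 g3
    refine ext2 ?_ ?_ ?_ ?_ <;> simp only [Matrix.smul_apply, smul_eq_mul, FF00, FF01, FF10, FF11]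
    · linear_combination (1 / 2 : ℂ) * g1
    · linear_combination (1 / 4 : ℂ) * g2
    · ring
    · linear_combination (1 / 2 : ℂ) * g3
  rw [hu, hv] at hE
  rw [hu', hv'] at hF
  refine ⟨v 0 1, v' 1 0, ?_, hE, hF⟩
  have h1 := hE.br pd.f1 pd.f2 hF
  rw [brEF, mul_zero, sub_self] at h1
  have h2 := (Rel.uniq pd t₁ t₂ h1 hD).2
  have h3 := congrFun (congrFun h2 0) 0
  simp only [Matrix.sub_apply, Matrix.mul_apply, Fin.sum_univ_two, HH00, Matrix.smul_apply,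
    smul_eq_mul, EE00, EE01, EE10, EE11, FF00, FF01, FF10, FF11] at h3
  linear_combination h3

/-- Elements of the first factor. -/
theorem Rel.fst (h : Rel Z E₁ E₂ F₁ F₂ bb₁ bb₂ x 0 x' y') : y' = 0 := by
  obtain ⟨γ, δ, hγδ, hE, hF⟩ := Rel.snd pd t₁ t₂
  have hγ : γ ≠ 0 := fun h0 => by
    rw [h0, zero_mul] at hγδ
    exact zero_ne_one hγδ
  have hδ : δ ≠ 0 := fun h0 => by
    rw [h0, mul_zero] at hγδ
    exact zero_ne_one hγδ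
  have h1 := h.br pd.f1 pd.f2 hE
  have h2 := h.br pd.f1 pd.f2 hF
  simp only [mul_zero, zero_mul, sub_self] at h1 h2
  have h3 := (Rel.zero pd t₁ t₂ h1).2
  have h4 := (Rel.zero pd t₁ t₂ h2).2
  have ht : Tl y' := h.2.2.2.1
  unfold Tl at ht
  have e1 := congrFun (congrFun h3 0) 0
  have e2 := congrFun (congrFun h3 0) 1
  have e3 := congrFun (congrFun h4 0) 0
  simp only [Matrix.sub_apply, Matrix.mul_apply, Fin.sum_univ_two, Matrix.smul_apply,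
    smul_eq_mul, EE00, EE01, EE10, EE11, FF00, FF01, FF10, FF11, Matrix.zero_apply, ht,
    mul_zero, zero_mul, mul_one, one_mul, add_zero, zero_add, sub_zero, zero_sub] at e1 e2 e3
  have e4 : γ * y' 1 0 = 0 := by linear_combination -e1
  have e5 : γ * y' 0 0 = 0 := by linear_combination (1 / 2 : ℂ) * e2
  have e6 : δ * y' 0 1 = 0 := by linear_combination e3
  have e7 : y' 0 0 = 0 := (mul_eq_zero.1 e5).resolve_left hγ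
  refine ext2 e7 ((mul_eq_zero.1 e6).resolve_left hδ) ((mul_eq_zero.1 e4).resolve_left hγ) ?_
  rw [ht, e7]
  simp

/-- The isomorphism of the Lie algebras. -/
theorem Rel.main {σ : ℂ ≃+* ℂ} (hσ₁ : Ten bb₁ (DS Z₁ σ) HH 0) (hσ₂ : Ten bb₂ (DS Z₂ σ) HH 0) :
    ∃ γ₁ δ₁ γ₂ δ₂ : ℂ, γ₁ * δ₁ = 1 ∧ γ₂ * δ₂ = 1 ∧ ∀ x y x' y',
      Rel Z E₁ E₂ F₁ F₂ bb₁ bb₂ x y x' y' → x' = cnj2 γ₁ δ₁ x ∧ y' = cnj2 γ₂ δ₂ y := by
  have hD := Rel.D pd t₁ t₂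
  obtain ⟨γ₂, δ₂, hγ₂, hE2, hF2⟩ := Rel.snd pd t₁ t₂
  have hH : Rel Z E₁ E₂ F₁ F₂ bb₁ bb₂ HH 0 HH 0 := by
    obtain ⟨x', y', hT, hR⟩ := Rel.S pd t₁ t₂ tl_H tl_0 hσ₁
    obtain ⟨h1, h2⟩ := t₂.bs.unique hT hσ₂ hR.2.2.1 hR.2.2.2.1 tl_H tl_0
    rwa [h1, h2] at hR
  obtain ⟨u, v, hE⟩ := Rel.total pd t₁ t₂ tl_E tl_0
  obtain ⟨u', v', hF⟩ := Rel.total pd t₁ t₂ tl_F tl_0
  have hv := Rel.fst pd t₁ t₂ hE
  have hv' := Rel.fst pd t₁ t₂ hF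
  subst hv hv'
  have e1 := hH.br pd.f1 pd.f2 hE
  rw [brHE, mul_zero, sub_self] at e1
  have e2 := hE.smul 2
  rw [smul_zero] at e2
  have e3 := (Rel.uniq pd t₁ t₂ e1 e2).1
  have f1 := hH.br pd.f1 pd.f2 hF
  rw [brHF, mul_zero, sub_self] at f1
  have f2 := hF.smul (-2)
  rw [smul_zero] at f2
  have f3 := (Rel.uniq pd t₁ t₂ f1 f2).1
  have hu := brH_E hE.2.2.1 e3
  have hu' := brH_F hF.2.2.1 f3
  rw [hu] at hE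
  rw [hu'] at hF
  have h1 := hE.br pd.f1 pd.f2 hF
  rw [brEF, mul_zero, sub_self] at h1
  have h2 := (Rel.uniq pd t₁ t₂ h1 hH).1
  have h3 := congrFun (congrFun h2 0) 0
  simp only [Matrix.sub_apply, Matrix.mul_apply, Fin.sum_univ_two, HH00, Matrix.smul_apply,
    smul_eq_mul, EE00, EE01, EE10, EE11, FF00, FF01, FF10, FF11] at h3
  refine ⟨u 0 1, u' 1 0, γ₂, δ₂, by linear_combination h3, hγ₂, fun x y x' y' hR => ?_⟩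
  have h4 := (((hH.smul (x 0 0)).add (hE.smul (x 0 1))).add (hF.smul (x 1 0))).add
    (((hD.smul (y 0 0)).add (hE2.smul (y 0 1))).add (hF2.smul (y 1 0)))
  simp only [smul_zero, add_zero, zero_add] at h4
  rw [← cnj2_one hR.1, ← cnj2_one hR.2.1] at h4
  exact Rel.uniq pd t₁ t₂ hR h4

end rel

section inter

variable {bb₁ bb₂ : Fin 2 → Fin 2 → Fin 4 ⊕ Fin 4 → ℂ}

/-- The scaling factors. -/
def scl (γ₁ γ₂ : ℂ) (r : R4) : ℂ := (if r.1 = 0 then γ₁ else 1) * (if r.2 = 0 then γ₂ else 1)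

theorem scl_mm {γ₁ δ₁ γ₂ δ₂ : ℂ} (h1 : γ₁ * δ₁ = 1) (h2 : γ₂ * δ₂ = 1)
    {x y : Matrix (Fin 2) (Fin 2) ℂ} (hx : Tl x) (hy : Tl y) (r q : R4) :
    scl γ₁ γ₂ q * mm (cnj2 γ₁ δ₁ x) (cnj2 γ₂ δ₂ y) r q = mm x y r q * scl γ₁ γ₂ r := by
  have key : ∀ {γ δ : ℂ} {x : Matrix (Fin 2) (Fin 2) ℂ}, γ * δ = 1 → Tl x → ∀ i j : Fin 2,
      (if j = 0 then γ else 1) * cnj2 γ δ x i j = x i j * (if i = 0 then γ else 1) := by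
    intro γ δ x h1 hx i j
    unfold Tl at hx
    unfold cnj2
    simp only [Matrix.add_apply, Matrix.smul_apply, smul_eq_mul]
    fin_cases i <;> fin_cases j <;>
      simp only [Fin.zero_eta, Fin.mk_one, Fin.isValue, if_true, one_ne_zero, if_false, EE00,
        EE01, EE10, EE11, FF00, FF01, FF10, FF11, HH00, HH01, HH10, HH11]
    · ring
    · ring
    · linear_combination (x 1 0) * h1
    · linear_combination -hx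
  obtain ⟨r1, r2⟩ := r
  obtain ⟨q1, q2⟩ := q
  have k1 := key h1 hx r1 q1
  have k2 := key h2 hy r2 q2
  unfold scl mm
  simp only
  by_cases hr2 : r2 = q2
  · by_cases hr1 : r1 = q1
    · subst hr1 hr2
      simp only [if_true]
      linear_combination (if r2 = 0 then γ₂ else 1) * k1 + (if r1 = 0 then γ₁ else 1) * k2
    · subst hr2
      simp only [if_true, if_neg hr1, add_zero]
      linear_combination (if r2 = 0 then γ₂ else 1) * k1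
  · by_cases hr1 : r1 = q1
    · subst hr1
      simp only [if_true, if_neg hr2, zero_add]
      linear_combination (if r1 = 0 then γ₁ else 1) * k2
    · simp only [if_neg hr1, if_neg hr2, add_zero, mul_zero, zero_mul]

variable (pd : PD Z Z₁ Z₂ E₁ E₂ F₁ F₂ I₁ J₁ I₂ J₂ a₁ b₁ a₂ b₂ α₁ α₂)
include pd

/-- There is a nonzero homomorphism between the two factors. -/
theorem PD.exists_hom : ∃ R : Matrix (Fin 4 ⊕ Fin 4) (Fin 4 ⊕ Fin 4) ℚ, R ≠ 0 ∧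
    cK ℂ R * DZ Z₁ = DZ Z₂ * cK ℂ R := by
  have h4 : 0 < 4 := by norm_num
  obtain ⟨c₁, s₁⟩ := pd.k1.exists_T4 pd.pm1 h4 pd.al1 rfl
  obtain ⟨c₂, s₂⟩ := pd.k2.exists_T4 pd.pm2 h4 pd.al2 rfl
  obtain ⟨σ, x, hx, -, hσ⟩ := pd.k1.exists_sigma pd.pm1 h4 pd.al1 rfl s₁.bs s₁.act
  obtain ⟨bb₁, t₁, hσ₁⟩ := s₁.adapt pd.pm1 h4 pd.k1 pd.al1 rfl hx hσ
  obtain ⟨x', y', hT', hR'⟩ := Rel.S pd t₁ s₂ tl_H tl_0 hσ₁
  have hy' := Rel.fst pd t₁ s₂ hR'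
  subst hy'
  obtain ⟨bb₂, t₂, hσ₂⟩ := s₂.adapt pd.pm2 h4 pd.k2 pd.al2 rfl hR'.2.2.1 hT'
  obtain ⟨γ₁, δ₁, γ₂, δ₂, h1, h2, hmain⟩ := Rel.main pd t₁ t₂ hσ₁ hσ₂
  let β := pd.k1.bet pd.al1 t₁.bs
  let T : (Fin 4 ⊕ Fin 4 → ℂ) →ₗ[ℂ] (Fin 4 ⊕ Fin 4 → ℂ) :=
    ∑ r : R4, (β r).smulRight (scl γ₁ γ₂ r • bb₂ r.1 r.2)
  have hT : ∀ v, T v = ∑ r : R4, (β r v * scl γ₁ γ₂ r) • bb₂ r.1 r.2 := by
    intro v
    change (∑ r : R4, (β r).smulRight (scl γ₁ γ₂ r • bb₂ r.1 r.2)) v = _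
    rw [LinearMap.sum_apply]
    refine Finset.sum_congr rfl fun r _ => ?_
    rw [LinearMap.smulRight_apply, smul_smul]
  have hcomm : ∀ X ∈ LZ Z, ∀ v, T ((cK ℂ F₁ * X * cK ℂ E₁) *ᵥ v) =
      (cK ℂ F₂ * X * cK ℂ E₂) *ᵥ T v := by
    intro X hX v
    obtain ⟨x, y, hx, hy, hT1⟩ := t₁.act _ (pd.f1.comp hX).1
    obtain ⟨x', y', hx', hy', hT2⟩ := t₂.act _ (pd.f2.comp hX).1
    obtain ⟨e1, e2⟩ := hmain x y x' y' ⟨hx, hy, hx', hy', X, hX, hT1, hT2⟩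
    rw [hT, hT, mulVec_sum]
    have e3 : ∀ r : R4, β r ((cK ℂ F₁ * X * cK ℂ E₁) *ᵥ v) = ∑ q, mm x y r q * β q v := fun r =>
      pd.k1.bet_eqv pd.al1 t₁.bs (pd.f1.comp hX).1 hT1 v r
    have e4 : ∀ q : R4, (cK ℂ F₂ * X * cK ℂ E₂) *ᵥ ((β q v * scl γ₁ γ₂ q) • bb₂ q.1 q.2) =
        ∑ r : R4, (mm x y r q * β q v * scl γ₁ γ₂ r) • bb₂ r.1 r.2 := by
      intro q
      rw [mulVec_smul, hT2.sum, Finset.smul_sum]
      refine Finset.sum_congr rfl fun r _ => ?_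
      rw [smul_smul, e1, e2]
      congr 1
      linear_combination (β q v) * scl_mm h1 h2 hx hy r q
    rw [Finset.sum_congr rfl fun q _ => e4 q, Finset.sum_comm]
    refine Finset.sum_congr rfl fun r _ => ?_
    rw [e3, Finset.sum_mul, Finset.sum_smul]
  let Q : Matrix (Fin 4 ⊕ Fin 4) (Fin 4 ⊕ Fin 4) ℂ := LinearMap.toMatrix' T
  have hQ : ∀ v, Q *ᵥ v = T v := fun v => LinearMap.toMatrix'_mulVec _ _
  have hQ2 : Q ∈ Submodule.span ℂ (TT Z₁ Z₂ : Set (Matrix (Fin 4 ⊕ Fin 4) (Fin 4 ⊕ Fin 4) ℂ)) := by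
    refine exp_mem fun σ => eq_of_mulVec fun v => ?_
    have h3 := hcomm _ (DS_mem σ) v
    rw [pd.f1.fds, Matrix.mul_assoc, pd.f1.fe', Matrix.mul_one, pd.f2.fds, Matrix.mul_assoc,
      pd.f2.fe', Matrix.mul_one] at h3
    rw [← mulVec_mulVec, ← mulVec_mulVec, hQ, hQ, h3]
  by_contra hcon
  push Not at hcon
  have hz : Submodule.span ℂ (TT Z₁ Z₂ : Set (Matrix (Fin 4 ⊕ Fin 4) (Fin 4 ⊕ Fin 4) ℂ)) ≤ ⊥ := by
    rw [Submodule.span_le]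
    rintro _ ⟨R, rfl, hR⟩
    by_cases h0 : R = 0
    · rw [h0]
      change cK ℂ (0 : Matrix (Fin 4 ⊕ Fin 4) (Fin 4 ⊕ Fin 4) ℚ) = 0
      ext i j
      simp [cK]
    · exact absurd hR (hcon R h0)
  have hQ0 : Q = 0 := hz hQ2
  have h5 : T (bb₁ 0 0) = 0 := by rw [← hQ, hQ0, zero_mulVec]
  have hβ : ∀ r : R4, β r (bb₁ 0 0) = if r = (0, 0) then 1 else 0 := by
    intro r
    refine t₁.bs.coord_eq (x := fun r => if r = (0, 0) then 1 else 0) ?_ r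
    rw [pd.k1.pr_coe pd.al1, pd.k1.pj_self pd.al1 (t₁.bs.mem 0 0)]
    simp
  rw [hT] at h5
  simp only [hβ, ite_mul, one_mul, zero_mul, ite_smul, zero_smul] at h5
  rw [Finset.sum_ite_eq' Finset.univ ((0, 0) : R4), if_pos (Finset.mem_univ _)] at h5
  have hγ₁ : γ₁ ≠ 0 := fun h0 => by
    rw [h0, zero_mul] at h1
    exact zero_ne_one h1
  have hγ₂ : γ₂ ≠ 0 := fun h0 => by
    rw [h0, zero_mul] at h2
    exact zero_ne_one h2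
  have h6 : scl γ₁ γ₂ (0, 0) ≠ 0 := by
    unfold scl
    simp [hγ₁, hγ₂]
  have h7 : bb₂ 0 0 = 0 := (smul_eq_zero.1 h5).resolve_left h6
  have h8 := t₂.bs.ind (fun i j => if i = 0 ∧ j = 0 then 1 else 0) (by
    simp [Fin.sum_univ_two, h7]) 0 0
  simp at h8

end inter

section pair

variable {I J : Matrix (Fin 4 ⊕ Fin 4) (Fin 4 ⊕ Fin 4) ℚ} {a b : ℚ} {α : ℂ}

/-- Two factors of type III without homomorphisms between them are independent. -/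
theorem pair_zero (h : PM Z) (pm1 : PM Z₁) (pm2 : PM Z₂) (k1 : QM Z₁ I₁ J₁ a₁ b₁)
    (k2 : QM Z₂ I₂ J₂ a₂ b₂) (f1 : Fac Z Z₁ E₁ F₁) (f2 : Fac Z Z₂ E₂ F₂)
    (hno : ∀ R : Matrix (Fin 4 ⊕ Fin 4) (Fin 4 ⊕ Fin 4) ℚ,
      cK ℂ R * DZ Z₁ = DZ Z₂ * cK ℂ R → R = 0) :
    ∀ X ∈ cm Z (KF Z E₁ F₁), cK ℂ F₂ * X * cK ℂ E₂ = 0 := by
  obtain ⟨α₁, al1⟩ : ∃ α : ℂ, α * α = -(a₁ : ℂ) := by
    obtain ⟨α, hα⟩ := IsAlgClosed.exists_pow_nat_eq (-(a₁ : ℂ)) (n := 2) (by norm_num)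
    exact ⟨α, by rw [← hα, sq]⟩
  obtain ⟨α₂, al2⟩ : ∃ α : ℂ, α * α = -(a₂ : ℂ) := by
    obtain ⟨α, hα⟩ := IsAlgClosed.exists_pow_nat_eq (-(a₂ : ℂ)) (n := 2) (by norm_num)
    exact ⟨α, by rw [← hα, sq]⟩
  obtain ⟨bb₂, t₂⟩ := k2.exists_T4 pm2 (by norm_num) al2 rfl
  have hidl := idl_KF f1
  let M : Matrix (Fin G ⊕ Fin G) (Fin G ⊕ Fin G) ℂ →ₗ[ℂ]
      Matrix (Fin 4 ⊕ Fin 4) (Fin 4 ⊕ Fin 4) ℂ :=
    { toFun := fun X => cK ℂ F₂ * X * cK ℂ E₂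
      map_add' := fun X Y => by rw [Matrix.mul_add, Matrix.add_mul]
      map_smul' := fun c X => by rw [Matrix.mul_smul, Matrix.smul_mul, RingHom.id_apply] }
  have hM : ∀ X, M X = cK ℂ F₂ * X * cK ℂ E₂ := fun X => rfl
  have hMσ : ∀ (σ : ℂ ≃+* ℂ) X, (M X).map σ = M (X.map σ) := by
    intro σ X
    rw [hM, hM, Matrix.map_mul, Matrix.map_mul, cK_aut, cK_aut]
  have hMb : ∀ X ∈ LZ Z, ∀ Y ∈ LZ Z, M (X * Y - Y * X) = M X * M Y - M Y * M X := by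
    intro X hX Y hY
    exact comp_br f2 hX hY
  have hcmσ : ∀ (σ : ℂ ≃+* ℂ), ∀ X ∈ cm Z (KF Z E₁ F₁), X.map σ ∈ cm Z (KF Z E₁ F₁) := by
    intro σ X hX
    exact ⟨((PM.polH h).cmpl_galD hidl.galD).gal σ X hX.1, gal_LZ σ X hX.2⟩
  have hKb : ∀ X ∈ KF Z E₁ F₁, ∀ Y ∈ KF Z E₁ F₁, X * Y - Y * X ∈ KF Z E₁ F₁ := by
    intro X hX Y hY
    refine ⟨LZ_br hX.1 hY.1, ?_⟩
    rw [comp_br f1 hX.1 hY.1, hX.2, hY.2, Matrix.mul_zero, sub_zero]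
  rcases t₂.dich (k := k2) (hα := al2) (C := (cm Z (KF Z E₁ F₁)).map M)
    (C' := (KF Z E₁ F₁).map M)
    (by
      rintro _ ⟨X, hX, rfl⟩
      exact (f2.comp hX.2).1)
    (by
      rintro _ ⟨X, hX, rfl⟩
      exact (f2.comp hX.1).1)
    (by
      rintro _ ⟨X, hX, rfl⟩ _ ⟨Y, hY, rfl⟩
      rw [← sub_eq_zero, ← hMb X hX.2 Y hY.1, ← hidl.comm h hY hX, sub_self, map_zero])
    (by
      intro X' hX'
      obtain ⟨X, hX, rfl⟩ := f2.lift hX'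
      obtain ⟨X1, hX1, X2, hX2, rfl⟩ := hidl.sum h hX
      exact ⟨M X2, ⟨X2, hX2, rfl⟩, M X1, ⟨X1, hX1, rfl⟩, by
        rw [hM, hM, Matrix.mul_add, Matrix.add_mul, add_comm]⟩)
    (by
      rintro σ _ ⟨X, hX, rfl⟩
      exact ⟨_, hcmσ σ X hX, (hMσ σ X).symm⟩)
    (by
      rintro σ _ ⟨X, hX, rfl⟩
      exact ⟨_, hidl.gal σ X hX, (hMσ σ X).symm⟩)
    (by
      rintro _ ⟨X, hX, rfl⟩ _ ⟨Y, hY, rfl⟩
      exact ⟨_, hidl.br h hX hY, hMb X hX.2 Y hY.2⟩)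
    (by
      rintro _ ⟨X, hX, rfl⟩ _ ⟨Y, hY, rfl⟩
      exact ⟨_, hKb X hX Y hY, hMb X hX.1 Y hY.1⟩) with h1 | h1
  · intro X hX
    exact h1 _ ⟨X, hX, rfl⟩
  · exfalso
    have hpd : PD Z Z₁ Z₂ E₁ E₂ F₁ F₂ I₁ J₁ I₂ J₂ a₁ b₁ a₂ b₂ α₁ α₂ :=
      ⟨h, pm1, pm2, k1, k2, al1, al2, f1, f2, fun X hX hX0 => h1 _ ⟨X, ⟨hX, hX0⟩, rfl⟩⟩
    obtain ⟨R, hR0, hR⟩ := hpd.exists_hom
    exact hR0 (hno R hR)

end pair

end

end Pool.Agent.L5helper19.TT
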