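import Mathlib
import Pool.Agent.R915.Stm2

/-!
# Abelian fourfolds with a definite quaternion algebra of endomorphisms: definition
-/

namespace Pool.Agent.L5helper19.TT

open Module Pool.Agent.Y90

/-- The abelian variety `Y` has dimension four, and its endomorphism algebra (tensored with `ℚ`) is
the definite quaternion algebra over `ℚ` with generators `i`, `j` and the relations `i² = -a`,
`j² = -b`, `ij = -ji`, where `a` and `b` are positive. -/
def QuatEnd (Y : AV) : Prop :=
  finrank ℚ Y.H = 8 ∧ ∃ (i j : Y.H →ₗ[ℚ] Y.H) (a b : ℚ), 0 < a ∧ 0 < b ∧ IsHom Y Y i ∧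
    IsHom Y Y j ∧ (∀ w, i (i w) = -(a • w)) ∧ (∀ w, j (j w) = -(b • w)) ∧
    (∀ w, i (j w) = -(j (i w))) ∧
    ∀ f : Y.H →ₗ[ℚ] Y.H, IsHom Y Y f →
      ∃ x y z w : ℚ, f = x • LinearMap.id + y • i + z • j + w • i.comp j

end Pool.Agent.L5helper19.TT
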