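import Mathlib
import Pool.Agent.L5helper19.TT.Stm
import Pool.Agent.L5helper19.TT.Pair2
import Pool.Agent.L5helper19.TT.Kun
import Pool.Agent.R915.G6

/-!
# Simple factors of type III
-/

set_option linter.unusedSectionVars false

namespace Pool.Agent.L5helper19.TT

open Matrix Module Pool.Agent.W437.HC Pool.Agent.W437.HD Pool.Agent.TH504.CB Pool.Agent.Y90
open Pool.Agent.R915
open Pool.Agent.W548.Odd hiding cv
open Pool.Agent.H204R3.CM (IsHodge)
open Pool.Agent.H204R3.SP (Kills)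
open Pool.Agent.W437.HP (cK cK_mul cK_one)

noncomputable section

section quat

/-- Isogenies preserve the condition. -/
theorem QuatEnd.iso {X Y : AV} (e : X.H ≃ₗ[ℚ] Y.H) (he : IsHom X Y e.toLinearMap)
    (hes : IsHom Y X e.symm.toLinearMap) (h : QuatEnd Y) : QuatEnd X := by
  obtain ⟨h0, i, j, a, b, ha, hb, hi, hj, hii, hjj, hij, hgen⟩ := h
  refine ⟨by rw [e.finrank_eq, h0], e.symm.toLinearMap.comp (i.comp e.toLinearMap),
    e.symm.toLinearMap.comp (j.comp e.toLinearMap), a, b, ha, hb,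
    IsHom.comp' hes (IsHom.comp' hi he), IsHom.comp' hes (IsHom.comp' hj he), fun w => ?_,
    fun w => ?_, fun w => ?_, fun f hf => ?_⟩
  · change e.symm (i (e (e.symm (i (e w))))) = -(a • w)
    rw [e.apply_symm_apply, hii, map_neg, map_smul, e.symm_apply_apply]
  · change e.symm (j (e (e.symm (j (e w))))) = -(b • w)
    rw [e.apply_symm_apply, hjj, map_neg, map_smul, e.symm_apply_apply]
  · change e.symm (i (e (e.symm (j (e w))))) = -(e.symm (j (e (e.symm (i (e w))))))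
    rw [e.apply_symm_apply, e.apply_symm_apply, hij, map_neg]
  · obtain ⟨x, y, z, w, hf'⟩ := hgen (e.toLinearMap.comp (f.comp e.symm.toLinearMap))
      (IsHom.comp' he (IsHom.comp' hf hes))
    refine ⟨x, y, z, w, LinearMap.ext fun v => ?_⟩
    have h1 := congrArg (fun φ => e.symm (φ (e v))) hf'
    simp only [LinearMap.add_apply, LinearMap.smul_apply, LinearMap.comp_apply,
      LinearMap.id_apply, LinearEquiv.coe_coe, e.symm_apply_apply, map_add, map_smul] at h1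
    rw [h1]
    simp only [LinearMap.add_apply, LinearMap.smul_apply, LinearMap.comp_apply,
      LinearMap.id_apply, LinearEquiv.coe_coe, e.apply_symm_apply]

/-- The condition for period matrices. -/
theorem QuatEnd.qm {g : ℕ} {Z : Matrix (Fin g) (Fin g) ℂ} {h : PM Z} (k : QuatEnd (AVZ h)) :
    g = 4 ∧ ∃ (I J : Matrix (Fin g ⊕ Fin g) (Fin g ⊕ Fin g) ℚ) (a b : ℚ), QM Z I J a b := by
  obtain ⟨h0, i, j, a, b, ha, hb, hi, hj, hii, hjj, hij, hgen⟩ := k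
  rw [finrank_AVZ] at h0
  refine ⟨by omega, LinearMap.toMatrix' i, LinearMap.toMatrix' j, a, b, ha, hb, ?_, ?_, ?_,
    (hom_iff' h i).1 hi, (hom_iff' h j).1 hj, fun R hR => ?_⟩
  · have h1 : (i : Module.End ℚ (Fin g ⊕ Fin g → ℚ)) * i =
        -(a • (1 : Module.End ℚ (Fin g ⊕ Fin g → ℚ))) := LinearMap.ext fun w => hii w
    have h2 := congrArg LinearMap.toMatrix' h1
    rw [LinearMap.toMatrix'_mul] at h2
    rw [h2, map_neg, map_smul, LinearMap.toMatrix'_one]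
  · have h1 : (j : Module.End ℚ (Fin g ⊕ Fin g → ℚ)) * j =
        -(b • (1 : Module.End ℚ (Fin g ⊕ Fin g → ℚ))) := LinearMap.ext fun w => hjj w
    have h2 := congrArg LinearMap.toMatrix' h1
    rw [LinearMap.toMatrix'_mul] at h2
    rw [h2, map_neg, map_smul, LinearMap.toMatrix'_one]
  · have h1 : (i : Module.End ℚ (Fin g ⊕ Fin g → ℚ)) * j = -(j * i) :=
      LinearMap.ext fun w => hij w
    have h2 := congrArg LinearMap.toMatrix' h1
    rw [LinearMap.toMatrix'_mul, map_neg, LinearMap.toMatrix'_mul] at h2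
    exact h2
  · obtain ⟨x, y, z, w, h1⟩ := hgen (Matrix.toLin' R) ((hom_iff h R).2 hR)
    refine ⟨x, y, z, w, ?_⟩
    have h2 := congrArg LinearMap.toMatrix' h1
    rw [LinearMap.toMatrix'_toLin', map_add, map_add, map_add, map_smul, map_smul, map_smul,
      map_smul] at h2
    rw [h2]
    congr 2
    · congr 2
      exact LinearMap.toMatrix'_id
    · exact LinearMap.toMatrix'_comp i j

end quat

section homs

variable {g g' : ℕ} {Z : Matrix (Fin g) (Fin g) ℂ} {Z' : Matrix (Fin g') (Fin g') ℂ} (h : PM Z)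
  (h' : PM Z')

theorem hom_iff2 (R : Matrix (Fin g' ⊕ Fin g') (Fin g ⊕ Fin g) ℚ) :
    IsHom (AVZ h) (AVZ h') (Matrix.toLin' R) ↔ cK ℂ R * DZ Z = DZ Z' * cK ℂ R := by
  constructor
  · rintro ⟨Ψ, hΨ⟩
    exact Cht_conv h.cht h'.cht (R := R) Ψ fun v => by
      rw [hΨ]
      rfl
  · intro h1
    obtain ⟨Ψ, hΨ⟩ := h.cht.hom h'.cht (R := R) (by rw [DJ_JR, DJ_JR]; exact h1)
    exact ⟨Ψ, fun v => hΨ v⟩

/-- Two period matrices are isogenous. -/
def Isog : Prop := ∃ e : (AVZ h).H ≃ₗ[ℚ] (AVZ h').H, IsHom (AVZ h) (AVZ h') e.toLinearMap ∧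
  IsHom (AVZ h') (AVZ h) e.symm.toLinearMap

variable {h h'}

theorem Isog.symm (k : Isog h h') : Isog h' h := by
  obtain ⟨e, h1, h2⟩ := k
  exact ⟨e.symm, h2, h1⟩

theorem Isog.trans {g'' : ℕ} {Z'' : Matrix (Fin g'') (Fin g'') ℂ} {h'' : PM Z''} (k : Isog h h')
    (k' : Isog h' h'') : Isog h h'' := by
  obtain ⟨e, h1, h2⟩ := k
  obtain ⟨e', h3, h4⟩ := k'
  exact ⟨e.trans e', IsHom.comp' h3 h1, IsHom.comp' h2 h4⟩

/-- The matrices of an isogeny. -/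
theorem Isog.mat (k : Isog h h') :
    ∃ (A : Matrix (Fin g' ⊕ Fin g') (Fin g ⊕ Fin g) ℚ)
      (B : Matrix (Fin g ⊕ Fin g) (Fin g' ⊕ Fin g') ℚ), cK ℂ A * DZ Z = DZ Z' * cK ℂ A ∧
      cK ℂ B * DZ Z' = DZ Z * cK ℂ B ∧ A * B = 1 ∧ B * A = 1 := by
  obtain ⟨e, h1, h2⟩ := k
  let e₁ : (Fin g ⊕ Fin g → ℚ) →ₗ[ℚ] (Fin g' ⊕ Fin g' → ℚ) := e.toLinearMap
  let e₂ : (Fin g' ⊕ Fin g' → ℚ) →ₗ[ℚ] (Fin g ⊕ Fin g → ℚ) := e.symm.toLinearMap
  have h3 : e₁.comp e₂ = LinearMap.id := LinearMap.ext fun v => e.apply_symm_apply v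
  have h4 : e₂.comp e₁ = LinearMap.id := LinearMap.ext fun v => e.symm_apply_apply v
  refine ⟨LinearMap.toMatrix' e₁, LinearMap.toMatrix' e₂, ?_, ?_, ?_, ?_⟩
  · rw [← hom_iff2 h h', Matrix.toLin'_toMatrix']
    exact h1
  · rw [← hom_iff2 h' h, Matrix.toLin'_toMatrix']
    exact h2
  · rw [← LinearMap.toMatrix'_comp, h3, LinearMap.toMatrix'_id]
  · rw [← LinearMap.toMatrix'_comp, h4, LinearMap.toMatrix'_id]

/-- Homomorphisms of simple abelian varieties which are not isogenous vanish. -/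
theorem hom_zero (hs : IsSimple (AVZ h)) (hs' : IsSimple (AVZ h')) (hn : ¬ Isog h h')
    {R : Matrix (Fin g' ⊕ Fin g') (Fin g ⊕ Fin g) ℚ} (hR : cK ℂ R * DZ Z = DZ Z' * cK ℂ R) :
    R = 0 := by
  by_contra h0
  apply hn
  obtain ⟨e, he⟩ := iso_of_simple hs hs' ((hom_iff2 h h' R).2 hR) (by
    intro h1
    apply h0
    exact Matrix.toLin'.injective (by rw [h1, map_zero]))
  exact ⟨e, he⟩

end homs

section loc

variable {G : ℕ} {Z : Matrix (Fin G) (Fin G) ℂ}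

/-- Irreducible submodules of good factors. -/
theorem loc3 (h : PM Z) {U : Submodule ℂ (Fin G ⊕ Fin G → ℂ)} (hU : IrS (LZ Z) U)
    {a : ℕ} {Z' : Matrix (Fin a) (Fin a) ℂ} {E : Matrix (Fin G ⊕ Fin G) (Fin a ⊕ Fin a) ℚ}
    {F : Matrix (Fin a ⊕ Fin a) (Fin G ⊕ Fin G) ℚ} (hf : Fac Z Z' E F) (h' : PM Z')
    (hs' : IsSimpleAV Z') (ha : 0 < a) (h0 : ∃ u ∈ U, ml F u ≠ 0)
    (hs : (¬ HasCMult (AVZ h') ∧ ∀ U, IrS (LZ Z') U → LC h' U) ∨ HasCMult (AVZ h'))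
    (hn : 2 ≤ finrank ℂ U) :
    Rk1 Z U ∧ ∀ (σ : ℂ ≃+* ℂ) (c : ℂ), ∃ u ∈ U, DS Z σ *ᵥ u ≠ c • u := by
  have hinj := hf.inj hU h0
  have hU' := hf.irr hU h0
  rcases hs with ⟨hnc, hs1⟩ | hcm
  swap
  · have h1 := line_of_comm (comm_of_cm h' hs' ha hcm) hU'
    rw [finrank_ml hinj] at h1
    omega
  obtain ⟨h1, hns, h2⟩ := hs1 _ hU'
  rw [finrank_ml hinj] at h1 h2 hns
  refine ⟨?_, fun σ c => ?_⟩
  · obtain ⟨D, hD, N', hN', h3, h4, h5⟩ := h1 hn
    obtain ⟨ε, hε, rfl⟩ : ∃ ε : ℂ, (ε = 1 ∨ ε = -1) ∧ D = ε • DZ Z' := by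
      rcases hD with rfl | rfl
      · exact ⟨1, Or.inl rfl, (one_smul _ _).symm⟩
      · exact ⟨-1, Or.inr rfl, (neg_one_smul _ _).symm⟩
    obtain ⟨N, hN, h6, h7, rfl⟩ := hf.lift_rk h h' ε hε hN' h3 h4
    refine ⟨ε • DZ Z, ?_, N, hN, h6, h7, ?_⟩
    · rcases hε with rfl | rfl
      · exact Or.inl (one_smul _ _)
      · exact Or.inr (neg_one_smul _ _)
    · rw [act_mem hf hN hinj (hU.2.1 N hN)]
      exact h5
  · obtain ⟨u', ⟨u, hu, rfl⟩, hu'⟩ := hns hn σ c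
    refine ⟨u, hu, fun h3 => hu' ?_⟩
    have h4 := hf.act (DS_mem σ) u
    rw [h3, hf.fds, Matrix.mul_assoc, hf.fe', Matrix.mul_one] at h4
    rw [← h4, map_smul]

end loc

end

end Pool.Agent.L5helper19.TT
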