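import Mathlib
import Pool.Agent.L5helper19.TT.Main1

/-!
# The decomposition into classes of simple factors
-/

set_option linter.unusedSectionVars false

namespace Pool.Agent.L5helper19.TT

open Matrix Module Pool.Agent.W437.HC Pool.Agent.W437.HD Pool.Agent.TH504.CB Pool.Agent.Y90
open Pool.Agent.R915
open Pool.Agent.W548.Odd hiding cv
open Pool.Agent.H204R3.CM (IsHodge)
open Pool.Agent.H204R3.SP (Kills)
open Pool.Agent.W437.HP (cK cK_mul cK_one cK_sum)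

noncomputable section

section kill

variable {V : Type} [AddCommGroup V] [Module ℂ V] {κ : Type} [Fintype κ] [DecidableEq κ]

/-- Operators killing a form on the image of a projection. -/
theorem kills_of_proj {P t : End ℂ V} {a : MultilinearMap ℂ (fun _ : κ => V) ℂ}
    (hPt : P * t = t * P) (hPP : P * P = P) (ha : ∀ v, a (fun k => P (v k)) = a v)
    (hk : Kills (t * P) a) : Kills t a := by
  intro v
  rw [← hk (fun k => P (v k))]
  refine Finset.sum_congr rfl fun k _ => ?_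
  rw [← ha (Function.update v k (t (v k)))]
  congr 1
  funext l
  by_cases hl : l = k
  · subst hl
    rw [Function.update_self, Function.update_self]
    have h1 : P (t (v l)) = (P * t) (v l) := rfl
    have h2 : (t * P) (P (v l)) = (t * (P * P)) (v l) := rfl
    rw [h1, h2, hPP, hPt]
  · rw [Function.update_of_ne hl, Function.update_of_ne hl]

theorem kills_sub {X Y : End ℂ V} {a : MultilinearMap ℂ (fun _ : κ => V) ℂ}
    (hX : Kills X a) (hY : Kills Y a) : Kills (X - Y) a := by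
  intro v
  have h1 := congrArg₂ (fun x y : ℂ => x - y) (hX v) (hY v)
  simp only [sub_zero] at h1
  rw [← h1, ← Finset.sum_sub_distrib]
  refine Finset.sum_congr rfl fun k _ => ?_
  rw [LinearMap.sub_apply, MultilinearMap.map_update_sub]

variable {G : ℕ} {Z : Matrix (Fin G) (Fin G) ℂ}

/-- A form killed by the conjugates of the complex structure is killed by the Lie algebra. -/
theorem kills_LZ {a : MultilinearMap ℂ (fun _ : κ => Fin G ⊕ Fin G → ℂ) ℂ}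
    (ha : ∀ σ, Kills (ph _ (DS Z σ)) a) : ∀ X ∈ LZ Z, Kills (ph _ X) a := by
  have h1 : LZ Z ≤ LinearMap.ker (actL (CF a)) := by
    refine LZ_le (fun σ => ?_) (fun A hA B hB => ?_)
    · rw [LinearMap.mem_ker, actL_apply]
      exact act_of_kills (ha σ)
    · rw [LinearMap.mem_ker, actL_apply] at hA hB ⊢
      exact act_bracket hA hB
  intro X hX
  have h2 := h1 hX
  rw [LinearMap.mem_ker, actL_apply] at h2
  exact kills_of_act h2

end kill

/-- A decomposition into simple factors. -/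
structure DCS {G : ℕ} (Z : Matrix (Fin G) (Fin G) ℂ) {ι : Type} [Fintype ι] [DecidableEq ι]
    {g : ι → ℕ} (Z' : ∀ i, Matrix (Fin (g i)) (Fin (g i)) ℂ)
    (E : ∀ i, Matrix (Fin G ⊕ Fin G) (Fin (g i) ⊕ Fin (g i)) ℚ)
    (F : ∀ i, Matrix (Fin (g i) ⊕ Fin (g i)) (Fin G ⊕ Fin G) ℚ) : Prop where
  pm : ∀ i, PM (Z' i)
  sim : ∀ i, IsSimpleAV (Z' i)
  fac : ∀ i, Fac Z (Z' i) (E i) (F i)
  orth : ∀ i j, i ≠ j → F i * E j = 0
  sum : ∑ i, E i * F i = 1
  pos : ∀ i, 0 < g i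

theorem exists_dcs {G : ℕ} {Z : Matrix (Fin G) (Fin G) ℂ} (h : PM Z) :
    ∃ (ι : Type) (_ : Fintype ι) (_ : DecidableEq ι) (g : ι → ℕ)
    (Z' : ∀ i, Matrix (Fin (g i)) (Fin (g i)) ℂ)
    (E : ∀ i, Matrix (Fin G ⊕ Fin G) (Fin (g i) ⊕ Fin (g i)) ℚ)
    (F : ∀ i, Matrix (Fin (g i) ⊕ Fin (g i)) (Fin G ⊕ Fin G) ℚ), DCS Z Z' E F := by
  obtain ⟨ι, i1, i2, g, Z', E, F, h1, h2, h3, h4, h5, h6, h7, h8⟩ :=
    decomposes G G Z le_rfl h.symm h.pos
  refine ⟨ι, i1, i2, g, Z', E, F, fun i => ⟨h1 i, h2 i⟩, h3,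
    fun i => ⟨h4 i, de_of_JR (h7 i), fd_of_JR ?_⟩, h5, h6, h8⟩
  have h12 : JR Z = ∑ j, JR Z * cK ℝ (E j) * cK ℝ (F j) := by
    have h13 : JR Z = JR Z * cK ℝ (∑ i, E i * F i) := by rw [h6, cK_one, Matrix.mul_one]
    conv_lhs => rw [h13, cK_sum, Matrix.mul_sum]
    refine Finset.sum_congr rfl fun j _ => ?_
    rw [cK_mul, Matrix.mul_assoc]
  rw [h12, Matrix.mul_sum, Finset.sum_eq_single i]
  · rw [h7 i, ← Matrix.mul_assoc, ← Matrix.mul_assoc, ← cK_mul, h4 i, cK_one, Matrix.one_mul]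
  · intro j _ hj
    rw [h7 j, ← Matrix.mul_assoc, ← Matrix.mul_assoc, ← cK_mul, h5 i j hj.symm,
      Pool.Agent.W437.HP.cK_zero, Matrix.zero_mul, Matrix.zero_mul]
  · intro hi'
    exact absurd (Finset.mem_univ i) hi'

section ps

variable {G : ℕ} {Z : Matrix (Fin G) (Fin G) ℂ} {ι : Type} [Fintype ι] [DecidableEq ι]
    {g : ι → ℕ} {Z' : ∀ i, Matrix (Fin (g i)) (Fin (g i)) ℂ}
    {E : ∀ i, Matrix (Fin G ⊕ Fin G) (Fin (g i) ⊕ Fin (g i)) ℚ}
    {F : ∀ i, Matrix (Fin (g i) ⊕ Fin (g i)) (Fin G ⊕ Fin G) ℚ}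

open Classical in
/-- The projection to a family of factors. -/
def PS (E : ∀ i, Matrix (Fin G ⊕ Fin G) (Fin (g i) ⊕ Fin (g i)) ℚ)
    (F : ∀ i, Matrix (Fin (g i) ⊕ Fin (g i)) (Fin G ⊕ Fin G) ℚ) (p : ι → Prop) :
    Matrix (Fin G ⊕ Fin G) (Fin G ⊕ Fin G) ℚ := ∑ i, if p i then E i * F i else 0

theorem PS_congr {p q : ι → Prop} (h : ∀ i, p i ↔ q i) : PS E F p = PS E F q := by
  have h1 : p = q := funext fun i => propext (h i)
  rw [h1]

theorem PS_or {p q : ι → Prop} (h : ∀ i, p i → ¬ q i) :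
    PS E F (fun i => p i ∨ q i) = PS E F p + PS E F q := by
  classical
  unfold PS
  rw [← Finset.sum_add_distrib]
  refine Finset.sum_congr rfl fun i _ => ?_
  by_cases h1 : p i
  · rw [if_pos (Or.inl h1), if_pos h1, if_neg (h i h1), add_zero]
  · by_cases h2 : q i
    · rw [if_pos (Or.inr h2), if_neg h1, if_pos h2, zero_add]
    · rw [if_neg (by tauto), if_neg h1, if_neg h2, add_zero]

theorem PS_sub (p : ι → Prop) [Fintype {i // p i}] :
    PS E F p = ∑ x : {i // p i}, E x.1 * F x.1 := by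
  classical
  unfold PS
  rw [← Finset.sum_filter]
  exact Finset.sum_subtype _ (fun i => by simp) (fun i => E i * F i)

variable (d : DCS Z Z' E F)
include d

theorem DCS.F_PS_neg (p : ι → Prop) (j : ι) (hj : ¬ p j) : F j * PS E F p = 0 := by
  classical
  unfold PS
  rw [Matrix.mul_sum]
  refine Finset.sum_eq_zero fun i _ => ?_
  by_cases h1 : p i
  · rw [if_pos h1, ← Matrix.mul_assoc, d.orth j i (fun h2 => hj (h2 ▸ h1)), Matrix.zero_mul]
  · rw [if_neg h1, Matrix.mul_zero]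

theorem DCS.F_PS_pos (p : ι → Prop) (j : ι) (hj : p j) : F j * PS E F p = F j := by
  classical
  unfold PS
  rw [Matrix.mul_sum, Finset.sum_eq_single j]
  · rw [if_pos hj, ← Matrix.mul_assoc, (d.fac j).fe, Matrix.one_mul]
  · intro i _ hi
    by_cases h1 : p i
    · rw [if_pos h1, ← Matrix.mul_assoc, d.orth j i (Ne.symm hi), Matrix.zero_mul]
    · rw [if_neg h1, Matrix.mul_zero]
  · intro h1
    exact absurd (Finset.mem_univ j) h1

theorem DCS.PS_mul (p q : ι → Prop) : PS E F p * PS E F q = PS E F (fun i => p i ∧ q i) := by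
  classical
  have h0 := d.F_PS_pos q
  have h0' := d.F_PS_neg q
  generalize PS E F q = Q at h0 h0' ⊢
  unfold PS
  rw [Finset.sum_mul]
  refine Finset.sum_congr rfl fun i _ => ?_
  by_cases h1 : p i
  · rw [if_pos h1, Matrix.mul_assoc]
    by_cases h2 : q i
    · rw [if_pos ⟨h1, h2⟩, h0 i h2]
    · rw [if_neg (fun h => h2 h.2), h0' i h2, Matrix.mul_zero]
  · rw [if_neg h1, if_neg (fun h => h1 h.1), Matrix.zero_mul]

theorem DCS.PS_idem (p : ι → Prop) : PS E F p * PS E F p = PS E F p := by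
  rw [d.PS_mul]
  exact PS_congr fun i => and_self_iff

theorem DCS.PS_zero (p q : ι → Prop) (h : ∀ i, p i → ¬ q i) : PS E F p * PS E F q = 0 := by
  rw [d.PS_mul]
  unfold PS
  refine Finset.sum_eq_zero fun i _ => ?_
  rw [if_neg (fun h1 => h i h1.1 h1.2)]

theorem DCS.PS_top (p : ι → Prop) (h : ∀ i, p i) : PS E F p = 1 := by
  rw [← d.sum]
  unfold PS
  exact Finset.sum_congr rfl fun i _ => if_pos (h i)

theorem DCS.PS_comm (p : ι → Prop) : cK ℂ (PS E F p) * DZ Z = DZ Z * cK ℂ (PS E F p) := by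
  classical
  unfold PS
  rw [cK_sum, Finset.sum_mul, Matrix.mul_sum]
  refine Finset.sum_congr rfl fun i _ => ?_
  by_cases h1 : p i
  · rw [if_pos h1, cK_mul, Matrix.mul_assoc, (d.fac i).fd, ← Matrix.mul_assoc, ← (d.fac i).de,
      Matrix.mul_assoc]
  · rw [if_neg h1, Pool.Agent.W437.HP.cK_zero, Matrix.zero_mul, Matrix.mul_zero]

end ps

section clm

variable {G : ℕ} {Z : Matrix (Fin G) (Fin G) ℂ} (𝒜 : Sys) (h : PM Z)

/-- The forms on the image of a projection belong to the system. -/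
def Clm (P : Matrix (Fin G ⊕ Fin G) (Fin G ⊕ Fin G) ℚ) : Prop :=
  ∀ (κ : Type) [Fintype κ] [DecidableEq κ] (a : MultilinearMap ℂ (fun _ : κ => Fin G ⊕ Fin G → ℂ) ℂ),
    (∀ v, a (fun k => ml P (v k)) = a v) → (∀ σ, Kills (ph _ (DS Z σ * cK ℂ P)) a) →
    a ∈ NA 𝒜 h.cht ⟨_, h.polar⟩ κ

variable {P : Matrix (Fin G ⊕ Fin G) (Fin G ⊕ Fin G) ℚ}

theorem ds_comm (hPD : cK ℂ P * DZ Z = DZ Z * cK ℂ P) (σ : ℂ ≃+* ℂ) :
    cK ℂ P * DS Z σ = DS Z σ * cK ℂ P := by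
  have h1 := congrArg (fun M => M.map σ) hPD
  simp only [Matrix.map_mul, cK_aut] at h1
  exact h1

theorem ph_cK (P : Matrix (Fin G ⊕ Fin G) (Fin G ⊕ Fin G) ℚ) : ph _ (cK ℂ P) = ml P := rfl

/-- Killed forms on the image of a projection. -/
theorem kills_proj (hPP : P * P = P) (hPD : cK ℂ P * DZ Z = DZ Z * cK ℂ P) {κ : Type} [Fintype κ]
    [DecidableEq κ] {a : MultilinearMap ℂ (fun _ : κ => Fin G ⊕ Fin G → ℂ) ℂ}
    (ha : ∀ v, a (fun k => ml P (v k)) = a v) (hk : ∀ σ, Kills (ph _ (DS Z σ * cK ℂ P)) a) :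
    ∀ X ∈ LZ Z, Kills (ph _ X) a := by
  refine kills_LZ fun σ => ?_
  have h1 := hk σ
  rw [map_mul] at h1
  refine kills_of_proj ?_ ?_ ha h1
  · rw [← ph_cK, ← map_mul, ← map_mul, ds_comm hPD]
  · rw [← ph_cK, ← map_mul, ← cK_mul, hPP]

/-- Sums of independent projections. -/
theorem Clm.add {P1 P2 : Matrix (Fin G ⊕ Fin G) (Fin G ⊕ Fin G) ℚ} (h11 : P1 * P1 = P1)
    (h22 : P2 * P2 = P2) (h12 : P1 * P2 = 0) (h21 : P2 * P1 = 0)
    (hD1 : cK ℂ P1 * DZ Z = DZ Z * cK ℂ P1) (hD2 : cK ℂ P2 * DZ Z = DZ Z * cK ℂ P2)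
    (hL : DZ Z * cK ℂ P1 ∈ LZ Z) (c1 : Clm 𝒜 h P1) (c2 : Clm 𝒜 h P2) : Clm 𝒜 h (P1 + P2) := by
  intro κ _ _ a ha hk
  have hcadd : cK ℂ (P1 + P2) = cK ℂ P1 + cK ℂ P2 := by
    ext i j
    simp [cK]
  have hPP : (P1 + P2) * (P1 + P2) = P1 + P2 := by
    rw [Matrix.mul_add, Matrix.add_mul, Matrix.add_mul, h11, h22, h12, h21, add_zero, zero_add]
  have hPD : cK ℂ (P1 + P2) * DZ Z = DZ Z * cK ℂ (P1 + P2) := by
    rw [hcadd, Matrix.add_mul, Matrix.mul_add, hD1, hD2]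
  have hall := kills_proj hPP hPD ha hk
  have hL' : ∀ σ, DS Z σ * cK ℂ P1 ∈ LZ Z := fun σ => by
    have h1 := gal_LZ σ _ hL
    rw [Matrix.map_mul, cK_aut] at h1
    exact h1
  have hk1 : ∀ σ, Kills (ph _ (DS Z σ * cK ℂ P1)) a := fun σ => hall _ (hL' σ)
  have hk2 : ∀ σ, Kills (ph _ (DS Z σ * cK ℂ P2)) a := fun σ => by
    have h1 := kills_sub (hk σ) (hk1 σ)
    rw [← map_sub, hcadd, Matrix.mul_add, add_sub_cancel_left] at h1
    exact h1
  refine split_mem' (N := fun κ _ => NA 𝒜 h.cht ⟨_, h.polar⟩ κ) (clo_NA _ _ _)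
    (P1 := ph _ (cK ℂ P1)) (P2 := ph _ (cK ℂ P2))
    (T1 := Set.range fun σ => ph _ (DS Z σ * cK ℂ P1))
    (T2 := Set.range fun σ => ph _ (DS Z σ * cK ℂ P2)) ?_ ?_ ?_ ?_ ?_ ?_ a ?_ ?_ ?_
  · rintro _ ⟨σ, rfl⟩
    refine ⟨?_, ?_⟩
    · rw [← map_mul, ← map_mul, ← Matrix.mul_assoc, ds_comm hD1]
    · rw [← map_mul, Matrix.mul_assoc, ← cK_mul, h12, Pool.Agent.W437.HP.cK_zero, Matrix.mul_zero,
        map_zero]
  · rintro _ ⟨σ, rfl⟩
    refine ⟨?_, ?_⟩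
    · rw [← map_mul, ← map_mul, ← Matrix.mul_assoc, ds_comm hD2]
    · rw [← map_mul, Matrix.mul_assoc, ← cK_mul, h21, Pool.Agent.W437.HP.cK_zero, Matrix.mul_zero,
        map_zero]
  · rw [← map_mul, ← cK_mul, h11]
  · rw [← map_mul, ← cK_mul, h22]
  · intro κ _ _ a ha hk
    exact c1 κ a ha fun σ => hk _ ⟨σ, rfl⟩
  · intro κ _ _ a ha hk
    exact c2 κ a ha fun σ => hk _ ⟨σ, rfl⟩
  · intro v
    rw [← ha v]
    congr 1
    funext k
    rw [ml_apply, hcadd, Matrix.add_mulVec]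
    rfl
  · rintro _ ⟨σ, rfl⟩
    exact hk1 σ
  · rintro _ ⟨σ, rfl⟩
    exact hk2 σ

end clm

end

end Pool.Agent.L5helper19.TT
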