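import Mathlib
import Pool.Agent.L5helper19.TT.Main2

/-!
# Classes of simple factors of type III
-/

set_option linter.unusedSectionVars false

namespace Pool.Agent.L5helper19.TT

open Matrix Module Pool.Agent.W437.HC Pool.Agent.W437.HD Pool.Agent.TH504.CB Pool.Agent.Y90
open Pool.Agent.R915
open Pool.Agent.W548.Odd hiding cv
open Pool.Agent.H204R3.CM (IsHodge)
open Pool.Agent.H204R3.SP (Kills)
open Pool.Agent.W437.HP (cK cK_mul cK_one cK_sum)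

noncomputable section

section wrap

variable {G : ℕ} {Z : Matrix (Fin G) (Fin G) ℂ}

theorem pair_zero' (h : PM Z) {a₁ a₂ : ℕ} {Z₁ : Matrix (Fin a₁) (Fin a₁) ℂ}
    {Z₂ : Matrix (Fin a₂) (Fin a₂) ℂ} {E₁ : Matrix (Fin G ⊕ Fin G) (Fin a₁ ⊕ Fin a₁) ℚ}
    {E₂ : Matrix (Fin G ⊕ Fin G) (Fin a₂ ⊕ Fin a₂) ℚ}
    {F₁ : Matrix (Fin a₁ ⊕ Fin a₁) (Fin G ⊕ Fin G) ℚ}
    {F₂ : Matrix (Fin a₂ ⊕ Fin a₂) (Fin G ⊕ Fin G) ℚ} (pm1 : PM Z₁) (pm2 : PM Z₂)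
    (q1 : QuatEnd (AVZ pm1)) (q2 : QuatEnd (AVZ pm2)) (s1 : IsSimple (AVZ pm1))
    (s2 : IsSimple (AVZ pm2)) (f1 : Fac Z Z₁ E₁ F₁) (f2 : Fac Z Z₂ E₂ F₂)
    (hn : ¬ Isog pm1 pm2) : ∀ X ∈ cm Z (KF Z E₁ F₁), cK ℂ F₂ * X * cK ℂ E₂ = 0 := by
  obtain ⟨hg1, I₁, J₁, x₁, y₁, k1⟩ := q1.qm
  obtain ⟨hg2, I₂, J₂, x₂, y₂, k2⟩ := q2.qm
  subst hg1
  subst hg2
  exact pair_zero h pm1 pm2 k1 k2 f1 f2 fun R hR => hom_zero s1 s2 hn hR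

theorem exists_sqrt (a : ℚ) : ∃ α : ℂ, α * α = -(a : ℂ) := by
  obtain ⟨s, hs⟩ := IsAlgClosed.exists_pow_nat_eq (-(a : ℂ)) (n := 2) (by norm_num)
  exact ⟨s, by rw [← hs, sq]⟩

variable (h : PM Z) {a : ℕ} {Z' : Matrix (Fin a) (Fin a) ℂ} (h' : PM Z') (kq : QuatEnd (AVZ h'))
  {E : Matrix (Fin G ⊕ Fin G) (Fin a ⊕ Fin a) ℚ} {F : Matrix (Fin a ⊕ Fin a) (Fin G ⊕ Fin G) ℚ}
  (hf : Fac Z Z' E F) {ι : Type} [Fintype ι] {P : Matrix (Fin G ⊕ Fin G) (Fin G ⊕ Fin G) ℚ}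
  (H : ι → Matrix (Fin G ⊕ Fin G) (Fin a ⊕ Fin a) ℚ)
  (R : ι → Matrix (Fin a ⊕ Fin a) (Fin G ⊕ Fin G) ℚ)
  (hH : ∀ i, cK ℂ (H i) * DZ Z' = DZ Z * cK ℂ (H i))
  (hR : ∀ i, cK ℂ (R i) * DZ Z = DZ Z' * cK ℂ (R i)) (hP : ∑ i, H i * R i = P)
  (hPP : P * P = P) (hPD : cK ℂ P * DZ Z = DZ Z * cK ℂ P)

include kq hf hH hR hP hPP hPD in
/-- The forms on one class of factors of type III. -/
theorem iso_clm (𝒜 : Sys) : Clm 𝒜 h P := by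
  obtain ⟨hg, I, J, x, y, k⟩ := kq.qm
  subst hg
  obtain ⟨α, hα⟩ := exists_sqrt x
  obtain ⟨bb, t⟩ := QM.exists_T4 h' (by norm_num) k hα rfl
  intro κ _ _ A hA hk
  exact iso_mem h h' k hα t 𝒜 hf H R hH hR hP A hA (kills_proj hPP hPD hA hk)

include h kq hf hH hP hPP hPD in
/-- One class of factors of type III is independent of the others. -/
theorem iso_dp (hsim : IsSimpleAV Z') (ha : 0 < a)
    (hsp : ∀ U : Submodule ℂ (Fin G ⊕ Fin G → ℂ), IrS (LZ Z) U → (∀ u ∈ U, ml P u = 0) →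
      ∃ (a₂ : ℕ) (Z₂ : Matrix (Fin a₂) (Fin a₂) ℂ)
        (E₂ : Matrix (Fin G ⊕ Fin G) (Fin a₂ ⊕ Fin a₂) ℚ)
        (F₂ : Matrix (Fin a₂ ⊕ Fin a₂) (Fin G ⊕ Fin G) ℚ) (h₂ : PM Z₂), Fac Z Z₂ E₂ F₂ ∧
        IsSimpleAV Z₂ ∧ 0 < a₂ ∧ (∃ u ∈ U, ml F₂ u ≠ 0) ∧
        ((QuatEnd (AVZ h₂) ∧ ¬ Isog h' h₂) ∨
          ((¬ HasCMult (AVZ h₂) ∧ ∀ U, IrS (LZ Z₂) U → LC h₂ U) ∨ HasCMult (AVZ h₂)))) :
    DZ Z * cK ℂ P ∈ LZ Z := by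
  obtain ⟨hg, I, J, x, y, k⟩ := kq.qm
  subst hg
  obtain ⟨α, hα⟩ := exists_sqrt x
  obtain ⟨bb, t⟩ := QM.exists_T4 h' (by norm_num) k hα rfl
  have tw := T4.two h' (by norm_num) k hα t rfl
  refine dp_mem h hf tw H R hH hP hPP hPD fun U hU hUP hdim X hX => ?_
  obtain ⟨a₂, Z₂, E₂, F₂, h₂, f₂, s₂, ha₂, h0, hcase⟩ := hsp U hU hUP
  rcases hcase with ⟨q₂, hn⟩ | hcase
  · refine ⟨0, fun u hu => ?_⟩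
    have h1 := pair_zero' h h' h₂ kq q₂ (simple_of _ h' hsim ha) (simple_of _ h₂ s₂ ha₂) hf f₂ hn X hX
    have hX' : X ∈ LZ Z := hX.2
    rw [zero_smul]
    refine f₂.inj hU h0 _ (hU.2.1 X hX' u hu) ?_
    rw [f₂.act hX', h1, zero_mulVec]
  · obtain ⟨h3, h4⟩ := loc3 h hU f₂ h₂ s₂ ha₂ h0 hcase hdim
    exact ind_scalar h hf tw hU hdim h3 h4 X hX

end wrap

end

end Pool.Agent.L5helper19.TT
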