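import Mathlib
import Pool.Agent.L5helper19.TT.Main3
import Pool.Agent.R915.H2

/-!
# Abelian varieties with simple factors of type III
-/

set_option linter.unusedSectionVars false

namespace Pool.Agent.L5helper19.TT

open Matrix Module Pool.Agent.W437.HC Pool.Agent.W437.HD Pool.Agent.TH504.CB Pool.Agent.Y90
open Pool.Agent.R915
open Pool.Agent.W548.Odd hiding cv
open Pool.Agent.H204R3.CM (IsHodge)
open Pool.Agent.H204R3.SP (Kills)
open Pool.Agent.W437.HP (cK cK_mul cK_one cK_sum)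
open Pool.Agent.W547.KB (CMPair CMAV)

noncomputable section

section cls

variable {G : ℕ} {Z : Matrix (Fin G) (Fin G) ℂ} {ι : Type} [Fintype ι] [DecidableEq ι]
    {g : ι → ℕ} {Z' : ∀ i, Matrix (Fin (g i)) (Fin (g i)) ℂ}
    {E : ∀ i, Matrix (Fin G ⊕ Fin G) (Fin (g i) ⊕ Fin (g i)) ℚ}
    {F : ∀ i, Matrix (Fin (g i) ⊕ Fin (g i)) (Fin G ⊕ Fin G) ℚ} (𝒜 : Sys) (h : PM Z)
    (d : DCS Z Z' E F)

include d in
theorem DCS.cls_data (c : ι) : ∃ (H : {j // Isog (d.pm c) (d.pm j)} →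
      Matrix (Fin G ⊕ Fin G) (Fin (g c) ⊕ Fin (g c)) ℚ)
    (R : {j // Isog (d.pm c) (d.pm j)} → Matrix (Fin (g c) ⊕ Fin (g c)) (Fin G ⊕ Fin G) ℚ),
    (∀ i, cK ℂ (H i) * DZ (Z' c) = DZ Z * cK ℂ (H i)) ∧
    (∀ i, cK ℂ (R i) * DZ Z = DZ (Z' c) * cK ℂ (R i)) ∧ ∀ i, H i * R i = E i.1 * F i.1 := by
  have h1 : ∀ x : {j // Isog (d.pm c) (d.pm j)}, _ := fun x => Isog.mat x.2
  choose A B hA hB hAB hBA using h1
  refine ⟨fun x => E x.1 * A x, fun x => B x * F x.1, fun x => ?_, fun x => ?_, fun x => ?_⟩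
  · rw [cK_mul, Matrix.mul_assoc, hA, ← Matrix.mul_assoc, ← (d.fac x.1).de, Matrix.mul_assoc]
  · rw [cK_mul, Matrix.mul_assoc, (d.fac x.1).fd, ← Matrix.mul_assoc, hB, Matrix.mul_assoc]
  · rw [Matrix.mul_assoc, ← Matrix.mul_assoc (A x), hAB, Matrix.one_mul]

theorem DCS.cls_clm (c : ι) (kq : QuatEnd (AVZ (d.pm c))) :
    Clm 𝒜 h (PS E F fun j => Isog (d.pm c) (d.pm j)) := by
  classical
  obtain ⟨H, R, h1, h2, h3⟩ := d.cls_data c
  refine iso_clm h (d.pm c) kq (d.fac c) H R h1 h2 ?_ (d.PS_idem _) (d.PS_comm _) 𝒜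
  rw [PS_sub]
  exact Finset.sum_congr rfl fun x _ => h3 x

include h in
theorem DCS.cls_dp (hgood : ∀ j, ¬ QuatEnd (AVZ (d.pm j)) →
      (¬ HasCMult (AVZ (d.pm j)) ∧ ∀ U, IrS (LZ (Z' j)) U → LC (d.pm j) U) ∨
        HasCMult (AVZ (d.pm j))) (c : ι) (kq : QuatEnd (AVZ (d.pm c))) :
    DZ Z * cK ℂ (PS E F fun j => Isog (d.pm c) (d.pm j)) ∈ LZ Z := by
  classical
  obtain ⟨H, R, h1, h2, h3⟩ := d.cls_data c
  refine iso_dp h (d.pm c) kq (d.fac c) H R h1 ?_ (d.PS_idem _) (d.PS_comm _) (d.sim c) (d.pos c)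
    fun U hU hUP => ?_
  · rw [PS_sub]
    exact Finset.sum_congr rfl fun x _ => h3 x
  obtain ⟨u, hu, hu0⟩ := Submodule.exists_mem_ne_zero_of_ne_bot hU.1
  have h9 : ∃ i, ml (F i) u ≠ 0 := by
    by_contra hcon
    push Not at hcon
    apply hu0
    have h10 : u = cK ℂ (∑ i, E i * F i) *ᵥ u := by rw [d.sum, cK_one, one_mulVec]
    rw [h10, cK_sum, sum_mulVec]
    refine Finset.sum_eq_zero fun i _ => ?_
    have h11 := hcon i
    rw [ml_apply] at h11
    rw [cK_mul, ← mulVec_mulVec, h11, mulVec_zero]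
  obtain ⟨j, hj⟩ := h9
  have hn : ¬ Isog (d.pm c) (d.pm j) := fun hcj => by
    apply hj
    have h4 := d.F_PS_pos (fun j => Isog (d.pm c) (d.pm j)) j hcj
    rw [← h4, ml_apply, cK_mul, ← mulVec_mulVec]
    have h5 := hUP u hu
    rw [ml_apply] at h5
    rw [h5, mulVec_zero]
  refine ⟨g j, Z' j, E j, F j, d.pm j, d.fac j, d.sim j, d.pos j, ⟨u, hu, hj⟩, ?_⟩
  by_cases hq : QuatEnd (AVZ (d.pm j))
  · exact Or.inl ⟨hq, hn⟩
  · exact Or.inr (hgood j hq)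

/-- All classes together. -/
theorem DCS.all_clm (hgood : ∀ j, ¬ QuatEnd (AVZ (d.pm j)) →
      (¬ HasCMult (AVZ (d.pm j)) ∧ ∀ U, IrS (LZ (Z' j)) U → LC (d.pm j) U) ∨
        HasCMult (AVZ (d.pm j)))
    (hbase : Clm 𝒜 h (PS E F fun j => ¬ QuatEnd (AVZ (d.pm j)))) : Clm 𝒜 h 1 := by
  classical
  have key : ∀ s : Finset {i // QuatEnd (AVZ (d.pm i))}, Clm 𝒜 h (PS E F fun j =>
      ¬ QuatEnd (AVZ (d.pm j)) ∨ ∃ y ∈ s, Isog (d.pm y.1) (d.pm j)) := by
    intro s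
    induction s using Finset.induction_on with
    | empty =>
      have h1 : PS E F (fun j => ¬ QuatEnd (AVZ (d.pm j)) ∨
          ∃ c ∈ (∅ : Finset {i // QuatEnd (AVZ (d.pm i))}), Isog (d.pm c.1) (d.pm j)) =
          PS E F fun j => ¬ QuatEnd (AVZ (d.pm j)) := PS_congr fun j => by simp
      rw [h1]
      exact hbase
    | insert c s hc ih =>
      by_cases hex : ∃ c' ∈ s, Isog (d.pm c'.1) (d.pm c.1)
      · obtain ⟨c', hc', hcc⟩ := hex
        have h1 : PS E F (fun j => ¬ QuatEnd (AVZ (d.pm j)) ∨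
            ∃ y ∈ insert c s, Isog (d.pm y.1) (d.pm j)) =
            PS E F fun j => ¬ QuatEnd (AVZ (d.pm j)) ∨ ∃ y ∈ s, Isog (d.pm y.1) (d.pm j) := by
          refine PS_congr fun j => ⟨?_, ?_⟩
          · rintro (h2 | ⟨x, hx, hxj⟩)
            · exact Or.inl h2
            · rcases Finset.mem_insert.1 hx with rfl | hx
              · exact Or.inr ⟨c', hc', hcc.trans hxj⟩
              · exact Or.inr ⟨x, hx, hxj⟩
          · rintro (h2 | ⟨x, hx, hxj⟩)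
            · exact Or.inl h2
            · exact Or.inr ⟨x, Finset.mem_insert_of_mem hx, hxj⟩
        rw [h1]
        exact ih
      · have hdis : ∀ j, Isog (d.pm c.1) (d.pm j) → ¬ (¬ QuatEnd (AVZ (d.pm j)) ∨
            ∃ y ∈ s, Isog (d.pm y.1) (d.pm j)) := by
          rintro j hj (h2 | ⟨x, hx, hxj⟩)
          · obtain ⟨e, he, hes⟩ := hj
            exact h2 (QuatEnd.iso e.symm hes he c.2)
          · exact hex ⟨x, hx, hxj.trans hj.symm⟩
        have h1 : PS E F (fun j => ¬ QuatEnd (AVZ (d.pm j)) ∨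
            ∃ y ∈ insert c s, Isog (d.pm y.1) (d.pm j)) =
            PS E F (fun j => Isog (d.pm c.1) (d.pm j)) +
            PS E F fun j => ¬ QuatEnd (AVZ (d.pm j)) ∨ ∃ y ∈ s, Isog (d.pm y.1) (d.pm j) := by
          rw [← PS_or hdis]
          refine PS_congr fun j => ⟨?_, ?_⟩
          · rintro (h2 | ⟨x, hx, hxj⟩)
            · exact Or.inr (Or.inl h2)
            · rcases Finset.mem_insert.1 hx with rfl | hx
              · exact Or.inl hxj
              · exact Or.inr (Or.inr ⟨x, hx, hxj⟩)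
          · rintro (h2 | h2 | ⟨x, hx, hxj⟩)
            · exact Or.inr ⟨c, Finset.mem_insert_self _ _, h2⟩
            · exact Or.inl h2
            · exact Or.inr ⟨x, Finset.mem_insert_of_mem hx, hxj⟩
        rw [h1]
        exact Clm.add 𝒜 h (d.PS_idem _) (d.PS_idem _) (d.PS_zero _ _ hdis)
          (d.PS_zero _ _ fun j h2 h3 => hdis j h3 h2) (d.PS_comm _) (d.PS_comm _)
          (d.cls_dp h hgood c.1 c.2) (d.cls_clm 𝒜 h c.1 c.2) ih
  have h1 := key Finset.univ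
  rwa [d.PS_top _ fun j => ?_] at h1
  by_cases hq : QuatEnd (AVZ (d.pm j))
  · refine Or.inr ⟨⟨j, hq⟩, Finset.mem_univ _, LinearEquiv.refl ℚ _, ⟨LinearMap.id, fun v => rfl⟩,
      ⟨LinearMap.id, fun v => rfl⟩⟩
  · exact Or.inl hq

end cls

end

end Pool.Agent.L5helper19.TT
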