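import Mathlib
import Pool.Agent.L5helper19.TT.Main4

/-!
# The Hodge classes
-/

set_option linter.unusedSectionVars false

namespace Pool.Agent.L5helper19.TT

open Matrix Module Pool.Agent.W437.HC Pool.Agent.W437.HD Pool.Agent.TH504.CB Pool.Agent.Y90
open Pool.Agent.R915
open Pool.Agent.W548.Odd hiding cv
open Pool.Agent.H204R3.CM (IsHodge)
open Pool.Agent.H204R3.SP (Kills)
open Pool.Agent.W437.HP (cK cK_mul cK_one cK_sum)
open Pool.Agent.W547.KB (CMPair CMAV)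

noncomputable section

section base

variable {G : ℕ} {Z : Matrix (Fin G) (Fin G) ℂ} {ι : Type} [Fintype ι] [DecidableEq ι]
    {g : ι → ℕ} {Z' : ∀ i, Matrix (Fin (g i)) (Fin (g i)) ℂ}
    {E : ∀ i, Matrix (Fin G ⊕ Fin G) (Fin (g i) ⊕ Fin (g i)) ℚ}
    {F : ∀ i, Matrix (Fin (g i) ⊕ Fin (g i)) (Fin G ⊕ Fin G) ℚ} (𝒜 : Sys) (h : PM Z)
    (d : DCS Z Z' E F)

/-- The part of the good factors. -/
theorem DCS.base (p : ι → Prop) [Fintype {j // p j}] [DecidableEq {j // p j}]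
    (hall : 𝒜.AllHodge (AVQ (Q := {j // p j}) fun q => d.pm q.1)) : Clm 𝒜 h (PS E F p) := by
  intro κ _ _ A hA hk
  have hall' := kills_proj (d.PS_idem p) (d.PS_comm p) hA hk
  let Q := {j // p j}
  let a : Q → ℕ := fun q => g q.1
  let RF : Matrix (BQ a) (Fin G ⊕ Fin G) ℚ := Matrix.of fun x j => F x.1.1 x.2 j
  let RE : Matrix (Fin G ⊕ Fin G) (BQ a) ℚ := Matrix.of fun i y => E y.1.1 i y.2
  have hEF : RE * RF = PS E F p := by
    rw [PS_sub]
    ext i j
    rw [Matrix.mul_apply, Fintype.sum_sigma, Matrix.sum_apply]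
    refine Finset.sum_congr rfl fun q _ => ?_
    rw [Matrix.mul_apply]
    rfl
  have hF : ∀ (w : Fin G ⊕ Fin G → ℂ) (q : Q), cQ q (cK ℂ RF *ᵥ w) = cK ℂ (F q.1) *ᵥ w :=
    fun w q => rfl
  have hE : ∀ w : BQ a → ℂ, cK ℂ RE *ᵥ w = ∑ q : Q, cK ℂ (E q.1) *ᵥ cQ q w := by
    intro w
    funext i
    rw [mulVec, dotProduct, Fintype.sum_sigma, Finset.sum_apply]
    rfl
  have hcol : cK ℂ RF * DJ (JR Z) = DJ (JQ fun q : Q => Z' q.1) * cK ℂ RF := by
    apply Matrix.toLin'.injective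
    refine LinearMap.ext fun w => ?_
    rw [Matrix.toLin'_apply, Matrix.toLin'_apply, ← mulVec_mulVec, ← mulVec_mulVec]
    have h1 : ∀ q : Q, cQ q (cK ℂ RF *ᵥ (DJ (JR Z) *ᵥ w)) =
        cQ q (DJ (JQ fun q : Q => Z' q.1) *ᵥ (cK ℂ RF *ᵥ w)) := by
      intro q
      have h2 : DJ (JQ fun q : Q => Z' q.1) =
          blockDiagonal' fun q : Q => DS (Z' q.1) (RingEquiv.refl ℂ) := by
        rw [← DJ_JQ (fun q : Q => d.pm q.1)]
        ext i j
        rfl
      rw [h2, bd_mulVec, hF, hF, mulVec_mulVec, mulVec_mulVec]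
      congr 1
      exact (d.fac q.1).fd
    funext x
    exact congrFun (h1 x.1) x.2
  have hrow : ∀ (σ : ℂ ≃+* ℂ) (w : BQ a → ℂ),
      cK ℂ RE *ᵥ ((DJ (JQ fun q : Q => Z' q.1)).map σ *ᵥ w) = DS Z σ *ᵥ (cK ℂ RE *ᵥ w) := by
    intro σ w
    rw [DJ_JQ (fun q : Q => d.pm q.1), hE, hE, mulVec_sum]
    refine Finset.sum_congr rfl fun q _ => ?_
    rw [bd_mulVec, mulVec_mulVec, mulVec_mulVec, (d.fac q.1).des]
  let B : MultilinearMap ℂ (fun _ : κ => BQ a → ℂ) ℂ := A.compLinearMap fun _ => ml RE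
  have hB : ∀ w, B w = A (fun k => cK ℂ RE *ᵥ w k) := fun w => rfl
  have hkill : ∀ X ∈ LQ (fun q : Q => Z' q.1), act X (CF B) = 0 := by
    have h1 : LQ (fun q : Q => Z' q.1) ≤ LinearMap.ker (actL (CF B)) := by
      refine Submodule.span_le.2 ?_
      rintro _ ⟨σ, rfl⟩
      rw [SetLike.mem_coe, LinearMap.mem_ker, actL_apply]
      refine act_of_kills fun w => ?_
      rw [← hall' _ (DS_mem σ) (fun k => cK ℂ RE *ᵥ w k)]
      refine Finset.sum_congr rfl fun k _ => ?_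
      rw [hB]
      congr 1
      funext l
      by_cases hl : l = k
      · subst hl
        rw [Function.update_self, Function.update_self, ph_apply, ph_apply, hrow]
      · rw [Function.update_of_ne hl, Function.update_of_ne hl]
    intro X hX
    have h2 := h1 hX
    rwa [LinearMap.mem_ker, actL_apply] at h2
  have h3 : B ∈ NA 𝒜 (chtQ fun q : Q => d.pm q.1) (polQ fun q : Q => d.pm q.1) κ :=
    NA_of_hodge _ _ 𝒜 gal_LQ DJ_memQ (fun r hr => hall κ r hr) hkill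
  refine NA_pull h.cht ⟨_, h.polar⟩ (chtQ fun q : Q => d.pm q.1) (polQ fun q : Q => d.pm q.1) 𝒜
    hcol h3 A fun v => ?_
  rw [hB, ← hA v]
  congr 1
  funext k
  rw [mulVec_mulVec, ← cK_mul, hEF]
  rfl

end base

section hodge

variable {G : ℕ} {Z : Matrix (Fin G) (Fin G) ℂ} (𝒜 : Sys) (h : PM Z)

/-- Hodge classes belong to the system. -/
theorem hodge_of_clm (hc : Clm 𝒜 h 1) : 𝒜.AllHodge (AVZ h) := by
  classical
  intro κ _ f hf
  let _ : Fintype κ := Fintype.ofFinite κ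
  refine altQ_altA 𝒜 h f ?_
  have h0 : evalM (cst ℂ (CF f.toMultilinearMap)) ∈ NA 𝒜 h.cht ⟨_, h.polar⟩ κ := by
    refine hc κ _ (fun v => ?_) fun σ => ?_
    · congr 1
      funext k
      rw [ml_apply, cK_one, one_mulVec]
    · rw [cK_one, Matrix.mul_one]
      have h1 : act (DZ Z) (cst ℂ (CF f.toMultilinearMap)) = 0 := h.cht.isH hf
      have h2 : act (DS Z σ) (cst ℂ (CF f.toMultilinearMap)) = 0 := by
        funext I
        have h2 := congrArg σ (congrFun h1 I)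
        rw [Pi.zero_apply, map_zero] at h2
        rw [Pi.zero_apply, ← h2]
        simp only [act, map_sum, map_mul, cst, map_ratCast]
        rfl
      refine kills_of_act ?_
      have h3 : CF (evalM (cst ℂ (CF f.toMultilinearMap))) = cst ℂ (CF f.toMultilinearMap) := by
        funext I
        unfold CF
        rw [evalM_apply, evalF_single]
      rw [h3]
      exact h2
  exact h0 _ _

end hodge

/-- The reduction to period matrices. -/
theorem all_of_ppav (𝒜 : Sys) (X : AV)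
    (hA : ∀ (G : ℕ) (Z : Matrix (Fin G) (Fin G) ℂ) (h : PM Z),
      (∀ (a : ℕ) (Z' : Matrix (Fin a) (Fin a) ℂ) (h' : PM Z')
      (E : Matrix (Fin G ⊕ Fin G) (Fin a ⊕ Fin a) ℚ) (F : Matrix (Fin a ⊕ Fin a) (Fin G ⊕ Fin G) ℚ),
      Fac Z Z' E F → ∃ i : (AVZ h').H →ₗ[ℚ] X.H, IsHom (AVZ h') X i ∧ Function.Injective i) →
      𝒜.AllHodge (AVZ h)) : 𝒜.AllHodge X := by
  intro κ _ f hf
  obtain ⟨G, Z, h, A, hC'⟩ := exists_ppav (AV.isAV X)
  have hfacX : ∀ (a : ℕ) (Z' : Matrix (Fin a) (Fin a) ℂ) (h' : PM Z')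
      (E : Matrix (Fin G ⊕ Fin G) (Fin a ⊕ Fin a) ℚ) (F : Matrix (Fin a ⊕ Fin a) (Fin G ⊕ Fin G) ℚ),
      Fac Z Z' E F → ∃ i : (AVZ h').H →ₗ[ℚ] X.H, IsHom (AVZ h') X i ∧ Function.Injective i := by
    intro a Z' h' E F hfac
    obtain ⟨Ψ₁, h₁⟩ := h'.cht.hom hC' (R := E) (by rw [DJ_JR, DJ_JR]; exact hfac.de.symm)
    refine ⟨A.symm.toLinearMap.comp (Matrix.mulVecLin E), ⟨Ψ₁, fun v => h₁ v⟩, ?_⟩
    intro x y hxy
    have h2 : E *ᵥ x = E *ᵥ y := A.symm.injective hxy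
    have h3 := congrArg (fun v => F *ᵥ v) h2
    beta_reduce at h3
    rw [mulVec_mulVec, mulVec_mulVec, hfac.fe, one_mulVec, one_mulVec] at h3
    exact h3
  have hall := hA G Z h hfacX
  obtain ⟨Ψ₁, h₁⟩ := h.cht.hom hC' (R := 1) (by rw [cK_one, Matrix.one_mul, Matrix.mul_one])
  obtain ⟨Ψ₂, h₂⟩ := hC'.hom h.cht (R := 1) (by rw [cK_one, Matrix.one_mul, Matrix.mul_one])
  have e₁ : ∀ w, Ψ₁ (perOne Z w) = X.per (A.symm w) := fun w => by
    rw [h₁, one_mulVec]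
    rfl
  have e₂ : ∀ v, Ψ₂ (X.per v) = perOne Z (A v) := fun v => by
    have h3 := h₂ (A v)
    have h4 : (X.per.comp A.symm.toLinearMap.toAddMonoidHom) (A v) = X.per v := by
      change X.per (A.symm (A v)) = X.per v
      rw [LinearEquiv.symm_apply_apply]
    rwa [h4, one_mulVec] at h3
  have h5 : IsHodge (perOne Z) (f.compLinearMap A.symm.toLinearMap) :=
    isHodge_comp A.symm.toLinearMap Ψ₁ e₁ hf
  have h6 := hall κ _ h5
  have h7 := 𝒜.pull (X := X) (Y := AVZ h) A.toLinearMap ⟨Ψ₂, e₂⟩ _ h6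
  have h8 : (f.compLinearMap A.symm.toLinearMap).compLinearMap A.toLinearMap = f := by
    ext v
    rw [AlternatingMap.compLinearMap_apply, AlternatingMap.compLinearMap_apply]
    congr 1
    funext k
    exact A.symm_apply_apply (v k)
  have h9 : 𝒜.A X κ ((f.compLinearMap A.symm.toLinearMap).compLinearMap A.toLinearMap) := h7
  rwa [h8] at h9

/-- The result for a complex multiplication part in independent blocks and simple factors of
type III of dimension four. -/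
theorem quat_all (𝒜 : Sys) (X : AV)
    (hX : ∀ Y, IsFactor Y X → finrank ℚ Y.H ≤ 6 ∨ HasCMult Y ∨ QuadMult Y ∨ RealMult Y ∨
      FiveDim Y ∨ FullHodge Y ∨ QuatEnd Y)
    (C : CMAV) {J : Type} (b : C.I → J) (hC : Pool.Agent.W547.UB.IndependentBlocks C b)
    (h1 : ∀ Y, IsFactor Y X → HasCMult Y → ∃ i, IsOfType Y (C.factor i))
    (h2 : ∀ (Y E : AV) (d : ℚ), IsFactor Y X → ¬ HasCMult Y → Unbalanced Y d →
      finrank ℚ E.H = 2 → Unbalanced E d → ∃ i, IsOfType E (C.factor i)) :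
    𝒜.AllHodge X := by
  classical
  refine all_of_ppav 𝒜 X fun G Z h hfac => ?_
  obtain ⟨ι, _, _, g, Z', E, F, d⟩ := exists_dcs h
  have hF : ∀ j, IsFactor (AVZ (d.pm j)) X := fun j => by
    obtain ⟨i, hi, hinj⟩ := hfac _ _ (d.pm j) _ _ (d.fac j)
    exact ⟨simple_of _ (d.pm j) (d.sim j) (d.pos j), i, hi, hinj⟩
  have hsix : ∀ j, ¬ QuatEnd (AVZ (d.pm j)) → finrank ℚ (AVZ (d.pm j)).H ≤ 6 ∨
      HasCMult (AVZ (d.pm j)) ∨ QuadMult (AVZ (d.pm j)) ∨ RealMult (AVZ (d.pm j)) ∨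
      FiveDim (AVZ (d.pm j)) ∨ FullHodge (AVZ (d.pm j)) := fun j hj => by
    rcases hX _ (hF j) with k | k | k | k | k | k | k
    · exact Or.inl k
    · exact Or.inr (Or.inl k)
    · exact Or.inr (Or.inr (Or.inl k))
    · exact Or.inr (Or.inr (Or.inr (Or.inl k)))
    · exact Or.inr (Or.inr (Or.inr (Or.inr (Or.inl k))))
    · exact Or.inr (Or.inr (Or.inr (Or.inr (Or.inr k))))
    · exact absurd k hj
  refine hodge_of_clm 𝒜 h (d.all_clm 𝒜 h (fun j hj => ?_) (d.base 𝒜 h _ ?_))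
  · by_cases hcm : HasCMult (AVZ (d.pm j))
    · exact Or.inr hcm
    refine Or.inl ⟨hcm, fun U hU => ?_⟩
    have hsim : IsSimple (AVZ (d.pm j)) := (hF j).1
    rcases hsix j hj with k | k | k | k | k | k
    · exact SmallDim.lc (d.pm j) hsim (d.pos j) ⟨k, fun h1 => absurd h1 hcm⟩ hU
    · exact absurd k hcm
    · exact k.lc (d.pm j) hU
    · exact k.lc (d.pm j) hsim (d.pos j) hU
    · exact k.lc (d.pm j) hsim (d.pos j) hU
    · exact k.lc (d.pm j) hsim (d.pos j) hU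
  · have hkey : ∀ Y, IsFactor Y (AVQ (Q := {j // ¬ QuatEnd (AVZ (d.pm j))}) fun q => d.pm q.1) →
        IsFactor Y X ∧ ¬ QuatEnd Y := fun Y hY => by
      obtain ⟨q, e, he, hes⟩ := factor_prod (fun q : {j // ¬ QuatEnd (AVZ (d.pm j))} => d.pm q.1)
        (fun q => (hF q.1).1) hY
      obtain ⟨-, i, hi, hinj⟩ := hF q.1
      exact ⟨⟨hY.1, i.comp e.toLinearMap, IsHom.comp' hi he, hinj.comp e.injective⟩,
        fun hq => q.2 (QuatEnd.iso e.symm hes he hq)⟩
    refine blocks_all 𝒜 _ (fun Y hY => ?_) C b hC (fun Y hY => h1 Y (hkey Y hY).1)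
      (fun Y E d' hY => h2 Y E d' (hkey Y hY).1)
    rcases hX _ (hkey Y hY).1 with k | k | k | k | k | k | k
    · exact Or.inl k
    · exact Or.inr (Or.inl k)
    · exact Or.inr (Or.inr (Or.inl k))
    · exact Or.inr (Or.inr (Or.inr (Or.inl k)))
    · exact Or.inr (Or.inr (Or.inr (Or.inr (Or.inl k))))
    · exact Or.inr (Or.inr (Or.inr (Or.inr (Or.inr k))))
    · exact absurd k (hkey Y hY).2

end

end Pool.Agent.L5helper19.TT
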