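import Mathlib
import Pool.Agent.L5helper19.TT.Main5

/-!
# The Hodge conjecture for products with abelian fourfolds of type III

Let `X` be a complex abelian variety each of whose simple factors `Y` (the simple abelian varieties
with a homomorphism `Y → X` with finite kernel) satisfies one of the following conditions.

* `QuatEnd Y`: the dimension of `Y` is four, and its endomorphism algebra is a definite quaternion
  algebra over `ℚ` (Albert type III).
* The dimension of `Y` is at most three.
* `QuadMult Y`: the endomorphism algebra of `Y` is an imaginary quadratic field, and the two
  multiplicities of its action on the tangent space are at most three; if the dimension is six (so
  that both multiplicities are three) then the discriminant is trivial.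
* `RealMult Y`: the endomorphism algebra is of Albert type I or II, and the relative dimension is at
  most three. The dimension is unbounded.
* `FiveDim Y`: the dimension is five and the endomorphism algebra is `ℚ`.
* `FullHodge Y`: the endomorphism algebra is of Albert type I or II, and the Hodge group is as large
  as possible. The dimension and the relative dimension are unbounded.
* `HasCMult Y`: `Y` has complex multiplication. The dimension is unbounded.

So `X` may be any product of such varieties, with arbitrary multiplicities, with any number of
isogeny classes of each kind; different factors of type III may have the same or different quaternion
algebras. The condition on the complex multiplication is the same as in the starting theorem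
`ProductsWithCMBlocks`, which is the case without factors of type III: there is a product `C` of
abelian varieties of CM type, whose factors are divided into independent blocks of the kinds
`GoodBlock`, such that each simple factor of `X` with complex multiplication is isogenous to a factor
of `C`, and also each elliptic curve with complex multiplication by an imaginary quadratic field
which acts on some simple factor `Y` of `X` without complex multiplication with two different
multiplicities on the tangent space. (The imaginary quadratic fields act on the factors of type III
with equal multiplicities, so these factors add nothing to this condition. If no simple factor has
complex multiplication and none has such an unbalanced action then `C` may be the empty product.)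

The Hodge classes on `X`, in all degrees, are exactly the classes which belong to the system `Alg`,
which is the smallest system of cohomology classes on complex abelian varieties that contains the
classes of degree zero, the Hodge classes of degree two, and the Weil classes of imaginary quadratic
fields on abelian fourfolds and on abelian sixfolds with trivial discriminant, and that is stable
under linear combinations, cup products, pull-backs along homomorphisms, and push-forwards along the
projections of products of abelian varieties. All the classes in `Alg` are algebraic, by the theorem
of Lefschetz and by the theorems of Markman on Weil classes, so the Hodge conjecture holds for `X`.

The proof. The complexified cohomology of a simple factor `Y` of type III is two copies of a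
four-dimensional orthogonal representation of the Lie algebra of the Hodge group; this Lie algebra
is the whole of `so(4) = sl(2) × sl(2)`, the complex structure being in one factor and some
conjugate of it in the other. The invariants of `sl(2) × sl(2)` on the tensor powers of the
four-dimensional representation are generated by the quadratic form and the determinant, which
give divisors and Weil classes. The part of the Hodge group which belongs to one isogeny class of
type III is a direct factor of the Hodge group of `X`: the complex structure has two different kinds
of conjugates on this part, which excludes a common quotient with the part of a variety of another
kind, and for two varieties of type III a common quotient yields a nonzero homomorphism.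
-/

namespace Pool.Agent.L5helper19.TT.Products

open Module Pool.Agent.Y90 Pool.Agent.R915 Pool.Agent.H204R3.CM Pool.Agent.W547.KB
  Pool.Agent.W547.UB Pool.Agent.L5helper19.TT

theorem result (X : AV)
    (hX : ∀ Y, IsFactor Y X → finrank ℚ Y.H ≤ 6 ∨ HasCMult Y ∨ QuadMult Y ∨ RealMult Y ∨
      FiveDim Y ∨ FullHodge Y ∨ QuatEnd Y)
    (C : CMAV) {J : Type} (b : C.I → J) (hC : IndependentBlocks C b)
    (h1 : ∀ Y, IsFactor Y X → HasCMult Y → ∃ i, IsOfType Y (C.factor i))
    (h2 : ∀ (Y E : AV) (d : ℚ), IsFactor Y X → ¬ HasCMult Y → Unbalanced Y d →
      finrank ℚ E.H = 2 → Unbalanced E d → ∃ i, IsOfType E (C.factor i))
    (κ : Type) [Finite κ] (f : X.H [⋀^κ]→ₗ[ℚ] ℚ) :
    IsHodge X.per f ↔ Alg X κ f :=
  ⟨fun hf => quat_all algSys X hX C b hC h1 h2 κ f hf, fun hf => hf.isHodge inferInstance⟩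

end Pool.Agent.L5helper19.TT.Products
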